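import Pool.Agent.CO75.Fun

/-!
# The criterion in terms of `F` and `T`

PLAN. Write `n = |G|`, `n i = orderOf (x i)`.
* `rotTerm_eq`: for `0 < s < n`, `ζ / (1 - ζ) = -1/2 + (i/2) cot (π s / n)` for `ζ = exp (2 π i s / n)`
  (write `ζ = exp (i θ)`, `θ = 2 π s / n`, `1 - ζ = -2 i sin (θ / 2) exp (i θ / 2)`, `sin (θ/2) ≠ 0`).
* `eichler_eq`: for `γ ≠ 1` and given `g`, there is exactly one `s` in `[1, n i)` with
  `γ = g (x i)^s g⁻¹` if `g⁻¹ γ g ∈ ⟨x i⟩`, and none otherwise.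
* `sum_F`: `∑_{γ ≠ 1} Phi (x i) γ = ∑_g #{γ ≠ 1 : g⁻¹ γ g ∈ ⟨x i⟩} = n (n i - 1)`.
* `eight_numN`: the real part of `eichler x γ ^ 2` is `(1 - F/2)^2 - T^2/4` for `γ ≠ 1`; for odd `n`
  the map `γ ↦ γ^2` is a bijection of `G`, so `∑ eichler x (γ^2) = ∑ eichler x γ`, of real part
  `genus + ∑_{γ ≠ 1} (1 - F/2) = 0` by `sum_F`. Then expand
  `genus² + ∑_{γ ≠ 1} ((1 - F/2)^2 - T^2/4)`.
-/

namespace Pool.Agent.CO75

open Finset

theorem rotTerm_eq {n s : ℕ} (hs : 0 < s) (hsn : s < n) :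
    rotTerm n s = -(1 / 2 : ℂ) + Complex.I / 2 * (ct n s : ℂ) := by
  have hn0 : (0 : ℝ) < (n : ℝ) := by exact_mod_cast (lt_trans hs hsn)
  have hs0 : (0 : ℝ) < (s : ℝ) := by exact_mod_cast hs
  have hsn' : (s : ℝ) < (n : ℝ) := by exact_mod_cast hsn
  unfold rotTerm ct
  set θ : ℝ := Real.pi * (s : ℝ) / (n : ℝ) with hθ
  have hθ0 : 0 < θ := by positivity
  have hθ1 : θ < Real.pi := by
    rw [hθ, div_lt_iff₀ hn0]
    exact mul_lt_mul_of_pos_left hsn' Real.pi_pos
  have hsin : 0 < Real.sin θ := Real.sin_pos_of_pos_of_lt_pi hθ0 hθ1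
  have hsin' : ((Real.sin θ : ℝ) : ℂ) ≠ 0 := by exact_mod_cast hsin.ne'
  have hexp : Complex.exp (2 * Real.pi * Complex.I * ((s : ℂ) / (n : ℂ))) =
      (((Real.cos θ : ℝ) : ℂ) + ((Real.sin θ : ℝ) : ℂ) * Complex.I) ^ 2 := by
    have h1 : (2 * Real.pi * Complex.I * ((s : ℂ) / (n : ℂ)) : ℂ) =
        ((θ : ℝ) : ℂ) * Complex.I + ((θ : ℝ) : ℂ) * Complex.I := by
      rw [hθ]
      push_cast
      ring
    rw [h1, Complex.exp_add, Complex.exp_mul_I, ← Complex.ofReal_cos, ← Complex.ofReal_sin]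
    ring
  have hcs : ((Real.cos θ : ℝ) : ℂ) ^ 2 + ((Real.sin θ : ℝ) : ℂ) ^ 2 = 1 := by
    rw [← Complex.ofReal_pow, ← Complex.ofReal_pow, ← Complex.ofReal_add]
    rw [Real.cos_sq_add_sin_sq]
    norm_num
  rw [hexp, Complex.ofReal_div]
  generalize ((Real.cos θ : ℝ) : ℂ) = a at *
  generalize ((Real.sin θ : ℝ) : ℂ) = b at *
  have hI : Complex.I ^ 2 = -1 := Complex.I_sq
  have h3 : 1 - (a + b * Complex.I) ^ 2 = -(2 * Complex.I * b * (a + b * Complex.I)) := by
    linear_combination (-1 : ℂ) * hcs + (b ^ 2) * hI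
  have h4 : (a + b * Complex.I) * (a - b * Complex.I) = 1 := by
    linear_combination hcs - b ^ 2 * hI
  have h5 : a + b * Complex.I ≠ 0 := by
    intro h
    rw [h, zero_mul] at h4
    exact zero_ne_one h4
  rw [h3]
  have hI0 : Complex.I ≠ 0 := Complex.I_ne_zero
  field_simp
  linear_combination (-a) * hI

variable {G : Type} [Group G] [Fintype G] {r : ℕ}

open Classical in
private theorem fo_count (y g : G) {γ : G} (hγ : γ ≠ 1) :
    ∑ s ∈ Finset.Ico 1 (orderOf y), (if γ = g * y ^ s * g⁻¹ then (1 : ℂ) else 0) =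
      if g⁻¹ * γ * g ∈ Subgroup.zpowers y then 1 else 0 := by
  have hiff : ∀ s : ℕ, γ = g * y ^ s * g⁻¹ ↔ y ^ s = g⁻¹ * γ * g := by
    intro s
    constructor
    · intro h
      rw [h]
      group
    · intro h
      rw [h]
      group
  by_cases hmem : g⁻¹ * γ * g ∈ Subgroup.zpowers y
  · rw [if_pos hmem]
    have h1 := (mem_zpowers_iff_mem_range_orderOf (x := y) (y := g⁻¹ * γ * g)).1 hmem
    rw [Finset.mem_image] at h1
    obtain ⟨s, hs, hsy⟩ := h1
    rw [Finset.mem_range] at hs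
    have hs0 : s ≠ 0 := by
      rintro rfl
      rw [pow_zero] at hsy
      apply hγ
      have h2 : γ = g * (g⁻¹ * γ * g) * g⁻¹ := by group
      rw [h2, ← hsy]
      group
    rw [Finset.sum_eq_single s]
    · rw [if_pos ((hiff s).2 hsy)]
    · intro t ht hts
      rw [if_neg]
      intro h
      apply hts
      have h3 := (hiff t).1 h
      rw [← hsy] at h3
      rw [Finset.mem_Ico] at ht
      exact pow_injOn_Iio_orderOf (by exact ht.2) (by exact hs) h3
    · intro hns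
      exact absurd (Finset.mem_Ico.2 ⟨by omega, hs⟩) hns
  · rw [if_neg hmem]
    apply Finset.sum_eq_zero
    intro s _
    rw [if_neg]
    intro h
    apply hmem
    rw [← (hiff s).1 h]
    exact Subgroup.npow_mem_zpowers y s

open Classical in
private theorem fo_Phi (y : G) {γ : G} (hγ : γ ≠ 1) :
    ∑ g : G, ∑ s ∈ Finset.Ico 1 (orderOf y), (if γ = g * y ^ s * g⁻¹ then (1 : ℂ) else 0) =
      (Phi y γ : ℂ) := by
  unfold Phi
  rw [Finset.card_filter]
  push_cast
  exact Finset.sum_congr rfl fun g _ => fo_count y g hγ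

theorem eichler_eq (x : Fin r → G) {γ : G} (hγ : γ ≠ 1) :
    eichler x γ = 1 - (F x γ : ℂ) / 2 + Complex.I / 2 * (T x γ : ℂ) := by
  classical
  unfold eichler
  rw [if_neg hγ]
  have key : ∀ i : Fin r, (1 / (orderOf (x i) : ℂ)) * ∑ g : G, ∑ s ∈ Finset.Ico 1 (orderOf (x i)),
      (if γ = g * x i ^ s * g⁻¹ then rotTerm (orderOf (x i)) s else 0) =
      -(1 / 2 : ℂ) * ((Phi (x i) γ : ℂ) / (orderOf (x i) : ℂ)) +
      Complex.I / 2 * ((1 / (orderOf (x i) : ℂ)) * ∑ g : G, ∑ s ∈ Finset.Ico 1 (orderOf (x i)),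
        ((if γ = g * x i ^ s * g⁻¹ then ct (orderOf (x i)) s else 0 : ℝ) : ℂ)) := by
    intro i
    have h1 : ∀ g : G, ∀ s ∈ Finset.Ico 1 (orderOf (x i)),
        (if γ = g * x i ^ s * g⁻¹ then rotTerm (orderOf (x i)) s else 0) =
        -(1 / 2 : ℂ) * (if γ = g * x i ^ s * g⁻¹ then (1 : ℂ) else 0) +
        Complex.I / 2 * ((if γ = g * x i ^ s * g⁻¹ then ct (orderOf (x i)) s else 0 : ℝ) : ℂ) := by
      intro g s hs
      rw [Finset.mem_Ico] at hs
      by_cases h : γ = g * x i ^ s * g⁻¹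
      · rw [if_pos h, if_pos h, if_pos h, rotTerm_eq (by omega) hs.2]
        ring
      · rw [if_neg h, if_neg h, if_neg h]
        simp
    have h2 : ∑ g : G, ∑ s ∈ Finset.Ico 1 (orderOf (x i)),
        (if γ = g * x i ^ s * g⁻¹ then rotTerm (orderOf (x i)) s else 0) =
        -(1 / 2 : ℂ) * (Phi (x i) γ : ℂ) +
        Complex.I / 2 * ∑ g : G, ∑ s ∈ Finset.Ico 1 (orderOf (x i)),
          ((if γ = g * x i ^ s * g⁻¹ then ct (orderOf (x i)) s else 0 : ℝ) : ℂ) := by
      rw [← fo_Phi (x i) hγ, Finset.mul_sum, Finset.mul_sum, ← Finset.sum_add_distrib]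
      refine Finset.sum_congr rfl fun g _ => ?_
      rw [Finset.mul_sum, Finset.mul_sum, ← Finset.sum_add_distrib]
      exact Finset.sum_congr rfl fun s hs => h1 g s hs
    rw [h2]
    ring
  rw [Finset.sum_congr rfl fun i _ => key i, Finset.sum_add_distrib, ← Finset.mul_sum, ← Finset.mul_sum]
  unfold F T
  push_cast
  ring

open Classical in
private theorem fo_sumPhi (y : G) :
    ∑ γ ∈ univ.erase (1 : G), (Phi y γ : ℝ) = (Fintype.card G : ℝ) * ((orderOf y : ℝ) - 1) := by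
  have h1 : ∀ γ : G, (Phi y γ : ℝ) = ∑ g : G, if g⁻¹ * γ * g ∈ Subgroup.zpowers y then (1 : ℝ) else 0 := by
    intro γ
    unfold Phi
    rw [Finset.card_filter]
    push_cast
    rfl
  rw [Finset.sum_congr rfl fun γ _ => h1 γ, Finset.sum_comm]
  have h2 : ∀ g : G, ∑ γ ∈ univ.erase (1 : G),
      (if g⁻¹ * γ * g ∈ Subgroup.zpowers y then (1 : ℝ) else 0) = (orderOf y : ℝ) - 1 := by
    intro g
    have h3 : ∑ γ : G, (if g⁻¹ * γ * g ∈ Subgroup.zpowers y then (1 : ℝ) else 0) = (orderOf y : ℝ) := by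
      have h4 : ∑ γ : G, (if g⁻¹ * γ * g ∈ Subgroup.zpowers y then (1 : ℝ) else 0) =
          ∑ δ : G, (if δ ∈ Subgroup.zpowers y then (1 : ℝ) else 0) := by
        apply Fintype.sum_equiv (MulAut.conj g⁻¹).toEquiv
        intro γ
        simp
      rw [h4, Finset.sum_boole]
      congr 1
      rw [← Nat.card_zpowers, Nat.card_eq_fintype_card, Fintype.card_subtype]
    have h5 := Finset.add_sum_erase univ
      (fun γ : G => if g⁻¹ * γ * g ∈ Subgroup.zpowers y then (1 : ℝ) else 0) (Finset.mem_univ (1 : G))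
    rw [h3] at h5
    have h6 : g⁻¹ * 1 * g ∈ Subgroup.zpowers y := by
      rw [mul_one, inv_mul_cancel]
      exact Subgroup.one_mem _
    rw [if_pos h6] at h5
    linarith
  rw [Finset.sum_congr rfl fun g _ => h2 g, Finset.sum_const, Finset.card_univ, nsmul_eq_mul]

open Classical in
theorem sum_F (x : Fin r → G) :
    ∑ γ ∈ univ.erase (1 : G), F x γ = (Fintype.card G : ℝ) * (area x + 2) := by
  unfold F area
  rw [Finset.sum_comm]
  have h1 : ∀ i : Fin r, ∑ γ ∈ univ.erase (1 : G), (Phi (x i) γ : ℝ) / (orderOf (x i) : ℝ) =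
      (Fintype.card G : ℝ) * (1 - 1 / (orderOf (x i) : ℝ)) := by
    intro i
    rw [← Finset.sum_div, fo_sumPhi]
    have h2 : (orderOf (x i) : ℝ) ≠ 0 := by
      exact_mod_cast (orderOf_pos (x i)).ne'
    field_simp
  rw [Finset.sum_congr rfl fun i _ => h1 i, ← Finset.mul_sum, Finset.sum_sub_distrib]
  simp only [Finset.sum_const, Finset.card_univ, Fintype.card_fin, nsmul_eq_mul, mul_one]
  ring

private theorem fo_sq_bij (hodd : Odd (Fintype.card G)) : Function.Bijective (fun γ : G => γ ^ 2) := by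
  have hc : Nat.Coprime (Nat.card G) 2 := by
    rw [Nat.card_eq_fintype_card]
    exact Nat.Coprime.symm (Nat.coprime_two_left.2 hodd)
  exact (powCoprime hc).bijective

theorem eight_numN (hodd : Odd (Fintype.card G)) (x : Fin r → G) :
    8 * (numN x).re = (Fintype.card G : ℝ) * area x ^ 2 - 4 + E x := by
  classical
  have hn : (Fintype.card G : ℝ) ≠ 0 := by
    exact_mod_cast (Fintype.card_pos (α := G)).ne'
  have h1 : ∀ γ : G, γ ≠ 1 → (eichler x γ).re = 1 - F x γ / 2 := by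
    intro γ hγ
    rw [eichler_eq x hγ]
    simp
  have h2 : ∀ γ : G, γ ≠ 1 → (eichler x γ).im = T x γ / 2 := by
    intro γ hγ
    rw [eichler_eq x hγ]
    simp
    ring
  have h3 : eichler x 1 = (genus x : ℂ) := by
    unfold eichler
    rw [if_pos rfl]
  have hsumc : ∑ γ ∈ univ.erase (1 : G), (1 : ℝ) = (Fintype.card G : ℝ) - 1 := by
    rw [Finset.sum_const, Finset.card_erase_of_mem (Finset.mem_univ _), Finset.card_univ, nsmul_eq_mul,
      mul_one, Nat.cast_sub Fintype.card_pos, Nat.cast_one]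
  have hF := sum_F x
  have hA : ∑ γ : G, (eichler x γ).re = 0 := by
    rw [← Finset.add_sum_erase univ (fun γ : G => (eichler x γ).re) (Finset.mem_univ (1 : G))]
    have h4 : ∑ γ ∈ univ.erase (1 : G), (eichler x γ).re = ∑ γ ∈ univ.erase (1 : G), (1 - F x γ / 2) :=
      Finset.sum_congr rfl fun γ hγ => h1 γ (Finset.ne_of_mem_erase hγ)
    rw [h4, Finset.sum_sub_distrib, ← Finset.sum_div, hF, hsumc, h3, Complex.ofReal_re, genus_eq]
    ring
  have hB : ∑ γ : G, (eichler x (γ ^ 2)).re = 0 := by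
    rw [← hA]
    exact Fintype.sum_bijective _ (fo_sq_bij hodd) _ _ (fun _ => rfl)
  have hC : ∑ γ : G, (eichler x γ ^ 2).re = genus x ^ 2 +
      ((Fintype.card G : ℝ) - 1 - (Fintype.card G : ℝ) * (area x + 2)) +
      (1 / 4) * ∑ γ ∈ univ.erase (1 : G), (F x γ ^ 2 - T x γ ^ 2) := by
    rw [← Finset.add_sum_erase univ (fun γ : G => (eichler x γ ^ 2).re) (Finset.mem_univ (1 : G))]
    have h4 : ∑ γ ∈ univ.erase (1 : G), (eichler x γ ^ 2).re =
        ∑ γ ∈ univ.erase (1 : G), ((1 - F x γ) + (1 / 4) * (F x γ ^ 2 - T x γ ^ 2)) := by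
      refine Finset.sum_congr rfl fun γ hγ => ?_
      have hg := Finset.ne_of_mem_erase hγ
      rw [sq, Complex.mul_re, h1 γ hg, h2 γ hg]
      ring
    have h5 : (eichler x 1 ^ 2).re = genus x ^ 2 := by
      rw [h3, ← Complex.ofReal_pow, Complex.ofReal_re]
    rw [h4, Finset.sum_add_distrib, Finset.sum_sub_distrib, hF, hsumc, ← Finset.mul_sum]
    simp only [h5]
    ring
  have hD : (numN x).re = 1 / (2 * (Fintype.card G : ℝ)) *
      (∑ γ : G, (eichler x γ ^ 2).re + ∑ γ : G, (eichler x (γ ^ 2)).re) := by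
    unfold numN
    have h6 : (1 / (2 * (Fintype.card G : ℂ))) = ((1 / (2 * (Fintype.card G : ℝ)) : ℝ) : ℂ) := by
      push_cast
      rfl
    rw [h6, Complex.re_ofReal_mul, Complex.re_sum, ← Finset.sum_add_distrib]
    simp only [Complex.add_re]
  rw [hD, hB, hC, genus_eq]
  unfold E
  field_simp
  ring

end Pool.Agent.CO75
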