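import Pool.Agent.CO75.Fun

/-!
# Conjugates of an element in cyclic subgroups

PLAN. `x i ^ (orderOf (x i) / m)` has order `m` for `m ∣ orderOf (x i)`. An element of order `m` of the
cyclic group `⟨x j⟩` generates the subgroup of order `m` of `⟨x j⟩`, which is
`⟨x j ^ (orderOf (x j) / m)⟩`. `B_symm`: so `B x m i j = #{g : g⁻¹ K_i g = K_j}` with
`K_i = ⟨x i ^ (orderOf (x i) / m)⟩`, and `g ↦ g⁻¹` is a bijection to the set for `B x m j i`.
-/

namespace Pool.Agent.CO75

open Finset

variable {G : Type} [Group G] [Fintype G] {r : ℕ}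

/-- The number of `g` that conjugate the subgroup of order `m` of `⟨x i⟩` into `⟨x j⟩`. -/
noncomputable def B (x : Fin r → G) (m : ℕ) (i j : Fin r) : ℕ :=
  Phi (x j) (x i ^ (orderOf (x i) / m))

private theorem orderOf_conj_inv (g a : G) : orderOf (g⁻¹ * a * g) = orderOf a := by
  have h := MulEquiv.orderOf_eq (MulAut.conj g⁻¹) a
  rw [MulAut.conj_apply, inv_inv] at h
  exact h

private theorem conj_zpow_inv (g a : G) (k : ℤ) : (g⁻¹ * a * g) ^ k = g⁻¹ * a ^ k * g := by
  have h := conj_zpow (i := k) (a := g⁻¹) (b := a)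
  rw [inv_inv] at h
  exact h

private theorem orderOf_pow_div (y : G) {m : ℕ} (hm : m ∣ orderOf y) :
    orderOf (y ^ (orderOf y / m)) = m := by
  have hpos : 0 < orderOf y := orderOf_pos y
  obtain ⟨k, hk⟩ := hm
  have hm0 : 0 < m := by
    rcases Nat.eq_zero_or_pos m with h | h
    · rw [h, zero_mul] at hk
      omega
    · exact h
  have hk0 : 0 < k := by
    rcases Nat.eq_zero_or_pos k with h | h
    · rw [h, mul_zero] at hk
      omega
    · exact h
  have h1 : orderOf y / m = k := by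
    rw [hk]
    exact Nat.mul_div_cancel_left k hm0
  rw [h1, orderOf_pow_of_dvd hk0.ne' ⟨m, by rw [hk, mul_comm]⟩, hk]
  exact Nat.mul_div_cancel m hk0

private theorem pow_div_mem (y : G) {c : G} (hc : c ∈ Subgroup.zpowers y) :
    y ^ (orderOf y / orderOf c) ∈ Subgroup.zpowers c := by
  have hpos : 0 < orderOf y := orderOf_pos y
  obtain ⟨k, hk⟩ := (mem_powers_iff_mem_zpowers.2 hc : c ∈ Submonoid.powers y)
  simp only at hk
  have hord : orderOf c = orderOf y / Nat.gcd (orderOf y) k := by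
    rw [← hk, orderOf_pow]
  have hg : Nat.gcd (orderOf y) k ∣ orderOf y := Nat.gcd_dvd_left _ _
  have hdiv : orderOf y / orderOf c = Nat.gcd (orderOf y) k := by
    rw [hord]
    exact Nat.div_div_self hg hpos.ne'
  rw [hdiv]
  refine ⟨Nat.gcdB (orderOf y) k, ?_⟩
  simp only
  have hb := Nat.gcd_eq_gcd_ab (orderOf y) k
  rw [← hk, ← zpow_natCast y (Nat.gcd (orderOf y) k), hb, zpow_add, zpow_mul, zpow_natCast y (orderOf y),
    pow_orderOf_eq_one, one_zpow, one_mul, zpow_mul, zpow_natCast y k]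

private theorem mem_symm (x : Fin r → G) {m : ℕ} {i j : Fin r} (hi : m ∣ orderOf (x i)) {g : G}
    (h : g⁻¹ * x i ^ (orderOf (x i) / m) * g ∈ Subgroup.zpowers (x j)) :
    (g⁻¹)⁻¹ * x j ^ (orderOf (x j) / m) * g⁻¹ ∈ Subgroup.zpowers (x i) := by
  have hord : orderOf (g⁻¹ * x i ^ (orderOf (x i) / m) * g) = m := by
    rw [orderOf_conj_inv, orderOf_pow_div (x i) hi]
  have h1 := pow_div_mem (x j) h
  rw [hord] at h1
  obtain ⟨k, hk⟩ := h1
  simp only at hk
  rw [conj_zpow_inv] at hk
  rw [← hk]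
  refine ⟨((orderOf (x i) / m : ℕ) : ℤ) * k, ?_⟩
  simp only
  rw [zpow_mul, zpow_natCast]
  group

theorem Phi_le (y γ : G) : Phi y γ ≤ Fintype.card G := by
  classical
  unfold Phi
  exact (Finset.card_filter_le _ _).trans (by rw [Finset.card_univ])

theorem B_symm (x : Fin r → G) {m : ℕ} {i j : Fin r} (hi : m ∣ orderOf (x i))
    (hj : m ∣ orderOf (x j)) : B x m i j = B x m j i := by
  classical
  unfold B Phi
  refine Finset.card_bij (fun g _ => g⁻¹) ?_ ?_ ?_
  · intro g hg
    rw [Finset.mem_filter] at hg ⊢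
    exact ⟨Finset.mem_univ _, mem_symm x hi hg.2⟩
  · intro a _ b _ hab
    exact inv_injective hab
  · intro g hg
    rw [Finset.mem_filter] at hg
    refine ⟨g⁻¹, ?_, inv_inv g⟩
    rw [Finset.mem_filter]
    exact ⟨Finset.mem_univ _, mem_symm x hj hg.2⟩

theorem B_zero (x : Fin r → G) {m : ℕ} {i j : Fin r} (hi : m ∣ orderOf (x i))
    (hj : ¬ m ∣ orderOf (x j)) : B x m i j = 0 := by
  classical
  unfold B Phi
  rw [Finset.card_eq_zero, Finset.filter_eq_empty_iff]
  intro g _ hg
  apply hj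
  have h1 := orderOf_dvd_of_mem_zpowers hg
  rw [orderOf_conj_inv, orderOf_pow_div (x i) hi] at h1
  exact h1

private theorem conj_mem_of_zpowers_le {y γ δ g : G} (h : δ ∈ Subgroup.zpowers γ)
    (hg : g⁻¹ * γ * g ∈ Subgroup.zpowers y) : g⁻¹ * δ * g ∈ Subgroup.zpowers y := by
  obtain ⟨k, rfl⟩ := h
  simp only
  rw [← conj_zpow_inv]
  exact Subgroup.zpow_mem _ hg k

/-- `F` at a power depends only on the subgroup. -/
theorem F_eq_of_zpowers_eq (x : Fin r → G) {γ δ : G}
    (h : Subgroup.zpowers γ = Subgroup.zpowers δ) : F x γ = F x δ := by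
  classical
  unfold F
  refine Finset.sum_congr rfl fun i _ => ?_
  have h1 : Phi (x i) γ = Phi (x i) δ := by
    unfold Phi
    congr 1
    ext g
    simp only [Finset.mem_filter, Finset.mem_univ, true_and]
    constructor
    · exact conj_mem_of_zpowers_le (by rw [h]; exact Subgroup.mem_zpowers δ)
    · exact conj_mem_of_zpowers_le (by rw [← h]; exact Subgroup.mem_zpowers γ)
  rw [h1]

end Pool.Agent.CO75
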