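import Pool.Agent.CO75.DLem
import Pool.Agent.CO75.Mat

/-!
# Grouping the powers by their order

PLAN. Group the `s` in `[1, n i)` by `m = n i / gcd (s, n i)`: `s = (n i / m) a` with `a < m`
coprime to `m`, `ct (n i) s = ct m a` and `⟨(x i)^s⟩ = ⟨(x i)^(n i / m)⟩` (`F_eq_of_zpowers_eq`).
-/

namespace Pool.Agent.CO75

open Finset

variable {G : Type} [Group G] [Fintype G] {r : ℕ}

private theorem zpowers_pow_gcd_grp (y : G) (g a : ℕ) (hg : g ∣ orderOf y)
    (ha : Nat.Coprime a (orderOf y / g)) :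
    Subgroup.zpowers (y ^ (g * a)) = Subgroup.zpowers (y ^ g) := by
  have hn : 0 < orderOf y := orderOf_pos y
  have hg0 : 0 < g := Nat.pos_of_dvd_of_pos hg hn
  have hle : Subgroup.zpowers (y ^ (g * a)) ≤ Subgroup.zpowers (y ^ g) := by
    rw [Subgroup.zpowers_le, pow_mul]
    exact Subgroup.npow_mem_zpowers _ _
  apply Subgroup.eq_of_le_of_card_ge hle
  rw [Nat.card_zpowers, Nat.card_zpowers]
  have h1 : orderOf (y ^ g) = orderOf y / g := by
    rw [orderOf_pow' y hg0.ne']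
    rw [Nat.gcd_eq_right hg]
  rw [pow_mul]
  have h2 : Nat.Coprime (orderOf (y ^ g)) a := by
    rw [h1]; exact ha.symm
  rw [Nat.Coprime.orderOf_pow h2]

private theorem ct_mul_grp (m a g : ℕ) (hg : 0 < g) :
    ct (g * m) (g * a) = ct m a := by
  unfold ct
  have hgr : (g : ℝ) ≠ 0 := by exact_mod_cast hg.ne'
  have h : Real.pi * ((g * a : ℕ) : ℝ) / ((g * m : ℕ) : ℝ) = Real.pi * (a : ℝ) / (m : ℝ) := by
    push_cast
    rw [show Real.pi * ((g : ℝ) * a) = (g : ℝ) * (Real.pi * a) by ring]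
    exact mul_div_mul_left _ _ hgr
  rw [h]

theorem sum_group (x : Fin r → G) (i : Fin r) :
    ∑ s ∈ Ico 1 (orderOf (x i)), F x (x i ^ s) * (ct (orderOf (x i)) s ^ 2 - 1) =
      ∑ m ∈ (orderOf (x i)).divisors.erase 1, F x (x i ^ (orderOf (x i) / m)) * D m := by
  classical
  set n := orderOf (x i) with hn
  have hn0 : 0 < n := orderOf_pos (x i)
  simp only [D, Finset.mul_sum]
  rw [Finset.sum_sigma']
  refine Finset.sum_bij' (fun s _ => (⟨n / Nat.gcd s n, s / Nat.gcd s n⟩ : (_ : ℕ) × ℕ))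
    (fun p _ => n / p.1 * p.2) ?_ ?_ ?_ ?_ ?_
  · intro s hs
    rw [Finset.mem_Ico] at hs
    have hg0 : 0 < Nat.gcd s n := Nat.gcd_pos_of_pos_right _ hn0
    have hgs : Nat.gcd s n ∣ s := Nat.gcd_dvd_left _ _
    have hgn : Nat.gcd s n ∣ n := Nat.gcd_dvd_right _ _
    have hlt : s / Nat.gcd s n < n / Nat.gcd s n := Nat.div_lt_div_of_lt_of_dvd hgn hs.2
    rw [Finset.mem_sigma, Finset.mem_erase, Nat.mem_divisors, Finset.mem_filter, Finset.mem_range]
    refine ⟨⟨?_, Nat.div_dvd_of_dvd hgn, hn0.ne'⟩, hlt, Nat.coprime_div_gcd_div_gcd hg0⟩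
    have h1 : 0 < s / Nat.gcd s n := Nat.div_pos (Nat.le_of_dvd (by omega) hgs) hg0
    show n / Nat.gcd s n ≠ 1
    omega
  · rintro ⟨m, a⟩ hp
    rw [Finset.mem_sigma, Finset.mem_erase, Nat.mem_divisors, Finset.mem_filter,
      Finset.mem_range] at hp
    obtain ⟨⟨hm1, hmn, -⟩, ham, hco⟩ := hp
    simp only at hm1 hmn ham hco ⊢
    have hm0 : 0 < m := Nat.pos_of_dvd_of_pos hmn hn0
    have hd : 0 < n / m := Nat.div_pos (Nat.le_of_dvd hn0 hmn) hm0
    rw [Finset.mem_Ico]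
    constructor
    · have ha : 0 < a := by
        rcases Nat.eq_zero_or_pos a with h | h
        · subst h
          rw [Nat.coprime_zero_left] at hco
          exact absurd hco hm1
        · exact h
      exact Nat.mul_pos hd ha
    · calc n / m * a < n / m * m := Nat.mul_lt_mul_of_pos_left ham hd
        _ = n := Nat.div_mul_cancel hmn
  · intro s hs
    rw [Finset.mem_Ico] at hs
    have hg0 : 0 < Nat.gcd s n := Nat.gcd_pos_of_pos_right _ hn0
    have hgs : Nat.gcd s n ∣ s := Nat.gcd_dvd_left _ _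
    have hgn : Nat.gcd s n ∣ n := Nat.gcd_dvd_right _ _
    simp only
    rw [Nat.div_div_self hgn hn0.ne', Nat.mul_div_cancel' hgs]
  · rintro ⟨m, a⟩ hp
    rw [Finset.mem_sigma, Finset.mem_erase, Nat.mem_divisors, Finset.mem_filter,
      Finset.mem_range] at hp
    obtain ⟨⟨hm1, hmn, -⟩, ham, hco⟩ := hp
    simp only at hm1 hmn ham hco ⊢
    have hm0 : 0 < m := Nat.pos_of_dvd_of_pos hmn hn0
    have hd : 0 < n / m := Nat.div_pos (Nat.le_of_dvd hn0 hmn) hm0
    have hgcd : Nat.gcd (n / m * a) n = n / m := by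
      conv_lhs => rw [show n = n / m * m from (Nat.div_mul_cancel hmn).symm]
      rw [Nat.mul_div_cancel _ hm0, Nat.gcd_mul_left, hco, mul_one]
    rw [hgcd, Nat.div_div_self hmn hn0.ne', Nat.mul_div_cancel_left _ hd]
  · intro s hs
    rw [Finset.mem_Ico] at hs
    have hg0 : 0 < Nat.gcd s n := Nat.gcd_pos_of_pos_right _ hn0
    have hgs : Nat.gcd s n ∣ s := Nat.gcd_dvd_left _ _
    have hgn : Nat.gcd s n ∣ n := Nat.gcd_dvd_right _ _
    simp only
    rw [Nat.div_div_self hgn hn0.ne']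
    have hco : Nat.Coprime (s / Nat.gcd s n) (n / Nat.gcd s n) := Nat.coprime_div_gcd_div_gcd hg0
    have h1 : F x (x i ^ s) = F x (x i ^ Nat.gcd s n) := by
      apply F_eq_of_zpowers_eq
      conv_lhs => rw [show s = Nat.gcd s n * (s / Nat.gcd s n) from (Nat.mul_div_cancel' hgs).symm]
      exact zpowers_pow_gcd_grp (x i) _ _ hgn hco
    have h2 : ct n s = ct (n / Nat.gcd s n) (s / Nat.gcd s n) := by
      have h3 := ct_mul_grp (n / Nat.gcd s n) (s / Nat.gcd s n) (Nat.gcd s n) hg0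
      rw [Nat.mul_div_cancel' hgn, Nat.mul_div_cancel' hgs] at h3
      exact h3
    rw [h1, h2]

end Pool.Agent.CO75
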