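import Pool.Agent.CO75.CS
import Pool.Agent.CO75.Grouping

/-!
# The main lower bound for `E`

PLAN. `E_ge`: by `sum_F_sq` and `sum_T_sq_le`,
`-E ≤ ∑_i (1/n i) ∑_s F((x i)^s) (ct² - 1) = ∑_i (1/n i) ∑_{m ∣ n i, m ≠ 1} F((x i)^(n i/m)) D m`; as `n i` is
odd, `m = 3` or `m ≥ 5`, and `F ≥ 0`, `D 3 < 0`, so one may restrict to `m ≥ 5`. With
`F((x i)^(n i/m)) = ∑_j B x m i j / n j`, this is `∑_m D m ∑_{i,j ∈ I_m} B i j / (n i n j)` where `I_m` is the set
of `i` with `m ∣ n i` (`B_zero`), and `1/(n i n j) ≤ (1/(n i)² + 1/(n j)²)/2`, `B_symm` and `D m ≥ 0`.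
`E_ge_three`: `ct 3 s ^ 2 = 1/3`, so `∑ (F² - T²) ≥ (2/3) ∑ F²`, and `(n - 1) ∑ F² ≥ (∑ F)²` with
`sum_F`, `area + 2 = 2 r / 3`.
-/

namespace Pool.Agent.CO75

open Finset

variable {G : Type} [Group G] [Fintype G] {r : ℕ}

/-- The loss at the `i`-th branch point. -/
noncomputable def loss (x : Fin r → G) (i : Fin r) : ℝ :=
  1 / (orderOf (x i) : ℝ) ^ 2 * ∑ m ∈ (orderOf (x i)).divisors.filter (fun m => 5 ≤ m),
    (∑ j, (B x m i j : ℝ)) * D m

private theorem en_sym (C : Fin r → Fin r → ℝ) (hC : ∀ i j, C i j = C j i)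
    (h0 : ∀ i j, 0 ≤ C i j) (a : Fin r → ℝ) :
    ∑ i, ∑ j, a i * a j * C i j ≤ ∑ i, ∑ j, a i ^ 2 * C i j := by
  have h1 : ∑ i, ∑ j, a j ^ 2 * C i j = ∑ i, ∑ j, a i ^ 2 * C i j := by
    rw [Finset.sum_comm]
    refine Finset.sum_congr rfl fun i _ => Finset.sum_congr rfl fun j _ => ?_
    rw [hC j i]
  have h2 : ∑ i, ∑ j, a i * a j * C i j ≤
      ∑ i, ∑ j, (1 / 2 * (a i ^ 2 * C i j) + 1 / 2 * (a j ^ 2 * C i j)) := by
    refine Finset.sum_le_sum fun i _ => Finset.sum_le_sum fun j _ => ?_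
    nlinarith [mul_nonneg (sq_nonneg (a i - a j)) (h0 i j)]
  have h3 : ∑ i, ∑ j, (1 / 2 * (a i ^ 2 * C i j) + 1 / 2 * (a j ^ 2 * C i j)) =
      1 / 2 * ∑ i, ∑ j, a i ^ 2 * C i j + 1 / 2 * ∑ i, ∑ j, a j ^ 2 * C i j := by
    simp only [Finset.sum_add_distrib, Finset.mul_sum]
  linarith

open Classical in
/-- The matrix `B` restricted to the rows and columns for which `m` divides the order. -/
private noncomputable def enC (x : Fin r → G) (m : ℕ) (i j : Fin r) : ℝ :=
  if m ∣ orderOf (x i) ∧ m ∣ orderOf (x j) then (B x m i j : ℝ) else 0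

private theorem enC_symm (x : Fin r → G) (m : ℕ) (i j : Fin r) : enC x m i j = enC x m j i := by
  unfold enC
  by_cases h : m ∣ orderOf (x i) ∧ m ∣ orderOf (x j)
  · rw [if_pos h, if_pos ⟨h.2, h.1⟩, B_symm x h.1 h.2]
  · rw [if_neg h, if_neg fun h' => h ⟨h'.2, h'.1⟩]

private theorem enC_nonneg (x : Fin r → G) (m : ℕ) (i j : Fin r) : 0 ≤ enC x m i j := by
  unfold enC
  split_ifs <;> positivity

private theorem enC_eq (x : Fin r → G) {m : ℕ} {i : Fin r} (hi : m ∣ orderOf (x i)) (j : Fin r) :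
    enC x m i j = (B x m i j : ℝ) := by
  unfold enC
  split_ifs with h
  · rfl
  · rw [B_zero x hi fun hj => h ⟨hi, hj⟩, Nat.cast_zero]

private theorem enC_zero (x : Fin r → G) {m : ℕ} {i : Fin r} (hi : ¬ m ∣ orderOf (x i))
    (j : Fin r) : enC x m i j = 0 := by
  unfold enC
  rw [if_neg fun h => hi h.1]

/-- Sums over the divisors of one order as sums over the divisors of the order of the group. -/
private theorem en_ext (x : Fin r → G) (i : Fin r) (g : ℕ → ℝ)
    (hg : ∀ m, ¬ m ∣ orderOf (x i) → g m = 0) :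
    ∑ m ∈ (orderOf (x i)).divisors.filter (fun m => 5 ≤ m), g m =
      ∑ m ∈ (Fintype.card G).divisors.filter (fun m => 5 ≤ m), g m := by
  refine Finset.sum_subset ?_ ?_
  · intro m hm
    rw [Finset.mem_filter, Nat.mem_divisors] at hm ⊢
    exact ⟨⟨hm.1.1.trans orderOf_dvd_card, Fintype.card_ne_zero⟩, hm.2⟩
  · intro m hm hm'
    apply hg
    intro h
    apply hm'
    rw [Finset.mem_filter] at hm ⊢
    exact ⟨Nat.mem_divisors.2 ⟨h, (orderOf_pos (x i)).ne'⟩, hm.2⟩

private theorem en_loss (x : Fin r → G) (i : Fin r) :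
    loss x i = ∑ m ∈ (Fintype.card G).divisors.filter (fun m => 5 ≤ m),
      D m * ∑ j, (1 / (orderOf (x i) : ℝ)) ^ 2 * enC x m i j := by
  rw [← en_ext x i _ ?_]
  · unfold loss
    rw [Finset.mul_sum]
    refine Finset.sum_congr rfl fun m hm => ?_
    rw [Finset.mem_filter, Nat.mem_divisors] at hm
    simp only [enC_eq x hm.1.1, ← Finset.mul_sum]
    rw [one_div_pow]
    ring
  · intro m hm
    simp only [enC_zero x hm, mul_zero, Finset.sum_const_zero]

private theorem en_row (x : Fin r → G) (i : Fin r) :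
    1 / (orderOf (x i) : ℝ) * ∑ m ∈ (orderOf (x i)).divisors.filter (fun m => 5 ≤ m),
      F x (x i ^ (orderOf (x i) / m)) * D m =
      ∑ m ∈ (Fintype.card G).divisors.filter (fun m => 5 ≤ m),
        D m * ∑ j, (1 / (orderOf (x i) : ℝ)) * (1 / (orderOf (x j) : ℝ)) * enC x m i j := by
  rw [← en_ext x i _ ?_]
  · rw [Finset.mul_sum]
    refine Finset.sum_congr rfl fun m hm => ?_
    rw [Finset.mem_filter, Nat.mem_divisors] at hm
    simp only [enC_eq x hm.1.1, mul_assoc, ← Finset.mul_sum]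
    have h : F x (x i ^ (orderOf (x i) / m)) =
        ∑ j, 1 / (orderOf (x j) : ℝ) * (B x m i j : ℝ) := by
      unfold F B
      refine Finset.sum_congr rfl fun j _ => ?_
      ring
    rw [h]
    ring
  · intro m hm
    simp only [enC_zero x hm, mul_zero, Finset.sum_const_zero]

/-- Only the `m ≥ 5` matter. -/
private theorem en_drop (hodd : Odd (Fintype.card G)) (x : Fin r → G) (i : Fin r) :
    ∑ m ∈ (orderOf (x i)).divisors.erase 1, F x (x i ^ (orderOf (x i) / m)) * D m ≤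
      ∑ m ∈ (orderOf (x i)).divisors.filter (fun m => 5 ≤ m),
        F x (x i ^ (orderOf (x i) / m)) * D m := by
  rw [← Finset.sum_filter_add_sum_filter_not ((orderOf (x i)).divisors.erase 1) (fun m => 5 ≤ m)]
  have h1 : ((orderOf (x i)).divisors.erase 1).filter (fun m => 5 ≤ m) =
      (orderOf (x i)).divisors.filter (fun m => 5 ≤ m) := by
    ext m
    simp only [Finset.mem_filter, Finset.mem_erase]
    constructor
    · rintro ⟨⟨-, h⟩, h5⟩
      exact ⟨h, h5⟩
    · rintro ⟨h, h5⟩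
      exact ⟨⟨by omega, h⟩, h5⟩
  rw [h1]
  have h2 : ∑ m ∈ ((orderOf (x i)).divisors.erase 1).filter (fun m => ¬ 5 ≤ m),
      F x (x i ^ (orderOf (x i) / m)) * D m ≤ 0 := by
    refine Finset.sum_nonpos fun m hm => ?_
    rw [Finset.mem_filter, Finset.mem_erase, Nat.mem_divisors] at hm
    obtain ⟨⟨hm1, hmd, -⟩, hm5⟩ := hm
    have hmo : Odd m := hodd.of_dvd_nat (hmd.trans orderOf_dvd_card)
    have hm3 : m = 3 := by
      obtain ⟨k, hk⟩ := hmo
      omega
    subst hm3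
    rw [D_three]
    have := F_nonneg x (x i ^ (orderOf (x i) / 3))
    linarith
  linarith

theorem E_ge (hodd : Odd (Fintype.card G)) (x : Fin r → G) : -∑ i, loss x i ≤ E x := by
  classical
  have hn : (0 : ℝ) < (Fintype.card G : ℝ) := by
    exact_mod_cast (Fintype.card_pos (α := G))
  have h1 : E x = 1 / (Fintype.card G : ℝ) * (∑ γ ∈ univ.erase (1 : G), F x γ ^ 2 -
      ∑ γ ∈ univ.erase (1 : G), T x γ ^ 2) := by
    unfold E
    rw [Finset.sum_sub_distrib]
  have h2 := sum_F_sq x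
  have h3 := sum_T_sq_le x
  have h4 : ∑ i, (Fintype.card G : ℝ) / (orderOf (x i) : ℝ) *
        ∑ s ∈ Ico 1 (orderOf (x i)), F x (x i ^ s) * ct (orderOf (x i)) s ^ 2 -
      ∑ i, (Fintype.card G : ℝ) / (orderOf (x i) : ℝ) *
        ∑ s ∈ Ico 1 (orderOf (x i)), F x (x i ^ s) =
      (Fintype.card G : ℝ) * ∑ i, 1 / (orderOf (x i) : ℝ) *
        ∑ m ∈ (orderOf (x i)).divisors.erase 1, F x (x i ^ (orderOf (x i) / m)) * D m := by
    rw [← Finset.sum_sub_distrib, Finset.mul_sum]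
    refine Finset.sum_congr rfl fun i _ => ?_
    rw [← sum_group, ← mul_sub, ← Finset.sum_sub_distrib]
    have h5 : ∀ s ∈ Ico 1 (orderOf (x i)), F x (x i ^ s) * ct (orderOf (x i)) s ^ 2 -
        F x (x i ^ s) = F x (x i ^ s) * (ct (orderOf (x i)) s ^ 2 - 1) := by
      intro s _
      ring
    rw [Finset.sum_congr rfl h5]
    ring
  have h6 : ∑ i, 1 / (orderOf (x i) : ℝ) *
        ∑ m ∈ (orderOf (x i)).divisors.erase 1, F x (x i ^ (orderOf (x i) / m)) * D m ≤
      ∑ i, loss x i := by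
    calc ∑ i, 1 / (orderOf (x i) : ℝ) *
          ∑ m ∈ (orderOf (x i)).divisors.erase 1, F x (x i ^ (orderOf (x i) / m)) * D m
        ≤ ∑ i, 1 / (orderOf (x i) : ℝ) *
          ∑ m ∈ (orderOf (x i)).divisors.filter (fun m => 5 ≤ m),
            F x (x i ^ (orderOf (x i) / m)) * D m := by
          refine Finset.sum_le_sum fun i _ => ?_
          exact mul_le_mul_of_nonneg_left (en_drop hodd x i) (by positivity)
      _ = ∑ m ∈ (Fintype.card G).divisors.filter (fun m => 5 ≤ m),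
            D m * ∑ i, ∑ j, (1 / (orderOf (x i) : ℝ)) * (1 / (orderOf (x j) : ℝ)) *
              enC x m i j := by
          rw [Finset.sum_congr rfl fun i _ => en_row x i, Finset.sum_comm]
          refine Finset.sum_congr rfl fun m _ => ?_
          rw [Finset.mul_sum]
      _ ≤ ∑ m ∈ (Fintype.card G).divisors.filter (fun m => 5 ≤ m),
            D m * ∑ i, ∑ j, (1 / (orderOf (x i) : ℝ)) ^ 2 * enC x m i j := by
          refine Finset.sum_le_sum fun m hm => ?_
          rw [Finset.mem_filter] at hm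
          exact mul_le_mul_of_nonneg_left
            (en_sym (enC x m) (enC_symm x m) (enC_nonneg x m) _) (D_nonneg hm.2)
      _ = ∑ i, loss x i := by
          rw [Finset.sum_congr rfl fun i _ => en_loss x i, Finset.sum_comm]
          refine Finset.sum_congr rfl fun m _ => ?_
          rw [Finset.mul_sum]
  have h7 : -((Fintype.card G : ℝ) * ∑ i, loss x i) ≤
      ∑ γ ∈ univ.erase (1 : G), F x γ ^ 2 - ∑ γ ∈ univ.erase (1 : G), T x γ ^ 2 := by
    have h8 := mul_le_mul_of_nonneg_left h6 hn.le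
    linarith
  rw [h1, div_mul_eq_mul_div, one_mul, le_div_iff₀ hn]
  linarith

private theorem en_ct_three {s : ℕ} (hs : s ∈ Ico 1 3) : ct 3 s ^ 2 = 1 / 3 := by
  have h3 : Real.sqrt 3 ^ 2 = 3 := Real.sq_sqrt (by norm_num)
  rw [Finset.mem_Ico] at hs
  have hs' : s = 1 ∨ s = 2 := by omega
  unfold ct
  rcases hs' with rfl | rfl
  · have h : Real.pi * ((1 : ℕ) : ℝ) / ((3 : ℕ) : ℝ) = Real.pi / 3 := by
      push_cast
      ring
    rw [h, Real.cos_pi_div_three, Real.sin_pi_div_three, div_pow, div_pow, div_pow, h3]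
    norm_num
  · have h : Real.pi * ((2 : ℕ) : ℝ) / ((3 : ℕ) : ℝ) = Real.pi - Real.pi / 3 := by
      push_cast
      ring
    rw [h, Real.cos_pi_sub, Real.sin_pi_sub, Real.cos_pi_div_three, Real.sin_pi_div_three,
      div_pow, neg_sq, div_pow, div_pow, h3]
    norm_num

/-- If all the orders are `3`. -/
theorem E_ge_three (x : Fin r → G) (h3 : ∀ i, orderOf (x i) = 3) (hn : 2 ≤ Fintype.card G) :
    8 / 27 * (r : ℝ) ^ 2 * ((Fintype.card G : ℝ) / ((Fintype.card G : ℝ) - 1)) ≤ E x := by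
  classical
  have hn2 : (2 : ℝ) ≤ (Fintype.card G : ℝ) := by exact_mod_cast hn
  have hn0 : (0 : ℝ) < (Fintype.card G : ℝ) := by linarith
  have hn1 : (0 : ℝ) < (Fintype.card G : ℝ) - 1 := by linarith
  have h1 : E x = 1 / (Fintype.card G : ℝ) * (∑ γ ∈ univ.erase (1 : G), F x γ ^ 2 -
      ∑ γ ∈ univ.erase (1 : G), T x γ ^ 2) := by
    unfold E
    rw [Finset.sum_sub_distrib]
  have h2 := sum_F_sq x
  have h4 := sum_T_sq_le x
  have h5 : ∑ i, (Fintype.card G : ℝ) / (orderOf (x i) : ℝ) *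
        ∑ s ∈ Ico 1 (orderOf (x i)), F x (x i ^ s) * ct (orderOf (x i)) s ^ 2 =
      1 / 3 * ∑ i, (Fintype.card G : ℝ) / (orderOf (x i) : ℝ) *
        ∑ s ∈ Ico 1 (orderOf (x i)), F x (x i ^ s) := by
    rw [Finset.mul_sum]
    refine Finset.sum_congr rfl fun i _ => ?_
    have h6 : ∀ s ∈ Ico 1 (orderOf (x i)), F x (x i ^ s) * ct (orderOf (x i)) s ^ 2 =
        1 / 3 * F x (x i ^ s) := by
      intro s hs
      rw [h3 i] at hs ⊢
      rw [en_ct_three hs]
      ring
    rw [Finset.sum_congr rfl h6, ← Finset.mul_sum]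
    ring
  rw [h5, ← h2] at h4
  -- Cauchy-Schwarz
  have h7 : (∑ γ ∈ univ.erase (1 : G), F x γ) ^ 2 ≤
      ((Fintype.card G : ℝ) - 1) * ∑ γ ∈ univ.erase (1 : G), F x γ ^ 2 := by
    have h8 := sq_sum_le_card_mul_sum_sq (s := univ.erase (1 : G)) (f := fun γ => F x γ)
    have h9 : ((univ.erase (1 : G)).card : ℝ) = (Fintype.card G : ℝ) - 1 := by
      rw [Finset.card_erase_of_mem (Finset.mem_univ _), Finset.card_univ, Nat.cast_sub (by omega),
        Nat.cast_one]
    rw [h9] at h8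
    exact h8
  rw [sum_F] at h7
  have h10 : area x + 2 = 2 * (r : ℝ) / 3 := by
    unfold area
    simp only [h3, Finset.sum_const, Finset.card_univ, Fintype.card_fin, nsmul_eq_mul]
    push_cast
    ring
  rw [h10] at h7
  set S := ∑ γ ∈ univ.erase (1 : G), F x γ ^ 2 with hS
  set N := (Fintype.card G : ℝ) with hN
  have h11 : 2 / 3 * S ≤ S - ∑ γ ∈ univ.erase (1 : G), T x γ ^ 2 := by linarith
  have h12 : 8 / 27 * (r : ℝ) ^ 2 * (N / (N - 1)) ≤ 1 / N * (2 / 3 * S) := by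
    have e1 : 8 / 27 * (r : ℝ) ^ 2 * (N / (N - 1)) = (8 / 27 * (r : ℝ) ^ 2 * N) / (N - 1) := by
      ring
    have e2 : 1 / N * (2 / 3 * S) = (2 / 3 * S) / N := by ring
    rw [e1, e2, div_le_div_iff₀ hn1 hn0]
    nlinarith
  rw [h1]
  exact h12.trans (mul_le_mul_of_nonneg_left h11 (by positivity))

end Pool.Agent.CO75
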