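import Pool.Agent.CO75.ChSum

/-!
# Commutative groups and four branch points

PLAN. `numN_eq_card`: for `ψ ≠ 1`, let `w` be the number of `i` with `ψ (x i) ≠ 1`; `w ≥ 2`, as the `x i`
generate and have product `1`. `∑ fr ψ (x i)` is an integer (the product of the `ψ (x i)` is `1`), it is
positive and `∑ fr ψ (x i) + ∑ fr ψ⁻¹ (x i) = w` (`fr_inv`). So `PP ψ + PP ψ⁻¹ = w - 2` with both terms
integers `≥ 0`; the product is `0` for `w ≤ 3`, and for `w = 4` it is `1` if `∑ fr = 2` and `0` otherwise.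
-/

namespace Pool.Agent.CO75

open Finset

variable {G : Type} [CommGroup G] [Fintype G]

open Classical in
/-- The characters in the middle region. -/
noncomputable def mids (x : Fin 4 → G) : Finset (AddChar (Additive G) ℂ) :=
  univ.filter fun ψ => (∀ i, ψ (Additive.ofMul (x i)) ≠ 1) ∧ ∑ i, fr ψ (x i) = 2

private theorem ab_eq_one_of (x : Fin 4 → G) (hx : IsGenVec x) (ψ : AddChar (Additive G) ℂ)
    (h : ∀ i, ψ (Additive.ofMul (x i)) = 1) : ψ = 1 := by
  have key : ∀ y : G, ψ (Additive.ofMul y) = 1 := by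
    intro y
    have hy : y ∈ Subgroup.closure (Set.range x) := by rw [hx.gen]; exact Subgroup.mem_top y
    induction hy using Subgroup.closure_induction with
    | mem z hz => obtain ⟨i, rfl⟩ := hz; exact h i
    | one => exact ψ.map_zero_eq_one
    | mul a b _ _ ha hb => rw [ofMul_mul, AddChar.map_add_eq_mul, ha, hb, mul_one]
    | inv a _ ha => rw [ofMul_inv, AddChar.map_neg_eq_inv, ha, inv_one]
  ext a
  exact key (Additive.toMul a)

private theorem ab_prod_char (x : Fin 4 → G) (hx : IsGenVec x) (ψ : AddChar (Additive G) ℂ) :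
    ∏ i, ψ (Additive.ofMul (x i)) = 1 := by
  have h := hx.prod_eq
  simp only [List.ofFn_succ, List.ofFn_zero, List.prod_cons, List.prod_nil, mul_one] at h
  have h' : x 0 * x 1 * x 2 * x 3 = 1 := by
    rw [← h]
    simp only [mul_assoc]
    rfl
  rw [Fin.prod_univ_four, ← AddChar.map_add_eq_mul, ← AddChar.map_add_eq_mul,
    ← AddChar.map_add_eq_mul, ← ofMul_mul, ← ofMul_mul, ← ofMul_mul, h']
  exact ψ.map_zero_eq_one

private theorem ab_int (x : Fin 4 → G) (hx : IsGenVec x) (ψ : AddChar (Additive G) ℂ) :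
    ∃ a : ℤ, ∑ i, fr ψ (x i) = a := by
  have h := ab_prod_char x hx ψ
  have h2 : ∏ i, ψ (Additive.ofMul (x i)) =
      Complex.exp (∑ i, (-2 * Real.pi * Complex.I * (fr ψ (x i) : ℂ))) := by
    rw [Complex.exp_sum]
    exact Finset.prod_congr rfl fun i _ => fr_spec ψ (x i)
  rw [h2, Complex.exp_eq_one_iff] at h
  obtain ⟨n, hn⟩ := h
  refine ⟨-n, ?_⟩
  rw [← Finset.mul_sum] at hn
  have hpi : (2 * Real.pi * Complex.I : ℂ) ≠ 0 := Complex.two_pi_I_ne_zero
  have h3 : (2 * Real.pi * Complex.I : ℂ) * (∑ i, (fr ψ (x i) : ℂ)) =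
      (2 * Real.pi * Complex.I : ℂ) * (-(n : ℂ)) := by
    linear_combination -hn
  have h4 := mul_left_cancel₀ hpi h3
  have h5 : ((∑ i, fr ψ (x i) : ℝ) : ℂ) = ((-n : ℤ) : ℂ) := by
    push_cast
    exact h4
  exact_mod_cast h5

private theorem ab_pos (x : Fin 4 → G) (hx : IsGenVec x) (ψ : AddChar (Additive G) ℂ) (hψ : ψ ≠ 1) :
    0 < ∑ i, fr ψ (x i) := by
  by_contra hcon
  have h0 : ∑ i, fr ψ (x i) = 0 :=
    le_antisymm (not_lt.1 hcon) (Finset.sum_nonneg fun i _ => fr_nonneg ψ (x i))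
  rw [Finset.sum_eq_zero_iff_of_nonneg fun i _ => fr_nonneg ψ (x i)] at h0
  exact hψ (ab_eq_one_of x hx ψ fun i => (fr_eq_zero_iff ψ (x i)).1 (h0 i (Finset.mem_univ i)))

private theorem ab_inv_apply (ψ : AddChar (Additive G) ℂ) (y : G) (h : ψ (Additive.ofMul y) = 1) :
    ψ⁻¹ (Additive.ofMul y) = 1 := by
  rw [AddChar.inv_apply, AddChar.map_neg_eq_inv, h, inv_one]

private theorem ab_pair (ψ : AddChar (Additive G) ℂ) (y : G) :
    (ψ (Additive.ofMul y) = 1 ∧ fr ψ y + fr ψ⁻¹ y = 0) ∨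
      (ψ (Additive.ofMul y) ≠ 1 ∧ fr ψ y + fr ψ⁻¹ y = 1) := by
  by_cases h : ψ (Additive.ofMul y) = 1
  · left
    refine ⟨h, ?_⟩
    rw [(fr_eq_zero_iff ψ y).2 h, (fr_eq_zero_iff ψ⁻¹ y).2 (ab_inv_apply ψ y h), add_zero]
  · right
    refine ⟨h, ?_⟩
    rw [fr_inv ψ y h]
    ring

open Classical in
private theorem ab_term (x : Fin 4 → G) (hx : IsGenVec x) (ψ : AddChar (Additive G) ℂ) :
    PP x ψ * PP x ψ⁻¹ = if ψ ∈ mids x then 1 else 0 := by
  by_cases hψ : ψ = 1
  · subst hψ
    have h1 : PP x (1 : AddChar (Additive G) ℂ) = 0 := by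
      unfold PP
      rw [if_pos rfl, Finset.sum_eq_zero]
      · ring
      · intro i _
        exact (fr_eq_zero_iff 1 (x i)).2 (AddChar.one_apply _)
    have h2 : (1 : AddChar (Additive G) ℂ) ∉ mids x := by
      intro h
      exact (Finset.mem_filter.1 h).2.1 0 (AddChar.one_apply _)
    rw [h1, zero_mul, if_neg h2]
  · have hψ' : ψ⁻¹ ≠ 1 := fun h => hψ (inv_eq_one.1 h)
    obtain ⟨a, ha⟩ := ab_int x hx ψ
    obtain ⟨b, hb⟩ := ab_int x hx ψ⁻¹
    have hap := ab_pos x hx ψ hψ
    have hbp := ab_pos x hx ψ⁻¹ hψ'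
    have hP : PP x ψ = (a : ℝ) - 1 := by
      unfold PP
      rw [if_neg hψ, ha]
      ring
    have hP' : PP x ψ⁻¹ = (b : ℝ) - 1 := by
      unfold PP
      rw [if_neg hψ', hb]
      ring
    rw [ha] at hap
    rw [hb] at hbp
    have ha1 : 1 ≤ a := by
      have : (0 : ℤ) < a := by exact_mod_cast hap
      omega
    have hb1 : 1 ≤ b := by
      have : (0 : ℤ) < b := by exact_mod_cast hbp
      omega
    have hsum : (a : ℝ) + b = ∑ i, (fr ψ (x i) + fr ψ⁻¹ (x i)) := by
      rw [Finset.sum_add_distrib, ha, hb]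
    have hle : ∀ i, fr ψ (x i) + fr ψ⁻¹ (x i) ≤ 1 := by
      intro i
      rcases ab_pair ψ (x i) with h | h
      · rw [h.2]; norm_num
      · rw [h.2]
    by_cases hall : ∀ i, ψ (Additive.ofMul (x i)) ≠ 1
    · have h4 : (a : ℝ) + b = 4 := by
        rw [hsum, Finset.sum_congr rfl (g := fun _ => (1 : ℝ))]
        · simp
        · intro i _
          rcases ab_pair ψ (x i) with h | h
          · exact absurd h.1 (hall i)
          · exact h.2
      have h4' : a + b = 4 := by exact_mod_cast h4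
      by_cases h2 : a = 2
      · have hb2 : b = 2 := by omega
        have hmem : ψ ∈ mids x := by
          refine Finset.mem_filter.2 ⟨Finset.mem_univ _, hall, ?_⟩
          rw [ha, h2]
          norm_num
        rw [if_pos hmem, hP, hP', h2, hb2]
        norm_num
      · have hmem : ψ ∉ mids x := by
          intro h
          have h5 := (Finset.mem_filter.1 h).2.2
          rw [ha] at h5
          exact h2 (by exact_mod_cast h5)
        rw [if_neg hmem, hP, hP']
        have h6 : a = 1 ∨ b = 1 := by omega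
        rcases h6 with h6 | h6
        · rw [h6]; norm_num
        · rw [h6]; norm_num
    · have hmem : ψ ∉ mids x := by
        intro h
        exact hall (Finset.mem_filter.1 h).2.1
      push Not at hall
      obtain ⟨i0, hi0⟩ := hall
      have h3 : (a : ℝ) + b ≤ 3 := by
        rw [hsum, ← Finset.add_sum_erase _ _ (Finset.mem_univ i0)]
        have h7 : fr ψ (x i0) + fr ψ⁻¹ (x i0) = 0 := by
          rcases ab_pair ψ (x i0) with h | h
          · exact h.2
          · exact absurd hi0 h.1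
        rw [h7, zero_add]
        refine (Finset.sum_le_sum fun i _ => hle i).trans ?_
        simp
      have h3' : a + b ≤ 3 := by exact_mod_cast h3
      rw [if_neg hmem, hP, hP']
      have h6 : a = 1 ∨ b = 1 := by omega
      rcases h6 with h6 | h6
      · rw [h6]; norm_num
      · rw [h6]; norm_num

theorem numN_eq_card (hodd : Odd (Fintype.card G)) (x : Fin 4 → G) (hx : IsGenVec x) :
    numN x = 1 / 2 * ((mids x).card : ℂ) := by
  classical
  rw [numN_char hodd x]
  congr 1
  have h1 : ∀ ψ ∈ (univ : Finset (AddChar (Additive G) ℂ)),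
      (PP x ψ : ℂ) * (PP x ψ⁻¹ : ℂ) = if ψ ∈ mids x then (1 : ℂ) else 0 := by
    intro ψ _
    have h2 := ab_term x hx ψ
    rw [← Complex.ofReal_mul, h2]
    split_ifs <;> simp
  rw [Finset.sum_congr rfl h1, Finset.sum_ite_mem, Finset.univ_inter, Finset.sum_const, nsmul_eq_mul,
    mul_one]

end Pool.Agent.CO75
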