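import Mathlib

/-!
# Numerical inequalities

The left sides are `8 r - 20`; `A = r - 2 - (r - k)/3 - s` is the area, `n` the order of the group.
-/

namespace Pool.Agent.CO75

theorem arith_big {r k : ℕ} (hr : 6 ≤ r) (hk : k ≤ r) {n s : ℝ} (hn : 9 ≤ n) (hs0 : 0 ≤ s)
    (hs : s ≤ (k : ℝ) / 5) :
    8 * (r : ℝ) - 20 < n * (((r : ℝ) - 2 - ((r : ℝ) - k) / 3 - s) ^ 2 -
      (k : ℝ) / 3 * ((k : ℝ) - 5 * s)) := by
  have hr' : (6 : ℝ) ≤ r := by exact_mod_cast hr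
  have hk' : (k : ℝ) ≤ r := by exact_mod_cast hk
  have hk0 : (0 : ℝ) ≤ k := Nat.cast_nonneg k
  generalize (r : ℝ) = R at *
  generalize (k : ℝ) = K at *
  obtain ⟨a, ha⟩ : ∃ a : ℝ, a = 2 * R - 6 := ⟨_, rfl⟩
  have hR : R = (a + 6) / 2 := by linarith
  subst hR
  have ha6 : 6 ≤ a := by linarith
  have hE : (((a + 6) / 2 - 2 - ((a + 6) / 2 - K) / 3 - s) ^ 2 - K / 3 * (K - 5 * s)) =
      (a ^ 2 + 2 * a * K - 2 * K ^ 2) / 9 + s * (3 * K - 2 * a) / 3 + s ^ 2 := by ring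
  rw [hE]
  have key : (4 * a + 4) / 9 < (a ^ 2 + 2 * a * K - 2 * K ^ 2) / 9 + s * (3 * K - 2 * a) / 3 +
      s ^ 2 := by
    have h1 : 4 * a + 4 < a ^ 2 := by nlinarith
    rcases le_total (2 * a) (3 * K) with h | h
    · have h2 : 0 ≤ s * (3 * K - 2 * a) := mul_nonneg hs0 (by linarith)
      have h3 : 2 * K ^ 2 ≤ K * (a + 6) := by nlinarith
      have h4 : 0 ≤ (a - 6) * K := mul_nonneg (by linarith) hk0
      nlinarith [sq_nonneg s]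
    · have h2 : K / 5 * (3 * K - 2 * a) ≤ s * (3 * K - 2 * a) := by
        nlinarith
      have h3 : 0 ≤ K * (4 * a - K) := mul_nonneg hk0 (by nlinarith)
      nlinarith [sq_nonneg s]
  have h0 : 0 < (4 * a + 4) / 9 := by linarith
  have h9 : 8 * ((a + 6) / 2) - 20 = 9 * ((4 * a + 4) / 9) := by ring
  rw [h9]
  calc 9 * ((4 * a + 4) / 9) ≤ n * ((4 * a + 4) / 9) := by nlinarith
    _ < _ := by
      apply mul_lt_mul_of_pos_left key (by linarith)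

theorem arith_five {k : ℕ} (hk1 : 1 ≤ k) (hk : k ≤ 5) {n s : ℝ} (hs : s ≤ (k : ℝ) / 5)
    (hns : (k : ℝ) ≤ n * s) (hn : 11 ≤ n ∨ (n = 9 ∧ s = (k : ℝ) / 9)) :
    20 < n * (((5 : ℝ) - 2 - ((5 : ℝ) - k) / 3 - s) ^ 2 - (k : ℝ) / 3 * ((k : ℝ) - 5 * s)) := by
  have hE : n * (((5 : ℝ) - 2 - ((5 : ℝ) - k) / 3 - s) ^ 2 - (k : ℝ) / 3 * ((k : ℝ) - 5 * s)) =
      n * ((16 + 8 * k - 2 * (k : ℝ) ^ 2) / 9) + n * s * (3 * k - 8) / 3 + n * s * s := by ring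
  rw [hE]
  rcases hn with hn | ⟨rfl, rfl⟩
  · have hs0 : 0 ≤ s := by
      by_contra h
      push Not at h
      have : n * s < 0 := by nlinarith
      have : (0 : ℝ) ≤ k := Nat.cast_nonneg k
      linarith
    interval_cases k
    · norm_num at *
      nlinarith [mul_nonneg (by linarith : (0:ℝ) ≤ n) (sq_nonneg (s - 1/5)),
        mul_nonneg (by linarith : (0:ℝ) ≤ n) hs0]
    · norm_num at *
      nlinarith [mul_nonneg (by linarith : (0:ℝ) ≤ n) (sq_nonneg (s - 1/3)),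
        mul_nonneg (by linarith : (0:ℝ) ≤ n) hs0]
    · norm_num at *
      nlinarith [mul_nonneg (by linarith : (0:ℝ) ≤ n) (sq_nonneg (s)),
        mul_nonneg (by linarith : (0:ℝ) ≤ n) hs0]
    · norm_num at *
      nlinarith [mul_nonneg (by linarith : (0:ℝ) ≤ n) (sq_nonneg (s)),
        mul_nonneg (by linarith : (0:ℝ) ≤ n) hs0]
    · norm_num at *
      nlinarith [mul_nonneg (by linarith : (0:ℝ) ≤ n) (sq_nonneg (s - 5/11)),
        mul_nonneg (by linarith : (0:ℝ) ≤ n) hs0]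
  · interval_cases k <;> norm_num

theorem arith_four_one {n s : ℝ} (hn : 21 ≤ n) (hs : s ≤ 1 / 5) (hns : 3 ≤ n * s) :
    12 < n * (((4 : ℝ) - 2 - ((4 : ℝ) - 1) / 3 - s) ^ 2 - (1 : ℝ) / 3 * ((1 : ℝ) - 5 * s)) := by
  nlinarith [mul_nonneg (by linarith : (0:ℝ) ≤ n) (sq_nonneg (s - 1/6))]

theorem arith_four {k : ℕ} (hk2 : 2 ≤ k) (hk : k ≤ 4) {n s : ℝ} (hn : 21 ≤ n)
    (hs : s ≤ (k : ℝ) / 5) (hns : 3 * (k : ℝ) ≤ n * s) :
    12 < n * (((4 : ℝ) - 2 - ((4 : ℝ) - k) / 3 - s) ^ 2 -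
      ((2 + ((k : ℝ) - 2) / 9) * ((k : ℝ) - 5 * s) + 8 / 9 * ((k : ℝ) - 2)) / 3) := by
  have hn0 : (0 : ℝ) ≤ n := by linarith
  interval_cases k
  · norm_num at *
    have h : n * ((2 - 2 / 3 - s) ^ 2 - 2 * (2 - 5 * s) / 3) =
      4 / 9 * n + 2 / 3 * (n * s) + n * s ^ 2 := by ring
    have h2 : 0 ≤ n * s ^ 2 := by positivity
    nlinarith
  · norm_num at *
    have h2 : 0 ≤ n * (s - 3 / 7) ^ 2 := by positivity
    nlinarith
  · norm_num at *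
    have h2 : 0 ≤ n * (s - 4 / 7) ^ 2 := by positivity
    nlinarith

/-- All orders equal to `3`. -/
theorem arith_three {r : ℕ} (hr : 4 ≤ r) {n : ℝ}
    (h : (21 ≤ n) ∨ (5 ≤ r ∧ 9 ≤ n) ∨ (7 ≤ r ∧ n = 3)) :
    8 * (r : ℝ) - 20 < n * ((r : ℝ) - 2 - (r : ℝ) / 3) ^ 2 + 8 / 27 * (r : ℝ) ^ 2 * (n / (n - 1)) := by
  have hr' : (4 : ℝ) ≤ r := by exact_mod_cast hr
  have key : ∀ n : ℝ, 1 < n → 8 / 27 * (r : ℝ) ^ 2 ≤ 8 / 27 * (r : ℝ) ^ 2 * (n / (n - 1)) := by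
    intro n hn
    have : 1 ≤ n / (n - 1) := by
      rw [one_le_div (by linarith)]
      linarith
    have h0 : 0 ≤ 8 / 27 * (r : ℝ) ^ 2 := by positivity
    nlinarith
  rcases h with h | ⟨h5, h⟩ | ⟨h7, rfl⟩
  · have := key n (by linarith)
    have h1 : 21 * ((r : ℝ) - 2 - (r : ℝ) / 3) ^ 2 ≤ n * ((r : ℝ) - 2 - (r : ℝ) / 3) ^ 2 :=
      mul_le_mul_of_nonneg_right h (sq_nonneg _)
    nlinarith
  · have hr5 : (5 : ℝ) ≤ r := by exact_mod_cast h5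
    have := key n (by linarith)
    have h1 : 9 * ((r : ℝ) - 2 - (r : ℝ) / 3) ^ 2 ≤ n * ((r : ℝ) - 2 - (r : ℝ) / 3) ^ 2 :=
      mul_le_mul_of_nonneg_right h (sq_nonneg _)
    nlinarith
  · have hr7 : (7 : ℝ) ≤ r := by exact_mod_cast h7
    have : (3 : ℝ) / (3 - 1) = 3 / 2 := by norm_num
    rw [this]
    nlinarith

theorem arith_n_five {r : ℕ} (hr : 6 ≤ r) :
    8 * (r : ℝ) - 20 < 5 * ((r : ℝ) - 2 - (r : ℝ) / 5) ^ 2 := by
  have hr' : (6 : ℝ) ≤ r := by exact_mod_cast hr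
  nlinarith

theorem arith_n_seven {r : ℕ} (hr : 5 ≤ r) :
    8 * (r : ℝ) - 20 < 7 * ((r : ℝ) - 2 - (r : ℝ) / 7) ^ 2 - 4 * (r : ℝ) ^ 2 / 7 := by
  have hr' : (5 : ℝ) ≤ r := by exact_mod_cast hr
  nlinarith

end Pool.Agent.CO75
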