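import Pool.Agent.CO75.Fun

/-!
# Groups of odd order that are not commutative

PLAN. `card_ge`: a group of prime order is cyclic; order `9` is `p²`
(`IsPGroup` lemmas in Mathlib: `isMulCommutative_of_card_eq_prime_sq`), order `15`: the Sylow
`5`-subgroup is normal (its number divides `3` and is `1` mod `5`), likewise the Sylow `3`-subgroup, so
the group is nilpotent with cyclic Sylow subgroups (or: elements of the two normal subgroups
commute). `three_mul_order_le`: `⟨y⟩ ≠ ⊤` as `G` is not cyclic, the index is odd and not `1`.
`central_unique`: if two of the four `x i` are central, then the product relation shows that the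
other two commute (say `x 0 * x 1 * x 2 * x 3 = 1` with `x i, x j` central: each of the other two is
the inverse of the other up to a central element), so all generators commute.
-/

namespace Pool.Agent.CO75

variable {G : Type} [Group G] [Fintype G]

omit [Fintype G] in
private theorem small_comm_of_cyclic [IsCyclic G] (a b : G) : a * b = b * a := by
  obtain ⟨g, hg⟩ := IsCyclic.exists_generator (α := G)
  obtain ⟨m, rfl⟩ := Subgroup.mem_zpowers_iff.mp (hg a)
  obtain ⟨n, rfl⟩ := Subgroup.mem_zpowers_iff.mp (hg b)
  rw [← zpow_add, ← zpow_add, add_comm]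

private theorem small_card_15 (h : Nat.card G = 15) (a b : G) : a * b = b * a := by
  have hz : IsZGroup G := by
    refine IsZGroup.of_squarefree ?_
    rw [h]
    decide +kernel
  have hn : Group.IsNilpotent G := by
    refine ((Group.isNilpotent_of_finite_tfae (G := G)).out 0 3).mpr ?_
    intro p hp P
    have hcard : Nat.card (Sylow p G) ≡ 1 [MOD p] := card_sylow_modEq_one p G
    have hdvd : Nat.card (Sylow p G) ∣ 15 := by
      rw [← h]
      exact P.card_dvd_index.trans (Subgroup.index_dvd_card _)
    by_cases hp15 : p ∣ 15
    · have h1 : Nat.card (Sylow p G) = 1 := by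
        have hp35 : p = 3 ∨ p = 5 := by
          have h2 : p ∣ 3 * 5 := hp15
          rcases (Nat.Prime.dvd_mul hp.out).mp h2 with h3 | h3
          · exact Or.inl ((Nat.prime_dvd_prime_iff_eq hp.out (by norm_num)).mp h3)
          · exact Or.inr ((Nat.prime_dvd_prime_iff_eq hp.out (by norm_num)).mp h3)
        have hmem : Nat.card (Sylow p G) ∈ Nat.divisors 15 := by
          rw [Nat.mem_divisors]
          exact ⟨hdvd, by norm_num⟩
        have h15 : Nat.divisors 15 = {1, 3, 5, 15} := by decide +kernel
        rw [h15] at hmem
        simp only [Finset.mem_insert, Finset.mem_singleton] at hmem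
        unfold Nat.ModEq at hcard
        rcases hp35 with rfl | rfl <;> rcases hmem with h4 | h4 | h4 | h4 <;> rw [h4] at hcard <;>
          first
            | exact h4
            | (exfalso; revert hcard; norm_num)
      have hs : Subsingleton (Sylow p G) := (Nat.card_eq_one_iff_unique.mp h1).1
      exact Sylow.normal_of_subsingleton P
    · have h1 : Nat.card (P : Subgroup G) = 1 := by
        rw [Sylow.card_eq_multiplicity, h, Nat.factorization_eq_zero_of_not_dvd hp15, pow_zero]
      have h2 : (P : Subgroup G) = ⊥ := Subgroup.eq_bot_of_card_eq _ h1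
      have h3 : (P : Subgroup G).Normal := by
        rw [h2]
        infer_instance
      exact h3
  have hc : IsCyclic G := inferInstance
  exact small_comm_of_cyclic a b

theorem card_ge (hodd : Odd (Fintype.card G)) (hna : ¬ ∀ a b : G, a * b = b * a) :
    21 ≤ Fintype.card G := by
  by_contra hlt
  apply hna
  intro a b
  have hc : Nat.card G = Fintype.card G := Nat.card_eq_fintype_card
  have hpos : 0 < Fintype.card G := Fintype.card_pos
  have hprime : ∀ q : ℕ, q.Prime → Nat.card G = q → a * b = b * a := by
    intro q hq h
    have hf : Fact q.Prime := ⟨hq⟩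
    have hcy : IsCyclic G := isCyclic_of_prime_card h
    exact small_comm_of_cyclic a b
  obtain ⟨m, hm⟩ := hodd
  rw [← hc] at hm hlt hpos
  have hm10 : m ≤ 9 := by omega
  interval_cases m
  · have h1 : Nat.card G = 1 := hm
    have hs : Subsingleton G := (Nat.card_eq_one_iff_unique.mp h1).1
    exact Subsingleton.elim _ _
  · exact hprime 3 (by norm_num) hm
  · exact hprime 5 (by norm_num) hm
  · exact hprime 7 (by norm_num) hm
  · have hf : Fact (Nat.Prime 3) := ⟨by norm_num⟩
    have h9 : Nat.card G = 3 ^ 2 := hm
    have := IsPGroup.isMulCommutative_of_card_eq_prime_sq h9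
    exact this.is_comm.comm a b
  · exact hprime 11 (by norm_num) hm
  · exact hprime 13 (by norm_num) hm
  · exact small_card_15 hm a b
  · exact hprime 17 (by norm_num) hm
  · exact hprime 19 (by norm_num) hm

theorem three_mul_order_le (hodd : Odd (Fintype.card G)) (hna : ¬ ∀ a b : G, a * b = b * a)
    (y : G) : 3 * orderOf y ≤ Fintype.card G := by
  obtain ⟨m, hm⟩ := orderOf_dvd_card (x := y)
  have hpos : 0 < Fintype.card G := Fintype.card_pos
  have hm0 : m ≠ 0 := by
    rintro rfl
    omega
  have hm1 : m ≠ 1 := by
    rintro rfl
    apply hna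
    intro a b
    have hcy : IsCyclic G := isCyclic_of_orderOf_eq_card y (by
      rw [Nat.card_eq_fintype_card, hm, mul_one])
    exact small_comm_of_cyclic a b
  have hmo : Odd m := by
    rw [hm] at hodd
    exact (Nat.odd_mul.mp hodd).2
  have hm2 : m ≠ 2 := by
    rintro rfl
    exact absurd hmo (by decide)
  have hm3 : 3 ≤ m := by omega
  rw [hm, mul_comm]
  exact Nat.mul_le_mul_left _ hm3

omit [Fintype G] in
private theorem small_all_comm (x : Fin 4 → G) (hx : IsGenVec x)
    (hc : ∀ k l, x k * x l = x l * x k) (a b : G) : a * b = b * a := by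
  have h1 : ∀ k, x k ∈ Subgroup.centralizer (Set.range x) := by
    intro k
    rw [Subgroup.mem_centralizer_iff]
    rintro _ ⟨l, rfl⟩
    exact hc l k
  have h2 : Subgroup.centralizer (Set.range x) = Subgroup.center G := by
    rw [← Subgroup.centralizer_closure, hx.gen]
    exact Subgroup.centralizer_univ
  have h3 : (⊤ : Subgroup G) ≤ Subgroup.center G := by
    rw [← hx.gen, Subgroup.closure_le]
    rintro _ ⟨k, rfl⟩
    rw [← h2]
    exact h1 k
  exact (Subgroup.mem_center_iff.mp (h3 (Subgroup.mem_top b)) a)

theorem central_unique (x : Fin 4 → G) (hx : IsGenVec x) (hna : ¬ ∀ a b : G, a * b = b * a) :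
    ∀ i j, x i ∈ Subgroup.center G → x j ∈ Subgroup.center G → i = j := by
  intro i j hi hj
  by_contra hij
  apply hna
  have h4 : x 0 * (x 1 * (x 2 * x 3)) = 1 := by
    have h := hx.prod_eq
    simpa [List.ofFn_succ, Fin.succ] using h
  have hq : ((x 0 : G ⧸ Subgroup.center G)) * ((x 1 : G ⧸ Subgroup.center G) *
      ((x 2 : G ⧸ Subgroup.center G) * (x 3 : G ⧸ Subgroup.center G))) = 1 := by
    have h5 := congrArg (QuotientGroup.mk (s := Subgroup.center G)) h4
    exact h5
  have hi' : ∀ g, g * x i = x i * g := Subgroup.mem_center_iff.mp hi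
  have hj' : ∀ g, g * x j = x j * g := Subgroup.mem_center_iff.mp hj
  have hiQ : (x i : G ⧸ Subgroup.center G) = 1 := (QuotientGroup.eq_one_iff _).mpr hi
  have hjQ : (x j : G ⧸ Subgroup.center G) = 1 := (QuotientGroup.eq_one_iff _).mpr hj
  have comm_of : ∀ p q : G, (p : G ⧸ Subgroup.center G) * (q : G ⧸ Subgroup.center G) = 1 →
      p * q = q * p := by
    intro p q h
    have h1 : ((p * q : G) : G ⧸ Subgroup.center G) = 1 := h
    have h2 := Subgroup.mem_center_iff.mp ((QuotientGroup.eq_one_iff _).mp h1) p
    rw [mul_assoc] at h2
    exact mul_left_cancel h2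
  refine small_all_comm x hx ?_
  have key : ∀ i : Fin 4, i = 0 ∨ i = 1 ∨ i = 2 ∨ i = 3 := by decide
  intro k l
  rcases key i with rfl | rfl | rfl | rfl <;> rcases key j with rfl | rfl | rfl | rfl <;>
    first
      | exact absurd rfl hij
      | (rw [hiQ, hjQ] at hq
         simp only [one_mul, mul_one] at hq
         rcases key k with rfl | rfl | rfl | rfl <;> rcases key l with rfl | rfl | rfl | rfl <;>
           first
             | rfl
             | exact hi' _
             | exact hj' _
             | exact (hi' _).symm
             | exact (hj' _).symm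
             | exact comm_of _ _ hq
             | exact (comm_of _ _ hq).symm)

end Pool.Agent.CO75
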