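import Pool.Agent.CO75.LossFour
import Pool.Agent.CO75.Small
import Pool.Agent.CO75.Arith

/-!
# The criterion fails except in small cases and for four points on commutative groups

PLAN. `8 N = n area² - 4 + E` (`eight_numN`), so `N > r - 3` iff `n area² + E > 8 r - 20`; and
`E ≥ -∑ loss` (`E_ge`). All orders are odd divisors of `n`, `≥ 3`.
* All orders `3` (`kk x = 0`): `E_ge_three` and `arith_three`; here `3 ∣ n`; if `n = 3` then `r ≥ 7`; else
  `n ≥ 9`; if `r = 4` then `G` is not commutative, so `n ≥ 21`.
* `kk x ≥ 1`, `r ≥ 5`: `n = 3` impossible; `n = 5` (`loss_five`, `arith_n_five`), `n = 7` (`loss_seven`,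
  `arith_n_seven`), else `n ≥ 9`: `sum_loss_le`, `area_eq`, and `arith_big` or `arith_five`
  (`n * s ≥ kk` since the orders divide `n`; for `n = 9` the orders `≥ 5` are `9`).
* `r = 4`, not commutative: `n ≥ 21`, `3 n i ≤ n`; `kk = 1`: `sum_loss_le` and `arith_four_one`; `kk ≥ 2`:
  `sum_loss_le_four`, `central_unique`, `arith_four`.
-/

namespace Pool.Agent.CO75

open Finset

variable {G : Type} [Group G] [Fintype G] {r : ℕ}

omit [Fintype G] in
private theorem m1_ss_nonneg (x : Fin r → G) : 0 ≤ ss x :=
  Finset.sum_nonneg fun _ _ => by positivity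

/-- If `c` times every order is at most `n`, then `c * kk ≤ n * ss`. -/
private theorem m1_mul_ss (x : Fin r → G) (c : ℕ)
    (h : ∀ i, c * orderOf (x i) ≤ Fintype.card G) :
    (c : ℝ) * (kk x : ℝ) ≤ (Fintype.card G : ℝ) * ss x := by
  unfold kk ss
  rw [Finset.mul_sum, mul_comm, ← nsmul_eq_mul, ← Finset.sum_const]
  refine Finset.sum_le_sum fun i hi => ?_
  have h5 : 5 ≤ orderOf (x i) := (Finset.mem_filter.1 hi).2
  have hpos : (0 : ℝ) < (orderOf (x i) : ℝ) := by
    have : 0 < orderOf (x i) := by omega
    exact_mod_cast this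
  rw [mul_one_div, le_div_iff₀ hpos]
  exact_mod_cast h i

omit [Fintype G] in
private theorem m1_area_const (x : Fin r → G) (m : ℕ) (h : ∀ i, orderOf (x i) = m) :
    area x = (r : ℝ) - 2 - (r : ℝ) / (m : ℝ) := by
  unfold area
  simp only [h, Finset.sum_const, Finset.card_univ, Fintype.card_fin, nsmul_eq_mul]
  ring

theorem numN_gt (hodd : Odd (Fintype.card G)) (x : Fin r → G) (hx : IsGenVec x) (hr : 4 ≤ r)
    (h4 : ¬ (r = 4 ∧ ∀ a b : G, a * b = b * a)) (h3 : ¬ (Fintype.card G = 3 ∧ r ≤ 6))
    (h5 : ¬ (Fintype.card G = 5 ∧ r ≤ 5)) : (r : ℝ) - 3 < (numN x).re := by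
  have h8 := eight_numN hodd x
  have hE := E_ge hodd x
  suffices hmain : 8 * (r : ℝ) - 20 < (Fintype.card G : ℝ) * area x ^ 2 + E x by linarith
  have h1 : ∀ i, x i ≠ 1 := hx.ne_one
  have ho : ∀ i, orderOf (x i) = 3 ∨ 5 ≤ orderOf (x i) := fun i => order_cases hodd (h1 i)
  have hd : ∀ i, orderOf (x i) ∣ Fintype.card G := fun i => orderOf_dvd_card
  have hcpos : 0 < Fintype.card G := Fintype.card_pos
  rcases Nat.eq_zero_or_pos (kk x) with hk | hk
  · -- all the orders are `3`
    have hall : ∀ i, orderOf (x i) = 3 := by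
      intro i
      rcases ho i with h | h
      · exact h
      · exfalso
        unfold kk at hk
        rw [Finset.card_eq_zero] at hk
        have : i ∈ univ.filter fun i => 5 ≤ orderOf (x i) := by simp [h]
        rw [hk] at this
        simp at this
    have h3d : 3 ∣ Fintype.card G := by
      have := hd ⟨0, by omega⟩
      rwa [hall] at this
    have hge : (21 ≤ Fintype.card G) ∨ (5 ≤ r ∧ 9 ≤ Fintype.card G) ∨
        (7 ≤ r ∧ Fintype.card G = 3) := by
      by_cases hr4 : r = 4
      · left
        exact card_ge hodd fun h => h4 ⟨hr4, h⟩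
      · right
        by_cases hc3 : Fintype.card G = 3
        · right
          refine ⟨?_, hc3⟩
          by_contra hlt
          exact h3 ⟨hc3, by omega⟩
        · left
          refine ⟨by omega, ?_⟩
          obtain ⟨k, hk'⟩ := h3d
          obtain ⟨l, hl⟩ := hodd
          omega
    have hEt := E_ge_three x hall (by rcases hge with h | ⟨_, h⟩ | ⟨_, h⟩ <;> omega)
    have hA := m1_area_const x 3 hall
    have hn : (21 ≤ (Fintype.card G : ℝ)) ∨ (5 ≤ r ∧ 9 ≤ (Fintype.card G : ℝ)) ∨
        (7 ≤ r ∧ (Fintype.card G : ℝ) = 3) := by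
      rcases hge with h | ⟨h', h⟩ | ⟨h', h⟩
      · left; exact_mod_cast h
      · right; left; exact ⟨h', by exact_mod_cast h⟩
      · right; right; exact ⟨h', by exact_mod_cast h⟩
    have := arith_three hr hn
    rw [hA]
    push_cast
    linarith
  -- some order is at least `5`
  obtain ⟨i0, hi0⟩ : ∃ i, 5 ≤ orderOf (x i) := by
    unfold kk at hk
    obtain ⟨i, hi⟩ := Finset.card_pos.1 hk
    exact ⟨i, (Finset.mem_filter.1 hi).2⟩
  have hc5 : 5 ≤ Fintype.card G := hi0.trans (Nat.le_of_dvd hcpos (hd i0))
  have hkr : kk x ≤ r := kk_le x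
  have hs5 : ss x ≤ (kk x : ℝ) / 5 := ss_le x
  have hs0 : 0 ≤ ss x := m1_ss_nonneg x
  have hA := area_eq hodd x h1
  have hL := sum_loss_le hodd x h1
  by_cases hr4 : r = 4
  · -- four branch points, the group is not commutative
    subst hr4
    have hna : ¬ ∀ a b : G, a * b = b * a := fun h => h4 ⟨rfl, h⟩
    have hc := card_ge hodd hna
    have hc' : (21 : ℝ) ≤ (Fintype.card G : ℝ) := by exact_mod_cast hc
    have hms := m1_mul_ss x 3 fun i => three_mul_order_le hodd hna (x i)
    by_cases hk1 : kk x = 1
    · have ha := arith_four_one (n := (Fintype.card G : ℝ)) (s := ss x) hc'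
        (by rw [hk1] at hs5; simpa using hs5) (by rw [hk1] at hms; simpa using hms)
      rw [hk1] at hA hL
      rw [hA]
      push_cast at hL ha ⊢
      nlinarith [ha, hL, hE]
    · have hk2 : 2 ≤ kk x := by omega
      have ha := arith_four (n := (Fintype.card G : ℝ)) (s := ss x) hk2 hkr hc' hs5
        (by simpa using hms)
      have hL4 := sum_loss_le_four hodd x hx (central_unique x hx hna) hk2
      rw [hA]
      push_cast at ha ⊢
      nlinarith [ha, hL4, hE]
  have hr5 : 5 ≤ r := by omega
  by_cases hc5' : Fintype.card G = 5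
  · have hr6 : 6 ≤ r := by
      by_contra hlt
      exact h5 ⟨hc5', by omega⟩
    have hall : ∀ i, orderOf (x i) = 5 := by
      intro i
      have h := hd i
      rw [hc5'] at h
      rcases (Nat.dvd_prime Nat.prime_five).1 h with h' | h'
      · exact absurd (orderOf_eq_one_iff.1 h') (h1 i)
      · exact h'
    have hA5 := m1_area_const x 5 hall
    have hl : ∑ i, loss x i = 0 := Finset.sum_eq_zero fun i _ => loss_five hc5' x i (h1 i)
    have ha := arith_n_five hr6
    rw [hA5, hc5']
    rw [hl] at hE
    push_cast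
    linarith
  by_cases hc7 : Fintype.card G = 7
  · have hall : ∀ i, orderOf (x i) = 7 := by
      intro i
      have h := hd i
      rw [hc7] at h
      rcases (Nat.dvd_prime (by norm_num)).1 h with h' | h'
      · exact absurd (orderOf_eq_one_iff.1 h') (h1 i)
      · exact h'
    have hA7 := m1_area_const x 7 hall
    have hl : ∑ i, loss x i ≤ (r : ℝ) * (4 * (r : ℝ) / 7) := by
      have := Finset.sum_le_sum fun (i : Fin r) (_ : i ∈ univ) => loss_seven hc7 x i (h1 i)
      simpa using this
    have ha := arith_n_seven hr5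
    rw [hA7, hc7]
    push_cast
    nlinarith [ha, hl, hE]
  have hc9 : 9 ≤ Fintype.card G := by
    obtain ⟨l, hl⟩ := hodd
    omega
  have hc9' : (9 : ℝ) ≤ (Fintype.card G : ℝ) := by exact_mod_cast hc9
  by_cases hr6 : 6 ≤ r
  · have ha := arith_big (n := (Fintype.card G : ℝ)) (s := ss x) hr6 hkr hc9' hs0 hs5
    rw [hA]
    nlinarith [ha, hL, hE]
  · have hr5' : r = 5 := by omega
    subst hr5'
    have hms := m1_mul_ss x 1 fun i => by
      rw [one_mul]; exact Nat.le_of_dvd hcpos (hd i)
    have hn : 11 ≤ (Fintype.card G : ℝ) ∨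
        ((Fintype.card G : ℝ) = 9 ∧ ss x = (kk x : ℝ) / 9) := by
      by_cases hc : Fintype.card G = 9
      · right
        refine ⟨by exact_mod_cast hc, ?_⟩
        unfold ss kk
        rw [Finset.sum_congr rfl (g := fun _ => (1 : ℝ) / 9)]
        · rw [Finset.sum_const, nsmul_eq_mul]; ring
        · intro i hi
          have h5i : 5 ≤ orderOf (x i) := (Finset.mem_filter.1 hi).2
          have hdi := hd i
          rw [hc] at hdi
          have h9 : orderOf (x i) = 9 := by
            have hle := Nat.le_of_dvd (by norm_num) hdi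
            interval_cases h : orderOf (x i) <;> revert hdi <;> decide
          rw [h9]; norm_num
      · left
        have : 11 ≤ Fintype.card G := by
          obtain ⟨l, hl⟩ := hodd
          omega
        exact_mod_cast this
    have ha := arith_five (k := kk x) (n := (Fintype.card G : ℝ)) (s := ss x) hk hkr hs5
      (by simpa using hms) hn
    rw [hA]
    push_cast
    nlinarith [ha, hL, hE]

end Pool.Agent.CO75
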