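import Pool.Agent.CO75.Full
import Pool.Agent.CO75.Main1

/-!
# Commutative groups of odd order and four branch points: the genus is at most seven

PLAN. Let `numN x = 1`, so `mids x` has exactly two elements (`numN_eq_card`). Call `ψ` full if
`ψ (x i) ≠ 1` for all `i`. For a full `ψ` of order `m`, the tuple `a` of `exists_tuple` has
`cnt m a = #(mids x ∩ ⟨ψ⟩) ≤ 2`, so `m < 11` (`cnt_ge_three`), `m ∈ {3, 5, 7, 9}` and, by `cnt_small`,
`mids x ⊆ ⟨ψ⟩`. Fix `v ∈ mids x` of order `m₀` (it is full). Claim: every full `ψ` is in `⟨v⟩`. As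
`v ∈ ⟨ψ⟩`, `m₀` divides the order of `ψ`; if the orders are equal, `⟨ψ⟩ = ⟨v⟩`; otherwise `m₀ = 3` and `ψ` has
order `9`, but then `v = ψ^k` with `3 k ≠ 0` (`cnt_nine`), a contradiction.
Let `n = |G|` be the number of characters, `V i = {ψ : ψ (x i) = 1}` (a subgroup); the `v^j`,
`0 ≤ j < m i` are in different cosets of `V i`, where `m i` is the order of `v (x i)`, so
`#(V i) ≤ n / m i`. The characters are the full ones (at most the powers of `v` that are full) and
the union of the `V i`, which all contain `1`, so `n ≤ f + ∑ n / m i - 3`, `f` = number of full powers of `v`.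
* `m₀ = 5`: `f ≤ 4`, `m i = 5`, so `n ≤ 5`; `m₀ = 7`: `f ≤ 6`, `n ≤ 7`.
* `m₀ = 9`: by `cnt_nine` three of the `m i` are `9` and one is `3`; `f ≤ 6` (the units), `n ≤ 9`; then
  `⟨v⟩` is the whole group of characters and the `x i` with `v (x i)^3 = 1` has order `3`.
* `m₀ = 3`: for any `ψ`, if one of `ψ, ψ v, ψ v⁻¹` is full then it is in `⟨v⟩`, and so is `ψ`. Otherwise
  there are `i, j, l` (different) with `ψ (x i) = 1`, `ψ (x j) = v (x j)⁻¹`, `ψ (x l) = v (x l)`, so three of
  the values `ψ (x i)` have cube `1`, hence so does the fourth, and `ψ³ = 1`. So `ψ³ = 1` for all `ψ`, all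
  `x i` have order `3`; `n ≥ 17` would give `numN > 1` by `eight_numN`, `E_ge_three`; so `n ≤ 15`.
In all the cases `genus x ≤ 7` (`genus_eq`).
-/

namespace Pool.Agent.CO75

open Finset

variable {G : Type} [CommGroup G] [Fintype G]

/-- Evaluation of characters. -/
private noncomputable def ev (y : G) : AddChar (Additive G) ℂ →* ℂˣ :=
  MonoidHom.toHomUnits
    { toFun := fun ψ => ψ (Additive.ofMul y)
      map_one' := rfl
      map_mul' := fun _ _ => rfl }

private theorem ev_coe (y : G) (ψ : AddChar (Additive G) ℂ) :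
    ((ev y ψ : ℂˣ) : ℂ) = ψ (Additive.ofMul y) := rfl

private theorem ev_eq_one (y : G) (ψ : AddChar (Additive G) ℂ) :
    ev y ψ = 1 ↔ ψ (Additive.ofMul y) = 1 := by
  rw [← ev_coe, Units.val_eq_one]

private theorem card_add : Fintype.card (Additive G) = Fintype.card G :=
  Fintype.card_congr Additive.toMul

private theorem card_ker_mul_le (y : G) (v : AddChar (Additive G) ℂ) :
    Nat.card (ev y).ker * orderOf (ev y v) ≤ Fintype.card G := by
  have h1 : Nat.card (ev y).ker * (ev y).ker.index = Fintype.card G := by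
    rw [Subgroup.card_mul_index, Nat.card_eq_fintype_card, AddChar.card_eq, card_add]
  rw [← h1]
  refine Nat.mul_le_mul_left _ ?_
  rw [Subgroup.index_ker]
  have hmem : ev y v ∈ (ev y).range := ⟨v, rfl⟩
  haveI : Finite (ev y).range := inferInstance
  have h2 : orderOf (⟨ev y v, hmem⟩ : (ev y).range) ≤ Nat.card (ev y).range :=
    Nat.le_of_dvd Nat.card_pos (orderOf_dvd_natCard _)
  rwa [Subgroup.orderOf_mk] at h2

open Classical in
/-- The union bound. -/
private theorem card_le_sum (x : Fin 4 → G) (S : Finset (AddChar (Additive G) ℂ))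
    (hS : ∀ ψ : AddChar (Additive G) ℂ, (∀ i, ψ (Additive.ofMul (x i)) ≠ 1) → ψ ∈ S) :
    Fintype.card G + 3 ≤ S.card + ∑ i, Nat.card (ev (x i)).ker := by
  have key : (univ : Finset (AddChar (Additive G) ℂ)) ⊆
      S ∪ ({1} ∪ univ.biUnion fun i : Fin 4 =>
        (univ.filter fun ψ => ψ ∈ (ev (x i)).ker).erase 1) := by
    intro ψ _
    by_cases hf : ∀ i, ψ (Additive.ofMul (x i)) ≠ 1
    · exact mem_union_left _ (hS ψ hf)
    · push Not at hf
      obtain ⟨i, hi⟩ := hf
      refine mem_union_right _ ?_
      by_cases h1 : ψ = 1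
      · exact mem_union_left _ (by simp [h1])
      · refine mem_union_right _ (mem_biUnion.2 ⟨i, mem_univ _, ?_⟩)
        rw [mem_erase, mem_filter]
        exact ⟨h1, mem_univ _, (ev_eq_one _ _).2 hi⟩
  have hc : (univ : Finset (AddChar (Additive G) ℂ)).card = Fintype.card G := by
    rw [card_univ, AddChar.card_eq, card_add]
  have h1 := (card_le_card key).trans (card_union_le _ _)
  have h2 := card_union_le ({1} : Finset (AddChar (Additive G) ℂ))
    (univ.biUnion fun i : Fin 4 => (univ.filter fun ψ => ψ ∈ (ev (x i)).ker).erase 1)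
  have h3 : (univ.biUnion fun i : Fin 4 =>
      (univ.filter fun ψ => ψ ∈ (ev (x i)).ker).erase 1).card ≤
      ∑ i : Fin 4, ((univ.filter fun ψ => ψ ∈ (ev (x i)).ker).erase 1).card := card_biUnion_le
  have h4 : ∀ i : Fin 4, ((univ.filter fun ψ => ψ ∈ (ev (x i)).ker).erase 1).card + 1 =
      Nat.card (ev (x i)).ker := by
    intro i
    rw [card_erase_add_one (by simp [one_mem]), Nat.card_eq_fintype_card]
    exact (Fintype.card_of_subtype _ (fun ψ => by simp)).symm
  have h5 : ∑ i : Fin 4, ((univ.filter fun ψ => ψ ∈ (ev (x i)).ker).erase 1).card + 4 =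
      ∑ i, Nat.card (ev (x i)).ker := by
    rw [← Finset.sum_congr rfl (fun i _ => h4 i), sum_add_distrib]
    simp
  rw [card_singleton] at h2
  omega

/-- A character that is trivial on the generators is trivial. -/
private theorem eq_one_of (x : Fin 4 → G) (hx : IsGenVec x) (ψ : AddChar (Additive G) ℂ)
    (h : ∀ i, ψ (Additive.ofMul (x i)) = 1) : ψ = 1 := by
  have key : ∀ y : G, ψ (Additive.ofMul y) = 1 := by
    intro y
    have hy : y ∈ Subgroup.closure (Set.range x) := by rw [hx.gen]; exact Subgroup.mem_top y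
    induction hy using Subgroup.closure_induction with
    | mem z hz => obtain ⟨i, rfl⟩ := hz; exact h i
    | one => exact ψ.map_zero_eq_one
    | mul a b _ _ ha hb => rw [ofMul_mul, AddChar.map_add_eq_mul, ha, hb, mul_one]
    | inv a _ ha => rw [ofMul_inv, AddChar.map_neg_eq_inv, ha, inv_one]
  ext a
  exact key (Additive.toMul a)

private theorem prod_char (x : Fin 4 → G) (hx : IsGenVec x) (ψ : AddChar (Additive G) ℂ) :
    ψ (Additive.ofMul (x 0)) * ψ (Additive.ofMul (x 1)) * ψ (Additive.ofMul (x 2)) *
      ψ (Additive.ofMul (x 3)) = 1 := by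
  have h := hx.prod_eq
  simp only [List.ofFn_succ, List.ofFn_zero, List.prod_cons, List.prod_nil, mul_one] at h
  have h' : x 0 * x 1 * x 2 * x 3 = 1 := by
    rw [← h]
    simp only [mul_assoc]
    rfl
  rw [← AddChar.map_add_eq_mul, ← AddChar.map_add_eq_mul, ← AddChar.map_add_eq_mul, ← ofMul_mul,
    ← ofMul_mul, ← ofMul_mul, h']
  exact ψ.map_zero_eq_one

private theorem fourth (x : Fin 4 → G) (hx : IsGenVec x) (ψ : AddChar (Additive G) ℂ)
    {i j l : Fin 4} (hij : i ≠ j) (hil : i ≠ l) (hjl : j ≠ l)
    (hi : ψ (Additive.ofMul (x i)) = 1) (hj : ψ (Additive.ofMul (x j)) = 1)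
    (hl : ψ (Additive.ofMul (x l)) = 1) : ψ = 1 := by
  apply eq_one_of x hx
  have hp := prod_char x hx ψ
  have hp' : ∏ k, ψ (Additive.ofMul (x k)) = 1 := by
    rw [Fin.prod_univ_four]; exact hp
  intro k
  by_cases hki : k = i
  · rw [hki, hi]
  by_cases hkj : k = j
  · rw [hkj, hj]
  by_cases hkl : k = l
  · rw [hkl, hl]
  rw [Finset.prod_eq_single k] at hp'
  · exact hp'
  · intro b _ hb
    have : b = i ∨ b = j ∨ b = l := by
      revert hij hil hjl hki hkj hkl hb
      clear hi hj hl hp hp'
      revert i j l k b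
      decide
    rcases this with rfl | rfl | rfl
    · exact hi
    · exact hj
    · exact hl
  · intro h; exact absurd (mem_univ _) h

private theorem genus_small (x : Fin 4 → G) (h : Fintype.card G ≤ 8) : genus x ≤ 7 := by
  rw [genus_eq, area]
  have hn : (Fintype.card G : ℝ) ≤ 8 := by exact_mod_cast h
  have hpos : (0 : ℝ) < Fintype.card G := by exact_mod_cast Fintype.card_pos
  have h1 : (4 : ℝ) / Fintype.card G ≤ ∑ i, 1 / (orderOf (x i) : ℝ) := by
    have : ∀ i ∈ (univ : Finset (Fin 4)), (1 : ℝ) / Fintype.card G ≤ 1 / (orderOf (x i) : ℝ) := by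
      intro i _
      apply one_div_le_one_div_of_le
      · exact_mod_cast orderOf_pos (x i)
      · exact_mod_cast orderOf_le_card_univ
    calc (4 : ℝ) / Fintype.card G = ∑ _i : Fin 4, (1 : ℝ) / Fintype.card G := by
          simp; ring
      _ ≤ _ := sum_le_sum this
  have h2 : (Fintype.card G : ℝ) / 2 * ((4 : ℕ) - 2 - ∑ i, 1 / (orderOf (x i) : ℝ)) ≤
      (Fintype.card G : ℝ) / 2 * (2 - 4 / Fintype.card G) := by
    apply mul_le_mul_of_nonneg_left _ (by positivity)
    push_cast
    linarith
  have h3 : (Fintype.card G : ℝ) / 2 * (2 - 4 / Fintype.card G) = Fintype.card G - 2 := by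
    field_simp
    ring
  linarith

theorem ab_genus_le (hodd : Odd (Fintype.card G)) (x : Fin 4 → G) (hx : IsGenVec x)
    (hN : numN x = 1) : genus x ≤ 7 := by
  classical
  obtain ⟨v, hv, hord, hfull⟩ := full_mem hodd x hx hN
  have hvf : ∀ i, v (Additive.ofMul (x i)) ≠ 1 := (mem_filter.1 hv).2.1
  set m := orderOf v with hm
  have hvm : v ^ m = 1 := pow_orderOf_eq_one v
  -- full characters
  let S : Finset (AddChar (Additive G) ℂ) :=
    (univ.filter fun ψ => ψ ∈ Subgroup.zpowers v).erase 1
  have hS : ∀ ψ : AddChar (Additive G) ℂ, (∀ i, ψ (Additive.ofMul (x i)) ≠ 1) → ψ ∈ S := by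
    intro ψ hψ
    rw [mem_erase, mem_filter]
    refine ⟨?_, mem_univ _, hfull ψ hψ⟩
    rintro rfl
    exact hψ 0 rfl
  have hScard : S.card + 1 = m := by
    rw [card_erase_add_one (by simp [one_mem])]
    have := Fintype.card_of_subtype (univ.filter fun ψ => ψ ∈ Subgroup.zpowers v)
      (p := fun ψ => ψ ∈ Subgroup.zpowers v) (fun ψ => by simp)
    rw [← this, ← Nat.card_eq_fintype_card]
    exact Nat.card_zpowers v
  have hevm : ∀ i, (ev (x i) v) ^ m = 1 := by
    intro i
    rw [← map_pow, hvm, map_one]
  have hev1 : ∀ i, ev (x i) v ≠ 1 := fun i h => hvf i ((ev_eq_one _ _).1 h)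
  rcases hord with h3 | h5 | h7 | ⟨h9, hc9⟩
  · -- order three
    have hcube : ∀ ψ : AddChar (Additive G) ℂ, ψ ^ 3 = 1 := by
      have hz : ∀ ψ ∈ Subgroup.zpowers v, ψ ^ 3 = 1 := by
        rintro ψ ⟨k, rfl⟩
        change (v ^ k) ^ 3 = 1
        rw [← zpow_natCast, ← zpow_mul, mul_comm, zpow_mul, zpow_natCast, ← h3, hvm, one_zpow]
      intro ψ
      by_cases f1 : ∀ i, ψ (Additive.ofMul (x i)) ≠ 1
      · exact hz _ (hfull ψ f1)
      by_cases f2 : ∀ i, (ψ * v) (Additive.ofMul (x i)) ≠ 1
      · have := hfull _ f2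
        exact hz _ ((Subgroup.mul_mem_cancel_right _ (Subgroup.mem_zpowers v)).1 this)
      by_cases f3 : ∀ i, (ψ * v⁻¹) (Additive.ofMul (x i)) ≠ 1
      · have := hfull _ f3
        exact hz _ ((Subgroup.mul_mem_cancel_right _
          (Subgroup.inv_mem _ (Subgroup.mem_zpowers v))).1 this)
      push Not at f1 f2 f3
      obtain ⟨i, hi⟩ := f1
      obtain ⟨j, hj⟩ := f2
      obtain ⟨l, hl⟩ := f3
      rw [AddChar.mul_apply] at hj hl
      rw [AddChar.inv_apply'] at hl
      have hv3 : ∀ k, v (Additive.ofMul (x k)) ^ 3 = 1 := by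
        intro k
        rw [← AddChar.pow_apply, ← h3, hvm]
        rfl
      have hv0 : ∀ k, v (Additive.ofMul (x k)) ≠ 0 := by
        intro k h0
        have := hv3 k
        rw [h0] at this
        norm_num at this
      have hl' : ψ (Additive.ofMul (x l)) = v (Additive.ofMul (x l)) := by
        have h' := congrArg (· * v (Additive.ofMul (x l))) hl
        simpa [mul_assoc, inv_mul_cancel₀ (hv0 l)] using h'
      have hij : i ≠ j := by
        rintro rfl
        rw [hi, one_mul] at hj
        exact hvf _ hj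
      have hil : i ≠ l := by
        rintro rfl
        rw [hi] at hl'
        exact hvf _ hl'.symm
      have hjl : j ≠ l := by
        rintro rfl
        rw [hl'] at hj
        have h3' := hv3 j
        rw [pow_succ, pow_two, hj, one_mul] at h3'
        exact hvf _ h3'
      apply fourth x hx (ψ ^ 3) hij hil hjl
      · rw [AddChar.pow_apply, hi, one_pow]
      · rw [AddChar.pow_apply]
        have := congrArg (· ^ 3) hj
        simpa [mul_pow, hv3 j] using this
      · rw [AddChar.pow_apply, hl', hv3]
    have hx3 : ∀ i, orderOf (x i) = 3 := by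
      intro i
      have h1 : x i ^ 3 = 1 := by
        have : Additive.ofMul (x i ^ 3) = 0 := by
          rw [← AddChar.forall_apply_eq_zero]
          intro ψ
          rw [ofMul_pow, AddChar.map_nsmul_eq_pow, ← AddChar.pow_apply, hcube ψ]
          rfl
        exact this
      exact orderOf_eq_prime h1 (hx.ne_one i)
    by_cases hn : Fintype.card G ≤ 18
    · have hn' : (Fintype.card G : ℝ) ≤ 18 := by exact_mod_cast hn
      rw [genus_eq, area]
      simp only [hx3, sum_const, card_univ, Fintype.card_fin, nsmul_eq_mul]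
      push_cast
      linarith
    · exfalso
      have hn' : (19 : ℝ) ≤ Fintype.card G := by exact_mod_cast (by omega : 19 ≤ Fintype.card G)
      have hE := E_ge_three x hx3 (by omega)
      have h8 := eight_numN hodd x
      rw [hN] at h8
      have ha : area x = 2 / 3 := by
        rw [area]
        simp only [hx3, sum_const, card_univ, Fintype.card_fin, nsmul_eq_mul]
        norm_num
      rw [ha] at h8
      have hq : (1 : ℝ) ≤ (Fintype.card G : ℝ) / ((Fintype.card G : ℝ) - 1) := by
        rw [le_div_iff₀ (by linarith)]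
        linarith
      have hE' : 8 / 27 * (4 : ℝ) ^ 2 ≤ E x := by
        refine le_trans ?_ hE
        push_cast
        nlinarith
      simp at h8
      nlinarith
  · -- order five
    haveI : Fact (Nat.Prime 5) := ⟨by norm_num⟩
    apply genus_small
    have h := card_le_sum x S hS
    have hk : ∀ i, Nat.card (ev (x i)).ker * 5 ≤ Fintype.card G := by
      intro i
      have := card_ker_mul_le (x i) v
      rwa [orderOf_eq_prime (p := 5) (by rw [← h5]; exact hevm i) (hev1 i)] at this
    have hsum : (∑ i, Nat.card (ev (x i)).ker) * 5 ≤ 4 * Fintype.card G := by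
      rw [sum_mul]
      calc ∑ i : Fin 4, Nat.card (ev (x i)).ker * 5 ≤ ∑ _i : Fin 4, Fintype.card G :=
            sum_le_sum fun i _ => hk i
        _ = 4 * Fintype.card G := by simp
    omega
  · haveI : Fact (Nat.Prime 7) := ⟨by norm_num⟩
    apply genus_small
    have h := card_le_sum x S hS
    have hk : ∀ i, Nat.card (ev (x i)).ker * 7 ≤ Fintype.card G := by
      intro i
      have := card_ker_mul_le (x i) v
      rwa [orderOf_eq_prime (p := 7) (by rw [← h7]; exact hevm i) (hev1 i)] at this
    have hsum : (∑ i, Nat.card (ev (x i)).ker) * 7 ≤ 4 * Fintype.card G := by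
      rw [sum_mul]
      calc ∑ i : Fin 4, Nat.card (ev (x i)).ker * 7 ≤ ∑ _i : Fin 4, Fintype.card G :=
            sum_le_sum fun i _ => hk i
        _ = 4 * Fintype.card G := by simp
    omega
  · -- order nine
    obtain ⟨j, hj⟩ := card_eq_one.1 hc9
    have hj3 : (v ^ 3) (Additive.ofMul (x j)) = 1 := by
      have : j ∈ univ.filter fun i => (v ^ 3) (Additive.ofMul (x i)) = 1 := by rw [hj]; simp
      exact (mem_filter.1 this).2
    have hi3 : ∀ i, i ≠ j → (v ^ 3) (Additive.ofMul (x i)) ≠ 1 := by
      intro i hij h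
      have : i ∈ univ.filter fun i => (v ^ 3) (Additive.ofMul (x i)) = 1 :=
        mem_filter.2 ⟨mem_univ _, h⟩
      rw [hj, mem_singleton] at this
      exact hij this
    have ho3 : orderOf (ev (x j) v) = 3 := by
      apply orderOf_eq_prime _ (hev1 j)
      rw [← map_pow]
      exact (ev_eq_one _ _).2 hj3
    have ho9 : ∀ i, i ≠ j → orderOf (ev (x i) v) = 9 := by
      intro i hij
      have := orderOf_eq_prime_pow (x := ev (x i) v) (p := 3) (n := 1) (by
        rw [pow_one, ← map_pow]
        exact fun h => hi3 i hij ((ev_eq_one _ _).1 h)) (by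
        norm_num
        rw [← h9]
        exact hevm i)
      rw [this]
      norm_num
    let S' : Finset (AddChar (Additive G) ℂ) := (S.erase (v ^ 3)).erase (v ^ 6)
    have hv3 : v ^ 3 ∈ S := by
      rw [mem_erase, mem_filter]
      refine ⟨?_, mem_univ _, Subgroup.npow_mem_zpowers v 3⟩
      intro h
      have := orderOf_dvd_of_pow_eq_one h
      rw [← hm, h9] at this
      norm_num at this
    have hv6 : v ^ 6 ∈ S.erase (v ^ 3) := by
      rw [mem_erase, mem_erase, mem_filter]
      refine ⟨?_, ?_, mem_univ _, Subgroup.npow_mem_zpowers v 6⟩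
      · intro h
        have h' : v ^ 3 = 1 := by
          have : v ^ 3 * v ^ 3 = v ^ 3 := by rw [← pow_add]; exact h
          exact mul_eq_left.1 this
        have := orderOf_dvd_of_pow_eq_one h'
        rw [← hm, h9] at this
        norm_num at this
      · intro h
        have := orderOf_dvd_of_pow_eq_one h
        rw [← hm, h9] at this
        norm_num at this
    have hS'card : S'.card + 2 = S.card := by
      have e1 := card_erase_add_one hv6
      have e2 := card_erase_add_one hv3
      change ((S.erase (v ^ 3)).erase (v ^ 6)).card + 2 = S.card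
      omega
    have hS' : ∀ ψ : AddChar (Additive G) ℂ, (∀ i, ψ (Additive.ofMul (x i)) ≠ 1) → ψ ∈ S' := by
      intro ψ hψ
      change ψ ∈ (S.erase (v ^ 3)).erase (v ^ 6)
      rw [mem_erase, mem_erase]
      refine ⟨?_, ?_, hS ψ hψ⟩
      · rintro rfl
        apply hψ j
        have : (v ^ 6) (Additive.ofMul (x j)) = ((v ^ 3) (Additive.ofMul (x j))) ^ 2 := by
          rw [AddChar.pow_apply, AddChar.pow_apply, ← pow_mul]
        rw [this, hj3, one_pow]
      · rintro rfl
        exact hψ j hj3
    have h := card_le_sum x S' hS'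
    have hsum : (∑ i, Nat.card (ev (x i)).ker) * 9 ≤ 6 * Fintype.card G := by
      rw [← add_sum_erase _ _ (mem_univ j), add_mul, sum_mul]
      have e1 : Nat.card (ev (x j)).ker * 9 ≤ 3 * Fintype.card G := by
        have := card_ker_mul_le (x j) v
        rw [ho3] at this
        omega
      have e2 : ∑ i ∈ univ.erase j, Nat.card (ev (x i)).ker * 9 ≤
          ∑ _i ∈ univ.erase j, Fintype.card G := by
        refine sum_le_sum fun i hi => ?_
        have := card_ker_mul_le (x i) v
        rwa [ho9 i (ne_of_mem_erase hi)] at this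
      have e3 : ∑ _i ∈ univ.erase j, Fintype.card G = 3 * Fintype.card G := by
        rw [sum_const, card_erase_of_mem (mem_univ _)]
        simp
      omega
    have hn9 : Fintype.card G ≤ 9 := by omega
    by_cases h8 : Fintype.card G ≤ 8
    · exact genus_small x h8
    have hn : Fintype.card G = 9 := by omega
    have hall : ∀ ψ : AddChar (Additive G) ℂ, ψ ∈ Subgroup.zpowers v := by
      have htop : Subgroup.zpowers v = ⊤ := by
        apply Subgroup.eq_top_of_card_eq
        rw [Nat.card_zpowers, ← hm, h9, Nat.card_eq_fintype_card, AddChar.card_eq, card_add]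
        exact hn.symm
      intro ψ
      rw [htop]
      exact Subgroup.mem_top ψ
    have hxj : x j ^ 3 = 1 := by
      have : Additive.ofMul (x j ^ 3) = 0 := by
        rw [← AddChar.forall_apply_eq_zero]
        intro ψ
        obtain ⟨k, rfl⟩ := hall ψ
        rw [ofMul_pow, AddChar.map_nsmul_eq_pow]
        change (v ^ k) (Additive.ofMul (x j)) ^ 3 = 1
        rw [AddChar.zpow_apply, ← zpow_natCast, ← zpow_mul, mul_comm, zpow_mul, zpow_natCast,
          ← AddChar.pow_apply, hj3, one_zpow]
      exact this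
    have hoj : orderOf (x j) = 3 := orderOf_eq_prime hxj (hx.ne_one j)
    have hge : (1 : ℝ) / 3 + 3 * (1 / 9) ≤ ∑ i, 1 / (orderOf (x i) : ℝ) := by
      rw [← add_sum_erase _ _ (mem_univ j), hoj]
      have : ∑ _i ∈ univ.erase j, (1 : ℝ) / 9 ≤ ∑ i ∈ univ.erase j, 1 / (orderOf (x i) : ℝ) := by
        refine sum_le_sum fun i _ => ?_
        apply one_div_le_one_div_of_le
        · exact_mod_cast orderOf_pos (x i)
        · have : orderOf (x i) ≤ Fintype.card G := orderOf_le_card_univ
          rw [hn] at this
          exact_mod_cast this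
      rw [sum_const, card_erase_of_mem (mem_univ _)] at this
      simp only [card_univ, Fintype.card_fin, nsmul_eq_mul] at this
      push_cast at this ⊢
      linarith
    rw [genus_eq, area, hn]
    push_cast
    linarith

end Pool.Agent.CO75
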