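import Pool.Agent.CO75.Formula

/-!
# Second moments of `F` and `T`

PLAN. `F` is a class function. `sum_F_sq`: `∑_{γ ≠ 1} F(γ) F(γ) = ∑_{γ ≠ 1} F(γ) ∑_i (1/n i) #{(g, s) :
1 ≤ s < n i, γ = g (x i)^s g⁻¹}`, exchange the sums, `F (g (x i)^s g⁻¹) = F ((x i)^s)`, sum over `g`.
`sum_T_sq_le`: for `γ ≠ 1`, Cauchy-Schwarz for the sum over the triples `(i, g, s)` with
`γ = g (x i)^s g⁻¹` and the weights `1 / n i` (the sum of the weights is `F(γ)`):
`T(γ)² ≤ F(γ) ∑_i (1/n i) ∑_{(g,s)} ct (n i) s ^ 2`; then exchange the sums as above.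
-/

namespace Pool.Agent.CO75

open Finset

variable {G : Type} [Group G] [Fintype G] {r : ℕ}

open Classical in
private lemma cs_single (y γ g : G) (hγ : γ ≠ 1) :
    (∑ s ∈ Ico 1 (orderOf y), if γ = g * y ^ s * g⁻¹ then (1 : ℝ) else 0)
      = if g⁻¹ * γ * g ∈ Subgroup.zpowers y then 1 else 0 := by
  have hiff : ∀ s : ℕ, γ = g * y ^ s * g⁻¹ ↔ y ^ s = g⁻¹ * γ * g := by
    intro s
    constructor
    · intro h
      rw [h]; group
    · intro h
      rw [h]; group
  have hpos : 0 < orderOf y := orderOf_pos y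
  split_ifs with h
  · obtain ⟨k, hk⟩ := (mem_powers_iff_mem_zpowers.mpr h : g⁻¹ * γ * g ∈ Submonoid.powers y)
    have hk' : y ^ (k % orderOf y) = g⁻¹ * γ * g := by
      rw [pow_mod_orderOf]; exact hk
    have hlt : k % orderOf y < orderOf y := Nat.mod_lt _ hpos
    have hne : k % orderOf y ≠ 0 := by
      intro h0
      rw [h0, pow_zero] at hk'
      apply hγ
      have : γ = g * (g⁻¹ * γ * g) * g⁻¹ := by group
      rw [this, ← hk']
      group
    rw [Finset.sum_eq_single (k % orderOf y)]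
    · rw [if_pos ((hiff _).mpr hk')]
    · intro b hb hbne
      rw [if_neg]
      intro hcon
      apply hbne
      have h2 := (hiff b).mp hcon
      rw [← hk'] at h2
      exact pow_injOn_Iio_orderOf (Finset.mem_Ico.mp hb).2 hlt h2
    · intro hnot
      exact absurd (Finset.mem_Ico.mpr ⟨Nat.one_le_iff_ne_zero.mpr hne, hlt⟩) hnot
  · refine Finset.sum_eq_zero fun s _ => ?_
    rw [if_neg]
    intro hcon
    apply h
    rw [← (hiff s).mp hcon]
    exact Subgroup.npow_mem_zpowers y s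

open Classical in
private lemma cs_F (x : Fin r → G) (γ : G) (hγ : γ ≠ 1) :
    F x γ = ∑ i, (1 / (orderOf (x i) : ℝ)) * ∑ g : G, ∑ s ∈ Ico 1 (orderOf (x i)),
      if γ = g * x i ^ s * g⁻¹ then (1 : ℝ) else 0 := by
  unfold F
  refine Finset.sum_congr rfl fun i _ => ?_
  have h : (Phi (x i) γ : ℝ) = ∑ g : G, ∑ s ∈ Ico 1 (orderOf (x i)),
      if γ = g * x i ^ s * g⁻¹ then (1 : ℝ) else 0 := by
    unfold Phi
    rw [Finset.card_filter]
    push_cast
    refine Finset.sum_congr rfl fun g _ => ?_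
    exact (cs_single (x i) γ g hγ).symm
  rw [h]
  ring

open Classical in
private lemma cs_Phi_conj (y γ h : G) : Phi y (h * γ * h⁻¹) = Phi y γ := by
  unfold Phi
  refine Finset.card_bij (fun g _ => h⁻¹ * g) ?_ ?_ ?_
  · intro g hg
    rw [Finset.mem_filter] at hg ⊢
    refine ⟨Finset.mem_univ _, ?_⟩
    have e : (h⁻¹ * g)⁻¹ * γ * (h⁻¹ * g) = g⁻¹ * (h * γ * h⁻¹) * g := by group
    rw [e]
    exact hg.2
  · intro a _ b _ hab
    exact mul_left_cancel hab
  · intro b hb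
    rw [Finset.mem_filter] at hb
    refine ⟨h * b, ?_, by group⟩
    rw [Finset.mem_filter]
    refine ⟨Finset.mem_univ _, ?_⟩
    have e : (h * b)⁻¹ * (h * γ * h⁻¹) * (h * b) = b⁻¹ * γ * b := by group
    rw [e]
    exact hb.2

private lemma cs_F_conj (x : Fin r → G) (γ h : G) : F x (h * γ * h⁻¹) = F x γ := by
  unfold F
  simp only [cs_Phi_conj]

open Classical in
private lemma cs_exchange (x : Fin r → G) (c : Fin r → ℕ → ℝ) :
    ∑ γ ∈ univ.erase (1 : G), F x γ * (∑ i, (1 / (orderOf (x i) : ℝ)) * ∑ g : G,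
        ∑ s ∈ Ico 1 (orderOf (x i)), if γ = g * x i ^ s * g⁻¹ then c i s else 0)
      = ∑ i, (Fintype.card G : ℝ) / (orderOf (x i) : ℝ) *
        ∑ s ∈ Ico 1 (orderOf (x i)), F x (x i ^ s) * c i s := by
  have e1 : ∀ γ ∈ univ.erase (1 : G), F x γ * (∑ i, (1 / (orderOf (x i) : ℝ)) * ∑ g : G,
        ∑ s ∈ Ico 1 (orderOf (x i)), if γ = g * x i ^ s * g⁻¹ then c i s else 0)
      = ∑ i, (1 / (orderOf (x i) : ℝ)) * ∑ g : G, ∑ s ∈ Ico 1 (orderOf (x i)),
          if γ = g * x i ^ s * g⁻¹ then F x γ * c i s else 0 := by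
    intro γ _
    rw [Finset.mul_sum]
    refine Finset.sum_congr rfl fun i _ => ?_
    rw [mul_left_comm, Finset.mul_sum]
    congr 1
    refine Finset.sum_congr rfl fun g _ => ?_
    rw [Finset.mul_sum]
    refine Finset.sum_congr rfl fun s _ => ?_
    rw [mul_ite, mul_zero]
  rw [Finset.sum_congr rfl e1, Finset.sum_comm]
  refine Finset.sum_congr rfl fun i _ => ?_
  rw [← Finset.mul_sum, Finset.sum_comm]
  have e2 : ∀ g ∈ (univ : Finset G), (∑ γ ∈ univ.erase (1 : G), ∑ s ∈ Ico 1 (orderOf (x i)),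
      if γ = g * x i ^ s * g⁻¹ then F x γ * c i s else 0)
      = ∑ s ∈ Ico 1 (orderOf (x i)), F x (x i ^ s) * c i s := by
    intro g _
    rw [Finset.sum_comm]
    refine Finset.sum_congr rfl fun s hs => ?_
    rw [Finset.sum_ite_eq' (univ.erase (1 : G)) (g * x i ^ s * g⁻¹) (fun γ => F x γ * c i s)]
    rw [if_pos, cs_F_conj]
    rw [Finset.mem_erase]
    refine ⟨?_, Finset.mem_univ _⟩
    intro h
    have h2 : x i ^ s = 1 := by
      have h3 : x i ^ s = g⁻¹ * (g * x i ^ s * g⁻¹) * g := by group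
      rw [h3, h]
      group
    have h4 := Finset.mem_Ico.mp hs
    exact absurd (Nat.le_of_dvd (by omega) (orderOf_dvd_of_pow_eq_one h2)) (by omega)
  rw [Finset.sum_congr rfl e2, Finset.sum_const, Finset.card_univ, nsmul_eq_mul]
  ring

open Classical in
private lemma cs_triple (x : Fin r → G) (f : Fin r → G → ℕ → ℝ) :
    ∑ i, ∑ g : G, ∑ s ∈ Ico 1 (orderOf (x i)), f i g s
      = ∑ p ∈ (univ : Finset (Fin r)).sigma
          (fun i => (univ : Finset G) ×ˢ Ico 1 (orderOf (x i))), f p.1 p.2.1 p.2.2 := by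
  rw [Finset.sum_sigma]
  refine Finset.sum_congr rfl fun i _ => ?_
  rw [Finset.sum_product]

open Classical in
private lemma cs_T_sq (x : Fin r → G) (γ : G) (hγ : γ ≠ 1) :
    T x γ ^ 2 ≤ F x γ * (∑ i, (1 / (orderOf (x i) : ℝ)) * ∑ g : G,
        ∑ s ∈ Ico 1 (orderOf (x i)),
          if γ = g * x i ^ s * g⁻¹ then ct (orderOf (x i)) s ^ 2 else 0) := by
  have hflat : ∀ c : Fin r → ℕ → ℝ, (∑ i, (1 / (orderOf (x i) : ℝ)) * ∑ g : G,
        ∑ s ∈ Ico 1 (orderOf (x i)), if γ = g * x i ^ s * g⁻¹ then c i s else 0)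
      = ∑ p ∈ (univ : Finset (Fin r)).sigma
          (fun i => (univ : Finset G) ×ˢ Ico 1 (orderOf (x i))), 1 / (orderOf (x p.1) : ℝ) *
          if γ = p.2.1 * x p.1 ^ p.2.2 * p.2.1⁻¹ then c p.1 p.2.2 else 0 := by
    intro c
    rw [← cs_triple x (fun i g s => 1 / (orderOf (x i) : ℝ) *
      if γ = g * x i ^ s * g⁻¹ then c i s else 0)]
    simp only [Finset.mul_sum]
  rw [cs_F x γ hγ, hflat (fun _ _ => 1), hflat (fun i s => ct (orderOf (x i)) s ^ 2)]
  unfold T
  rw [hflat (fun i s => ct (orderOf (x i)) s)]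
  refine Finset.sum_sq_le_sum_mul_sum_of_sq_eq_mul _ ?_ ?_ ?_
  · intro p _
    split_ifs <;> positivity
  · intro p _
    split_ifs <;> positivity
  · intro p _
    split_ifs
    · ring
    · ring

open Classical in
theorem sum_F_sq (x : Fin r → G) :
    ∑ γ ∈ univ.erase (1 : G), F x γ ^ 2 =
      ∑ i, (Fintype.card G : ℝ) / (orderOf (x i) : ℝ) *
        ∑ s ∈ Ico 1 (orderOf (x i)), F x (x i ^ s) := by
  have h := cs_exchange x (fun _ _ => 1)
  simp only [mul_one] at h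
  rw [← h]
  refine Finset.sum_congr rfl fun γ hγ => ?_
  rw [pow_two]
  congr 1
  exact cs_F x γ (Finset.ne_of_mem_erase hγ)

open Classical in
theorem sum_T_sq_le (x : Fin r → G) :
    ∑ γ ∈ univ.erase (1 : G), T x γ ^ 2 ≤
      ∑ i, (Fintype.card G : ℝ) / (orderOf (x i) : ℝ) *
        ∑ s ∈ Ico 1 (orderOf (x i)), F x (x i ^ s) * ct (orderOf (x i)) s ^ 2 := by
  rw [← cs_exchange x (fun i s => ct (orderOf (x i)) s ^ 2)]
  exact Finset.sum_le_sum fun γ hγ => cs_T_sq x γ (Finset.ne_of_mem_erase hγ)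

end Pool.Agent.CO75
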