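import Pool.Agent.CO75.Formula

/-!
# Commutative groups: the multiplicities of the characters

PLAN. `fr ψ y ∈ [0, 1)` with `ψ y = exp (-2 π i fr ψ y)`. Note that `ψ y` has absolute value `1`.
-/

namespace Pool.Agent.CO75

open Finset

variable {G : Type} [CommGroup G] [Fintype G] {r : ℕ}

/-- The number `t ∈ [0, 1)` with `ψ y = exp (-2 π i t)`. -/
noncomputable def fr (ψ : AddChar (Additive G) ℂ) (y : G) : ℝ :=
  Int.fract (-(Complex.arg (ψ (Additive.ofMul y))) / (2 * Real.pi))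

open Classical in
/-- The multiplicity of a character. -/
noncomputable def PP (x : Fin r → G) (ψ : AddChar (Additive G) ℂ) : ℝ :=
  (if ψ = 1 then 1 else 0) - 1 + ∑ i, fr ψ (x i)

theorem fr_nonneg (ψ : AddChar (Additive G) ℂ) (y : G) : 0 ≤ fr ψ y := Int.fract_nonneg _

theorem fr_lt_one (ψ : AddChar (Additive G) ℂ) (y : G) : fr ψ y < 1 := Int.fract_lt_one _

theorem fr_spec (ψ : AddChar (Additive G) ℂ) (y : G) :
    ψ (Additive.ofMul y) = Complex.exp (-2 * Real.pi * Complex.I * (fr ψ y : ℂ)) := by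
  obtain ⟨a, ha⟩ : ∃ a : ℝ, a = Complex.arg (ψ (Additive.ofMul y)) := ⟨_, rfl⟩
  have hn : ‖ψ (Additive.ofMul y)‖ = 1 := AddChar.norm_apply ψ _
  have h1 : ψ (Additive.ofMul y) = Complex.exp (a * Complex.I) := by
    have := Complex.norm_mul_exp_arg_mul_I (ψ (Additive.ofMul y))
    rw [hn, Complex.ofReal_one, one_mul] at this
    rw [ha]
    exact this.symm
  have hpi : (Real.pi : ℂ) ≠ 0 := by exact_mod_cast Real.pi_ne_zero
  have h2 : (fr ψ y : ℂ) = -(a : ℂ) / (2 * Real.pi) - (⌊-a / (2 * Real.pi)⌋ : ℤ) := by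
    unfold fr
    rw [← ha, Int.fract]
    push_cast
    ring
  rw [h1, h2, Complex.exp_eq_exp_iff_exists_int]
  refine ⟨-⌊-a / (2 * Real.pi)⌋, ?_⟩
  push_cast
  field_simp
  ring

theorem fr_eq_zero_iff (ψ : AddChar (Additive G) ℂ) (y : G) :
    fr ψ y = 0 ↔ ψ (Additive.ofMul y) = 1 := by
  constructor
  · intro h
    rw [fr_spec, h]
    simp
  · intro h
    unfold fr
    rw [h]
    simp

theorem fr_inv (ψ : AddChar (Additive G) ℂ) (y : G) (h : ψ (Additive.ofMul y) ≠ 1) :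
    fr ψ⁻¹ y = 1 - fr ψ y := by
  have h0 := fr_nonneg ψ y
  have h0' : fr ψ y ≠ 0 := fun h' => h ((fr_eq_zero_iff ψ y).1 h')
  have h1 := fr_lt_one ψ y
  have g0 := fr_nonneg ψ⁻¹ y
  have g1 := fr_lt_one ψ⁻¹ y
  have hmul : ψ (Additive.ofMul y) * ψ⁻¹ (Additive.ofMul y) = 1 := by
    have h3 : (ψ * ψ⁻¹) (Additive.ofMul y) = 1 := by
      rw [mul_inv_cancel]
      rfl
    exact h3
  rw [fr_spec ψ y, fr_spec ψ⁻¹ y, ← Complex.exp_add, Complex.exp_eq_one_iff] at hmul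
  obtain ⟨n, hn⟩ := hmul
  have hpi : (Real.pi : ℂ) ≠ 0 := by exact_mod_cast Real.pi_ne_zero
  have hI := Complex.I_ne_zero
  have h2 : (fr ψ y : ℂ) + (fr ψ⁻¹ y : ℂ) = ((-n : ℤ) : ℂ) := by
    have e : (2 * Real.pi * Complex.I) * ((fr ψ y : ℂ) + (fr ψ⁻¹ y : ℂ)) =
        (2 * Real.pi * Complex.I) * ((-n : ℤ) : ℂ) := by
      push_cast
      linear_combination -hn
    exact mul_left_cancel₀ (by simp [hpi, hI]) e
  have h3 : fr ψ y + fr ψ⁻¹ y = ((-n : ℤ) : ℝ) := by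
    have h4 : ((fr ψ y + fr ψ⁻¹ y : ℝ) : ℂ) = (((-n : ℤ) : ℝ) : ℂ) := by
      push_cast at h2 ⊢
      exact h2
    exact_mod_cast h4
  have hpos : 0 < fr ψ y := lt_of_le_of_ne h0 (Ne.symm h0')
  have k1 : (0 : ℝ) < ((-n : ℤ) : ℝ) := by
    rw [← h3]
    linarith
  have k2 : (((-n : ℤ)) : ℝ) < 2 := by
    rw [← h3]
    linarith
  have k1' : (0 : ℤ) < -n := by exact_mod_cast k1
  have k2' : (-n : ℤ) < 2 := by exact_mod_cast k2
  have k3 : (-n : ℤ) = 1 := by omega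
  rw [k3] at h3
  push_cast at h3
  linarith

end Pool.Agent.CO75
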