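import Pool.Agent.CO75.Ch

/-!
# Commutative groups: the trace formula in terms of characters

PLAN. `eichler_char`: for `0 < s < N`, `ζ = exp (2πi/N)`,
`ζ^s / (1 - ζ^s) = 1 / (ζ^(-s) - 1) = (1/N) ∑_{j<N} j ζ^(-js)`. With `N = orderOf (x i)`, `n = |G|`, the
restriction of characters to `⟨x i⟩` is `n / N` to one onto the characters `x i ↦ ζ^(-j)`, `j < N`
(or: `∑_ψ fr ψ y ψ γ`, use the orthogonality relations), so `∑_ψ fr ψ (x i) ψ γ` is `0` if `γ ∉ ⟨x i⟩`, and
`(n/N) ∑_{j<N} (j/N) ζ^(-js)` if `γ = (x i)^s`. Also `∑_ψ ψ γ = 0` for `γ ≠ 1`, and `n` for `γ = 1`.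
`numN_char`: orthogonality, `∑_γ eichler (γ²) = ∑_γ eichler γ = n PP x 1 = 0` as `n` is odd.
-/

namespace Pool.Agent.CO75

open Finset

variable {G : Type} [CommGroup G] [Fintype G] {r : ℕ}

open Classical in
private theorem chs_orth (γ : G) :
    ∑ ψ : AddChar (Additive G) ℂ, ψ (Additive.ofMul γ) =
      if γ = 1 then (Fintype.card G : ℂ) else 0 := by
  have h := AddChar.sum_apply_eq_ite (α := Additive G) (Additive.ofMul γ)
  rw [h]
  by_cases hγ : γ = 1
  · rw [if_pos hγ, if_pos (by rw [hγ]; rfl)]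
    exact congrArg _ (Fintype.card_congr Additive.toMul)
  · rw [if_neg hγ, if_neg]
    intro h0
    exact hγ (Additive.ofMul.injective h0)

private theorem chs_telescope (w : ℂ) (N : ℕ) :
    (∑ j ∈ range N, (j : ℂ) * w ^ j) * (w - 1) + w * ∑ j ∈ range N, w ^ j = N * w ^ N := by
  induction N with
  | zero => simp
  | succ n ih =>
    rw [sum_range_succ, sum_range_succ, pow_succ]
    push_cast
    linear_combination ih

private theorem chs_geom {w : ℂ} {N : ℕ} (hw : w ^ N = 1) (hw1 : w ≠ 1) :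
    ∑ j ∈ range N, w ^ j = 0 := by
  have h2 := geom_sum_mul w N
  rw [hw, sub_self] at h2
  exact (mul_eq_zero.1 h2).resolve_right (sub_ne_zero.2 hw1)

private theorem chs_lin {w : ℂ} {N : ℕ} (hw : w ^ N = 1) (hw1 : w ≠ 1) :
    ∑ j ∈ range N, (j : ℂ) * w ^ j = N / (w - 1) := by
  have h := chs_telescope w N
  rw [chs_geom hw hw1, hw, mul_zero, add_zero, mul_one] at h
  rw [eq_div_iff (sub_ne_zero.2 hw1)]
  exact h

private theorem chs_id (N : ℕ) : ∑ j ∈ range N, (j : ℂ) = (N : ℂ) * (N - 1) / 2 := by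
  induction N with
  | zero => simp
  | succ n ih =>
    rw [sum_range_succ, ih]
    push_cast
    ring

/-- The basic root of unity. -/
private noncomputable def chz (N : ℕ) : ℂ := Complex.exp (2 * Real.pi * Complex.I / N)

/-- The coefficients of the fractional part as a function on the roots of unity. -/
private noncomputable def chc (N s : ℕ) : ℂ :=
  1 / (N : ℂ) ^ 2 * ∑ i ∈ range N, (i : ℂ) * (chz N ^ s) ^ i

private theorem chz_prim {N : ℕ} (hN : 0 < N) : IsPrimitiveRoot (chz N) N :=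
  Complex.isPrimitiveRoot_exp N hN.ne'

private theorem chs_val (ψ : AddChar (Additive G) ℂ) (y : G) :
    ∃ m < orderOf y, ψ (Additive.ofMul y) = (chz (orderOf y) ^ m)⁻¹ ∧
      (fr ψ y : ℂ) = (m : ℂ) / (orderOf y : ℂ) := by
  have hN : 0 < orderOf y := orderOf_pos y
  have hNR : (0 : ℝ) < (orderOf y : ℝ) := by exact_mod_cast hN
  have hNC : (orderOf y : ℂ) ≠ 0 := by exact_mod_cast hNR.ne'
  have h1 : ψ (Additive.ofMul y) ^ orderOf y = 1 := by
    rw [← AddChar.map_nsmul_eq_pow]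
    have : orderOf y • Additive.ofMul y = Additive.ofMul (y ^ orderOf y) := rfl
    rw [this, pow_orderOf_eq_one]
    exact AddChar.map_zero_eq_one ψ
  have h2 := fr_spec ψ y
  have h3 : Complex.exp ((orderOf y : ℂ) * (-2 * Real.pi * Complex.I * (fr ψ y : ℂ))) = 1 := by
    rw [Complex.exp_nat_mul, ← h2, h1]
  rw [Complex.exp_eq_one_iff] at h3
  obtain ⟨a, ha⟩ := h3
  have h4 : ((orderOf y : ℝ) * fr ψ y : ℝ) = ((-a : ℤ) : ℝ) := by
    have h5 : ((orderOf y : ℂ) * (fr ψ y : ℂ) + a) * (2 * Real.pi * Complex.I) = 0 := by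
      linear_combination -ha
    have h6 := (mul_eq_zero.1 h5).resolve_right Complex.two_pi_I_ne_zero
    have h7 : (((orderOf y : ℝ) * fr ψ y + a : ℝ) : ℂ) = 0 := by
      push_cast
      exact h6
    have h8 : (orderOf y : ℝ) * fr ψ y + a = 0 := by exact_mod_cast h7
    push_cast
    linarith
  have h9 : (0 : ℝ) ≤ ((-a : ℤ) : ℝ) := by
    rw [← h4]
    exact mul_nonneg hNR.le (fr_nonneg ψ y)
  have h10 : (((-a : ℤ)) : ℝ) < ((orderOf y : ℤ) : ℝ) := by
    rw [← h4]
    have := mul_lt_mul_of_pos_left (fr_lt_one ψ y) hNR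
    simpa using this
  have h11 : 0 ≤ -a := by exact_mod_cast h9
  have h12 : -a < (orderOf y : ℤ) := by exact_mod_cast h10
  obtain ⟨m, hm⟩ := Int.eq_ofNat_of_zero_le h11
  have h13 : ((orderOf y : ℝ) * fr ψ y : ℝ) = (m : ℝ) := by
    rw [h4, hm]
    simp
  have h14 : (fr ψ y : ℂ) = (m : ℂ) / (orderOf y : ℂ) := by
    rw [eq_div_iff hNC]
    have : (((orderOf y : ℝ) * fr ψ y : ℝ) : ℂ) = ((m : ℝ) : ℂ) := by rw [h13]
    push_cast at this
    rw [mul_comm]
    exact this
  refine ⟨m, by omega, ?_, h14⟩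
  rw [h2, h14]
  unfold chz
  rw [← Complex.exp_nat_mul, ← Complex.exp_neg]
  congr 1
  ring

private theorem chs_expand (ψ : AddChar (Additive G) ℂ) (y : G) :
    (fr ψ y : ℂ) = ∑ s ∈ range (orderOf y), chc (orderOf y) s * ψ (Additive.ofMul y) ^ s := by
  obtain ⟨m, hm, h1, h2⟩ := chs_val ψ y
  have hN : 0 < orderOf y := orderOf_pos y
  have hNC : (orderOf y : ℂ) ≠ 0 := by exact_mod_cast hN.ne'
  set N := orderOf y with hNdef
  have hz := chz_prim hN
  have hz0 : chz N ≠ 0 := hz.ne_zero hN.ne'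
  rw [h2, h1]
  have h3 : ∀ s ∈ range N, chc N s * (chz N ^ m)⁻¹ ^ s
      = ∑ i ∈ range N, (1 / (N : ℂ) ^ 2 * (i : ℂ)) * (chz N ^ i * (chz N ^ m)⁻¹) ^ s := by
    intro s _
    unfold chc
    rw [mul_sum, sum_mul]
    refine sum_congr rfl fun i _ => ?_
    rw [mul_pow, ← pow_mul, ← pow_mul, Nat.mul_comm s i]
    ring
  rw [sum_congr rfl h3, sum_comm]
  simp only [← mul_sum]
  rw [sum_eq_single m]
  · rw [mul_inv_cancel₀ (pow_ne_zero _ hz0)]
    simp only [one_pow, sum_const, card_range, nsmul_eq_mul, mul_one]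
    field_simp
  · intro i hi him
    rw [chs_geom, mul_zero]
    · rw [mul_pow, inv_pow, ← pow_mul, ← pow_mul, Nat.mul_comm i N, Nat.mul_comm m N, pow_mul,
        pow_mul, hz.pow_eq_one]
      simp
    · intro h
      apply him
      rw [← div_eq_mul_inv, div_eq_one_iff_eq (pow_ne_zero _ hz0)] at h
      exact hz.pow_inj (mem_range.1 hi) hm h
  · intro h
    exact absurd (mem_range.2 hm) h

open Classical in
private theorem chs_sum (y γ : G) :
    ∑ ψ : AddChar (Additive G) ℂ, (fr ψ y : ℂ) * ψ (Additive.ofMul γ) =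
      (Fintype.card G : ℂ) * ∑ s ∈ range (orderOf y),
        (if y ^ s * γ = 1 then chc (orderOf y) s else 0) := by
  have h1 : ∀ ψ : AddChar (Additive G) ℂ, (fr ψ y : ℂ) * ψ (Additive.ofMul γ) =
      ∑ s ∈ range (orderOf y), chc (orderOf y) s * ψ (Additive.ofMul (y ^ s * γ)) := by
    intro ψ
    rw [chs_expand, sum_mul]
    refine sum_congr rfl fun s _ => ?_
    have : Additive.ofMul (y ^ s * γ) = s • Additive.ofMul y + Additive.ofMul γ := rfl
    rw [this, AddChar.map_add_eq_mul, AddChar.map_nsmul_eq_pow]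
    ring
  rw [sum_congr rfl fun ψ _ => h1 ψ, sum_comm, mul_sum]
  refine sum_congr rfl fun s _ => ?_
  rw [← mul_sum, chs_orth]
  split_ifs
  · ring
  · ring

private theorem chc_zero {N : ℕ} (hN : 0 < N) : chc N 0 = 1 / 2 * (1 - 1 / (N : ℂ)) := by
  have hNC : (N : ℂ) ≠ 0 := by exact_mod_cast hN.ne'
  unfold chc
  simp only [pow_zero, one_pow, mul_one]
  rw [chs_id]
  field_simp

private theorem chc_rot {N t : ℕ} (ht : 1 ≤ t) (htN : t < N) :
    chc N (N - t) = 1 / (N : ℂ) * rotTerm N t := by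
  have hN : 0 < N := by omega
  have hNC : (N : ℂ) ≠ 0 := by exact_mod_cast hN.ne'
  have hz := chz_prim hN
  have hz0 : chz N ≠ 0 := hz.ne_zero hN.ne'
  have hmul : chz N ^ (N - t) * chz N ^ t = 1 := by
    rw [← pow_add, Nat.sub_add_cancel htN.le, hz.pow_eq_one]
  have hne : chz N ^ t ≠ 1 := hz.pow_ne_one_of_pos_of_lt (by omega) htN
  have hne' : chz N ^ (N - t) ≠ 1 := hz.pow_ne_one_of_pos_of_lt (by omega) (by omega)
  have hexp : Complex.exp (2 * Real.pi * Complex.I * ((t : ℂ) / (N : ℂ))) = chz N ^ t := by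
    unfold chz
    rw [← Complex.exp_nat_mul]
    congr 1
    ring
  unfold chc rotTerm
  rw [hexp, chs_lin _ hne']
  · have h1 : chz N ^ (N - t) - 1 ≠ 0 := sub_ne_zero.2 hne'
    have h2 : 1 - chz N ^ t ≠ 0 := sub_ne_zero.2 (Ne.symm hne)
    field_simp
    linear_combination -hmul
  · rw [← pow_mul, Nat.mul_comm, pow_mul, hz.pow_eq_one, one_pow]

open Classical in
private theorem chs_sum_one (y : G) :
    ∑ ψ : AddChar (Additive G) ℂ, (fr ψ y : ℂ) * ψ (Additive.ofMul (1 : G)) =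
      (Fintype.card G : ℂ) / 2 * (1 - 1 / (orderOf y : ℂ)) := by
  rw [chs_sum, sum_eq_single 0]
  · rw [if_pos (by simp), chc_zero (orderOf_pos y)]
    ring
  · intro s hs hs0
    rw [if_neg]
    rw [mul_one]
    intro h
    exact absurd (Nat.le_of_dvd (by omega) (orderOf_dvd_of_pow_eq_one h))
      (not_le.2 (mem_range.1 hs))
  · intro h
    exact absurd (mem_range.2 (orderOf_pos y)) h

open Classical in
private theorem chs_sum_ne (y : G) {γ : G} (hγ : γ ≠ 1) :
    ∑ ψ : AddChar (Additive G) ℂ, (fr ψ y : ℂ) * ψ (Additive.ofMul γ) =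
      (Fintype.card G : ℂ) * ∑ s ∈ Ico 1 (orderOf y),
        (if γ = y ^ s then 1 / (orderOf y : ℂ) * rotTerm (orderOf y) s else 0) := by
  rw [chs_sum]
  congr 1
  have hN : 0 < orderOf y := orderOf_pos y
  rw [range_eq_Ico, sum_eq_sum_Ico_succ_bot hN]
  rw [pow_zero, one_mul, if_neg hγ, zero_add]
  refine sum_nbij' (fun s => orderOf y - s) (fun s => orderOf y - s) ?_ ?_ ?_ ?_ ?_
  · intro s hs
    rw [mem_Ico] at hs ⊢
    omega
  · intro s hs
    rw [mem_Ico] at hs ⊢
    omega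
  · intro s hs
    rw [mem_Ico] at hs
    show orderOf y - (orderOf y - s) = s
    omega
  · intro s hs
    rw [mem_Ico] at hs
    show orderOf y - (orderOf y - s) = s
    omega
  · intro s hs
    rw [mem_Ico] at hs
    have h1 : y ^ s * y ^ (orderOf y - s) = 1 := by
      rw [← pow_add, Nat.add_sub_cancel' (by omega), pow_orderOf_eq_one]
    have h2 : (y ^ s * γ = 1) ↔ (γ = y ^ (orderOf y - s)) := by
      constructor
      · intro h
        exact mul_left_cancel (h.trans h1.symm)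
      · intro h
        rw [h, h1]
    have h3 : chc (orderOf y) s
        = 1 / (orderOf y : ℂ) * rotTerm (orderOf y) (orderOf y - s) := by
      rw [← chc_rot (by omega) (by omega)]
      congr 1
      omega
    by_cases hc : y ^ s * γ = 1
    · rw [if_pos hc, if_pos (h2.1 hc), h3]
    · rw [if_neg hc, if_neg (fun h => hc (h2.2 h))]

open Classical in
private theorem chs_PP (x : Fin r → G) (γ : G) :
    ∑ ψ : AddChar (Additive G) ℂ, (PP x ψ : ℂ) * ψ (Additive.ofMul γ) =
      1 - (if γ = 1 then (Fintype.card G : ℂ) else 0) +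
        ∑ i, ∑ ψ : AddChar (Additive G) ℂ, (fr ψ (x i) : ℂ) * ψ (Additive.ofMul γ) := by
  have h1 : ∀ ψ : AddChar (Additive G) ℂ, (PP x ψ : ℂ) * ψ (Additive.ofMul γ) =
      (if ψ = 1 then ψ (Additive.ofMul γ) else 0) - ψ (Additive.ofMul γ) +
        ∑ i, (fr ψ (x i) : ℂ) * ψ (Additive.ofMul γ) := by
    intro ψ
    unfold PP
    rw [← sum_mul]
    by_cases h : ψ = 1
    · simp only [if_pos h]
      push_cast
      ring
    · simp only [if_neg h]
      push_cast
      ring
  rw [sum_congr rfl fun ψ _ => h1 ψ, sum_add_distrib, sum_sub_distrib, chs_orth, sum_comm]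
  congr 2
  rw [sum_ite_eq' univ (1 : AddChar (Additive G) ℂ)]
  simp

theorem eichler_char (x : Fin r → G) (γ : G) :
    eichler x γ = ∑ ψ : AddChar (Additive G) ℂ, (PP x ψ : ℂ) * ψ (Additive.ofMul γ) := by
  classical
  rw [chs_PP]
  by_cases hγ : γ = 1
  · subst hγ
    unfold eichler
    rw [if_pos rfl, if_pos rfl, sum_congr rfl fun i _ => chs_sum_one (x i)]
    unfold genus
    push_cast
    rw [← mul_sum]
    ring
  · unfold eichler
    rw [if_neg hγ, if_neg hγ, sub_zero]
    congr 1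
    refine sum_congr rfl fun i _ => ?_
    rw [chs_sum_ne _ hγ]
    simp only [mul_inv_cancel_comm]
    rw [sum_const, card_univ, nsmul_eq_mul, mul_left_comm, mul_sum]
    congr 1
    refine sum_congr rfl fun s _ => ?_
    split_ifs
    · rfl
    · rw [mul_zero]

private theorem chs_PP_one (x : Fin r → G) : PP x (1 : AddChar (Additive G) ℂ) = 0 := by
  unfold PP
  rw [if_pos rfl, sub_self, zero_add]
  refine sum_eq_zero fun i _ => ?_
  rw [fr_eq_zero_iff]
  rfl

private theorem chs_sumG (ψ : AddChar (Additive G) ℂ) :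
    ∑ γ : G, ψ (Additive.ofMul γ) = if ψ = 1 then (Fintype.card G : ℂ) else 0 := by
  have h := AddChar.sum_eq_ite ψ
  have h1 : ∑ γ : G, ψ (Additive.ofMul γ) = ∑ a : Additive G, ψ a :=
    Fintype.sum_equiv Additive.ofMul _ _ (fun _ => rfl)
  have h2 : Fintype.card (Additive G) = Fintype.card G := Fintype.card_congr Additive.toMul
  rw [h1, h, h2]
  rfl

theorem numN_char (hodd : Odd (Fintype.card G)) (x : Fin r → G) :
    numN x = 1 / 2 * ∑ ψ : AddChar (Additive G) ℂ, (PP x ψ : ℂ) * (PP x ψ⁻¹ : ℂ) := by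
  classical
  have hn : (Fintype.card G : ℂ) ≠ 0 := by exact_mod_cast Fintype.card_ne_zero
  have h1 : ∑ γ : G, eichler x γ = 0 := by
    rw [sum_congr rfl fun γ _ => eichler_char x γ, sum_comm]
    simp only [← mul_sum, chs_sumG]
    rw [sum_eq_single (1 : AddChar (Additive G) ℂ)]
    · rw [chs_PP_one]
      simp
    · intro ψ _ hψ
      rw [if_neg hψ, mul_zero]
    · intro h
      exact absurd (mem_univ _) h
  have h2 : ∑ γ : G, eichler x (γ ^ 2) = 0 := by
    have hcop : (Nat.card G).Coprime 2 := by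
      rw [Nat.card_eq_fintype_card]
      exact Nat.coprime_two_right.2 hodd
    rw [← h1]
    exact Fintype.sum_equiv (powCoprime hcop) _ _ (fun γ => rfl)
  have h3 : ∑ γ : G, eichler x γ ^ 2 =
      (Fintype.card G : ℂ) * ∑ ψ : AddChar (Additive G) ℂ, (PP x ψ : ℂ) * (PP x ψ⁻¹ : ℂ) := by
    have h4 : ∀ γ : G, eichler x γ ^ 2 = ∑ ψ : AddChar (Additive G) ℂ,
        ∑ φ : AddChar (Additive G) ℂ, ((PP x ψ : ℂ) * (PP x φ : ℂ)) *
          (ψ * φ) (Additive.ofMul γ) := by
      intro γ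
      rw [sq, eichler_char, sum_mul_sum]
      refine sum_congr rfl fun ψ _ => sum_congr rfl fun φ _ => ?_
      rw [AddChar.mul_apply]
      ring
    rw [sum_congr rfl fun γ _ => h4 γ, sum_comm, mul_sum]
    refine sum_congr rfl fun ψ _ => ?_
    rw [sum_comm]
    simp only [← mul_sum, chs_sumG]
    rw [sum_eq_single ψ⁻¹]
    · rw [if_pos (mul_inv_cancel ψ)]
      ring
    · intro φ _ hφ
      rw [if_neg, mul_zero]
      intro h
      exact hφ (eq_inv_of_mul_eq_one_right h)
    · intro h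
      exact absurd (mem_univ _) h
  unfold numN
  rw [sum_add_distrib, h2, h3, add_zero]
  field_simp

end Pool.Agent.CO75
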