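import Pool.Agent.CO75.Fun

/-!
# Sums of squares of cotangents

PLAN. With `ζ = exp (2 π i / N)`, `|1 - ζ^s|^2 = 4 sin² (π s / N)`, so
`ct N s ^ 2 = 4 / |1 - ζ^s|^2 - 1`; and `∑_{s=1}^{N-1} 1 / |1 - ζ^s|^2 = (N² - 1) / 12` by Parseval for
`f(j) = j`: `∑_{j<N} j ζ^{js} = N / (ζ^s - 1)` for `0 < s < N` (multiply by `ζ^s - 1`), and
`∑_s |∑_j j ζ^{js}|² = N ∑_j j²`. (Any other proof is fine, for example by the polynomial
`((X+1)^N - (X-1)^N)/2`, or by complex polynomials `((1+X)^N - 1)/X`.)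
-/

namespace Pool.Agent.CO75

open Finset

private theorem cs_telescope (w : ℂ) (N : ℕ) :
    (∑ j ∈ range N, (j : ℂ) * w ^ j) * (w - 1) + w * ∑ j ∈ range N, w ^ j = N * w ^ N := by
  induction N with
  | zero => simp
  | succ n ih =>
    rw [sum_range_succ, sum_range_succ, pow_succ]
    push_cast
    linear_combination ih

private theorem cs_sq (N : ℕ) : ∑ j ∈ range N, (j : ℝ) ^ 2 = (N : ℝ) * (N - 1) * (2 * N - 1) / 6 := by
  induction N with
  | zero => simp
  | succ n ih =>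
    rw [sum_range_succ, ih]
    push_cast
    ring

private theorem cs_id (N : ℕ) : ∑ j ∈ range N, (j : ℝ) = (N : ℝ) * (N - 1) / 2 := by
  induction N with
  | zero => simp
  | succ n ih =>
    rw [sum_range_succ, ih]
    push_cast
    ring

/-- the value of the discrete Fourier transform of `j` -/
private noncomputable def csA (z : ℂ) (N s : ℕ) : ℂ := ∑ j ∈ range N, (j : ℂ) * (z ^ s) ^ j

private theorem cs_parseval {z : ℂ} {N : ℕ} (hz : IsPrimitiveRoot z N) (hN : 1 ≤ N)
    (hc : starRingEnd ℂ z = z⁻¹) :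
    ∑ s ∈ range N, csA z N s * starRingEnd ℂ (csA z N s) = N * ∑ j ∈ range N, (j : ℂ) ^ 2 := by
  have hz0 : z ≠ 0 := hz.ne_zero (by omega)
  have h1 : ∀ s, csA z N s * starRingEnd ℂ (csA z N s)
      = ∑ j ∈ range N, ∑ k ∈ range N, ((j : ℂ) * k) * (z ^ j * z⁻¹ ^ k) ^ s := by
    intro s
    unfold csA
    rw [map_sum, sum_mul_sum]
    refine sum_congr rfl fun j _ => sum_congr rfl fun k _ => ?_
    rw [map_mul, map_pow, map_pow, hc, Complex.conj_natCast]
    rw [mul_pow, ← pow_mul, ← pow_mul, ← pow_mul, ← pow_mul, Nat.mul_comm j s, Nat.mul_comm k s]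
    ring
  simp only [h1]
  rw [sum_comm]
  rw [mul_sum]
  refine sum_congr rfl fun j hj => ?_
  rw [sum_comm]
  simp only [← mul_sum]
  rw [sum_eq_single j]
  · rw [← mul_pow, mul_inv_cancel₀ hz0, one_pow]
    simp only [one_pow, sum_const, card_range, nsmul_eq_mul, mul_one]
    ring
  · intro k hk hkj
    have hne : z ^ j * z⁻¹ ^ k ≠ 1 := by
      intro h
      apply hkj
      rw [inv_pow, ← div_eq_mul_inv, div_eq_one_iff_eq (pow_ne_zero _ hz0)] at h
      exact (hz.pow_inj (mem_range.1 hj) (mem_range.1 hk) h).symm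
    have h2 := geom_sum_mul (z ^ j * z⁻¹ ^ k) N
    have h3 : (z ^ j * z⁻¹ ^ k) ^ N = 1 := by
      rw [mul_pow, ← pow_mul, ← pow_mul, Nat.mul_comm j N, Nat.mul_comm k N, pow_mul, pow_mul,
        inv_pow, hz.pow_eq_one]
      simp
    rw [h3, sub_self] at h2
    have h4 := (mul_eq_zero.1 h2).resolve_right (sub_ne_zero.2 hne)
    rw [h4, mul_zero]
  · intro h
    exact absurd hj h

theorem sum_ct_sq {N : ℕ} (hN : 1 ≤ N) :
    ∑ s ∈ Ico 1 N, ct N s ^ 2 = ((N : ℝ) - 1) * ((N : ℝ) - 2) / 3 := by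
  have hN0 : (N : ℝ) ≠ 0 := by positivity
  have hNC : (N : ℂ) ≠ 0 := by exact_mod_cast hN0
  set z : ℂ := Complex.exp (2 * Real.pi * Complex.I / N) with hz
  have hprim : IsPrimitiveRoot z N := Complex.isPrimitiveRoot_exp N (by omega)
  have hpow : ∀ s : ℕ, z ^ s = Complex.exp ((2 * (Real.pi * s / N) : ℝ) * Complex.I) := by
    intro s
    rw [hz, ← Complex.exp_nat_mul]
    congr 1
    push_cast
    field_simp
  have hc : starRingEnd ℂ z = z⁻¹ := by
    rw [hz, ← Complex.exp_conj, ← Complex.exp_neg]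
    congr 1
    simp only [map_div₀, map_mul, Complex.conj_ofReal, Complex.conj_I, map_ofNat, Complex.conj_natCast]
    ring
  have hpars := cs_parseval hprim hN hc
  have hpars' : ∑ s ∈ range N, Complex.normSq (csA z N s) = N * ∑ j ∈ range N, (j : ℝ) ^ 2 := by
    have h1 : ∀ s, csA z N s * starRingEnd ℂ (csA z N s) = (Complex.normSq (csA z N s) : ℂ) :=
      fun s => Complex.mul_conj _
    simp only [h1] at hpars
    exact_mod_cast hpars
  have h0 : Complex.normSq (csA z N 0) = ((N : ℝ) * (N - 1) / 2) ^ 2 := by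
    have : csA z N 0 = (((N : ℝ) * (N - 1) / 2 : ℝ) : ℂ) := by
      rw [← cs_id]
      unfold csA
      push_cast
      refine sum_congr rfl fun j _ => ?_
      simp
    rw [this, Complex.normSq_ofReal]
    ring
  have hterm : ∀ s ∈ Ico 1 N, ct N s ^ 2 = 4 / (N : ℝ) ^ 2 * Complex.normSq (csA z N s) - 1 := by
    intro s hs
    obtain ⟨hs1, hs2⟩ := mem_Ico.1 hs
    have hθ1 : 0 < Real.pi * (s : ℝ) / (N : ℝ) := by positivity
    have hθ2 : Real.pi * (s : ℝ) / (N : ℝ) < Real.pi := by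
      rw [div_lt_iff₀ (by positivity)]
      have : (s : ℝ) < N := by exact_mod_cast hs2
      exact mul_lt_mul_of_pos_left this Real.pi_pos
    have hsin : Real.sin (Real.pi * (s : ℝ) / (N : ℝ)) ≠ 0 := (Real.sin_pos_of_pos_of_lt_pi hθ1 hθ2).ne'
    have hne : z ^ s ≠ 1 := by
      intro h
      have := Nat.le_of_dvd (by omega) (hprim.dvd_of_pow_eq_one s h)
      omega
    have hN1 : (z ^ s) ^ N = 1 := by
      rw [← pow_mul, Nat.mul_comm, pow_mul, hprim.pow_eq_one, one_pow]
    have h2 : csA z N s * (z ^ s - 1) = N := by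
      have h3 := cs_telescope (z ^ s) N
      have h4 := geom_sum_mul (z ^ s) N
      rw [hN1, sub_self] at h4
      have h5 := (mul_eq_zero.1 h4).resolve_right (sub_ne_zero.2 hne)
      rw [h5, hN1, mul_zero, add_zero, mul_one] at h3
      exact h3
    have h6 : Complex.normSq (z ^ s - 1) = 4 * Real.sin (Real.pi * (s : ℝ) / (N : ℝ)) ^ 2 := by
      rw [hpow, Complex.exp_mul_I, Complex.normSq_apply]
      simp only [← Complex.ofReal_cos, ← Complex.ofReal_sin, Complex.sub_re, Complex.add_re,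
        Complex.ofReal_re, Complex.mul_re, Complex.I_re, mul_zero, Complex.ofReal_im, Complex.I_im,
        mul_one, sub_zero, Complex.one_re, Complex.sub_im, Complex.add_im, Complex.mul_im, zero_add,
        Complex.one_im, add_zero, sub_self]
      rw [Real.cos_two_mul, Real.sin_two_mul]
      have h7 := Real.sin_sq_add_cos_sq (Real.pi * (s : ℝ) / (N : ℝ))
      nlinarith [h7]
    have h8 : Complex.normSq (csA z N s) * (4 * Real.sin (Real.pi * (s : ℝ) / (N : ℝ)) ^ 2) = (N : ℝ) ^ 2 := by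
      rw [← h6, ← Complex.normSq_mul, h2, Complex.normSq_natCast]
      ring
    have h9 : ct N s ^ 2 = 1 / Real.sin (Real.pi * (s : ℝ) / (N : ℝ)) ^ 2 - 1 := by
      unfold ct
      rw [div_pow, Real.cos_sq']
      field_simp
    rw [h9]
    have h10 : (4 : ℝ) / (N : ℝ) ^ 2 * Complex.normSq (csA z N s)
        = 1 / Real.sin (Real.pi * (s : ℝ) / (N : ℝ)) ^ 2 := by
      rw [eq_div_iff (pow_ne_zero _ hsin), div_mul_eq_mul_div, div_mul_eq_mul_div,
        div_eq_one_iff_eq (pow_ne_zero _ hN0)]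
      linear_combination h8
    rw [h10]
  rw [sum_congr rfl hterm, sum_sub_distrib, ← mul_sum]
  have hr : ∑ s ∈ range N, Complex.normSq (csA z N s)
      = Complex.normSq (csA z N 0) + ∑ s ∈ Ico 1 N, Complex.normSq (csA z N s) := by
    rw [range_eq_Ico, sum_eq_sum_Ico_succ_bot (by omega)]
  rw [hpars', h0, cs_sq] at hr
  have h11 : ∑ s ∈ Ico 1 N, Complex.normSq (csA z N s)
      = N * ((N : ℝ) * (N - 1) * (2 * N - 1) / 6) - ((N : ℝ) * (N - 1) / 2) ^ 2 := by linarith
  rw [h11]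
  simp only [sum_const, Nat.card_Ico, nsmul_eq_mul, mul_one]
  rw [Nat.cast_sub hN]
  field_simp
  push_cast
  ring

end Pool.Agent.CO75
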