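import Pool.Agent.CO75.CotSum

/-!
# The numbers `D m` and `L N`

PLAN. `sum_D`: group `s` in `[1, N)` by `m = N / gcd (s, N)`; `s = (N/m) a` with `a < m` coprime to `m`, and
`ct N s = ct m a`. `D_nonneg`: for `m = 5` by `sum_D` (`5` is prime, `D 5 = (4 * 0)/3 = 0`); `m = 6`:
only `a = 1, 5` (`ct 6 1 ^ 2 = 3`); for `m ≥ 7`, the terms `a = 1, m-1` give
`2 ct m 1 ^ 2 ≥ 2 ((m/π)² - 1) ≥ m - 1` (as `cot² = 1/sin² - 1 ≥ 1/t² - 1`), all the squares are
`≥ 0`, and there are at most `m - 1` numbers `a`.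
`L_le`: the divisors of an odd `N` that are not `≥ 5` are `1` and perhaps `3`, so
`L N = (N-1)(N-5)/3 + (4/3 if 3 ∣ N)`; if `3 ∣ N` and `N ≥ 5` is odd then `N ≥ 9`.
-/

namespace Pool.Agent.CO75

open Finset

/-- The sum of `cot² - 1` over the fractions with denominator `m`. -/
noncomputable def D (m : ℕ) : ℝ :=
  ∑ a ∈ (range m).filter (fun a => Nat.Coprime a m), (ct m a ^ 2 - 1)

/-- The sum of `D m` over the divisors `m ≥ 5`. -/
noncomputable def L (N : ℕ) : ℝ := ∑ m ∈ N.divisors.filter (fun m => 5 ≤ m), D m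

private theorem dlem_ct_mul (m a g : ℕ) (hg : 0 < g) :
    ct (g * m) (g * a) = ct m a := by
  unfold ct
  have hgr : (g : ℝ) ≠ 0 := by exact_mod_cast hg.ne'
  have h : Real.pi * ((g * a : ℕ) : ℝ) / ((g * m : ℕ) : ℝ) = Real.pi * (a : ℝ) / (m : ℝ) := by
    push_cast
    rw [show Real.pi * ((g : ℝ) * a) = (g : ℝ) * (Real.pi * a) by ring]
    exact mul_div_mul_left _ _ hgr
  rw [h]

private theorem dlem_group {n : ℕ} (hn0 : 0 < n) :
    ∑ s ∈ Ico 1 n, (ct n s ^ 2 - 1) = ∑ m ∈ n.divisors.erase 1, D m := by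
  classical
  simp only [D]
  rw [Finset.sum_sigma']
  refine Finset.sum_bij' (fun s _ => (⟨n / Nat.gcd s n, s / Nat.gcd s n⟩ : (_ : ℕ) × ℕ))
    (fun p _ => n / p.1 * p.2) ?_ ?_ ?_ ?_ ?_
  · intro s hs
    rw [Finset.mem_Ico] at hs
    have hg0 : 0 < Nat.gcd s n := Nat.gcd_pos_of_pos_right _ hn0
    have hgs : Nat.gcd s n ∣ s := Nat.gcd_dvd_left _ _
    have hgn : Nat.gcd s n ∣ n := Nat.gcd_dvd_right _ _
    have hlt : s / Nat.gcd s n < n / Nat.gcd s n := Nat.div_lt_div_of_lt_of_dvd hgn hs.2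
    rw [Finset.mem_sigma, Finset.mem_erase, Nat.mem_divisors, Finset.mem_filter, Finset.mem_range]
    refine ⟨⟨?_, Nat.div_dvd_of_dvd hgn, hn0.ne'⟩, hlt, Nat.coprime_div_gcd_div_gcd hg0⟩
    have h1 : 0 < s / Nat.gcd s n := Nat.div_pos (Nat.le_of_dvd (by omega) hgs) hg0
    show n / Nat.gcd s n ≠ 1
    omega
  · rintro ⟨m, a⟩ hp
    rw [Finset.mem_sigma, Finset.mem_erase, Nat.mem_divisors, Finset.mem_filter,
      Finset.mem_range] at hp
    obtain ⟨⟨hm1, hmn, -⟩, ham, hco⟩ := hp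
    simp only at hm1 hmn ham hco ⊢
    have hm0 : 0 < m := Nat.pos_of_dvd_of_pos hmn hn0
    have hd : 0 < n / m := Nat.div_pos (Nat.le_of_dvd hn0 hmn) hm0
    rw [Finset.mem_Ico]
    constructor
    · have ha : 0 < a := by
        rcases Nat.eq_zero_or_pos a with h | h
        · subst h
          rw [Nat.coprime_zero_left] at hco
          exact absurd hco hm1
        · exact h
      exact Nat.mul_pos hd ha
    · calc n / m * a < n / m * m := Nat.mul_lt_mul_of_pos_left ham hd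
        _ = n := Nat.div_mul_cancel hmn
  · intro s hs
    rw [Finset.mem_Ico] at hs
    have hgs : Nat.gcd s n ∣ s := Nat.gcd_dvd_left _ _
    have hgn : Nat.gcd s n ∣ n := Nat.gcd_dvd_right _ _
    simp only
    rw [Nat.div_div_self hgn hn0.ne', Nat.mul_div_cancel' hgs]
  · rintro ⟨m, a⟩ hp
    rw [Finset.mem_sigma, Finset.mem_erase, Nat.mem_divisors, Finset.mem_filter,
      Finset.mem_range] at hp
    obtain ⟨⟨hm1, hmn, -⟩, ham, hco⟩ := hp
    simp only at hm1 hmn ham hco ⊢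
    have hm0 : 0 < m := Nat.pos_of_dvd_of_pos hmn hn0
    have hd : 0 < n / m := Nat.div_pos (Nat.le_of_dvd hn0 hmn) hm0
    have hgcd : Nat.gcd (n / m * a) n = n / m := by
      conv_lhs => rw [show n = n / m * m from (Nat.div_mul_cancel hmn).symm]
      rw [Nat.mul_div_cancel _ hm0, Nat.gcd_mul_left, hco, mul_one]
    rw [hgcd, Nat.div_div_self hmn hn0.ne', Nat.mul_div_cancel_left _ hd]
  · intro s hs
    rw [Finset.mem_Ico] at hs
    have hg0 : 0 < Nat.gcd s n := Nat.gcd_pos_of_pos_right _ hn0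
    have hgs : Nat.gcd s n ∣ s := Nat.gcd_dvd_left _ _
    have hgn : Nat.gcd s n ∣ n := Nat.gcd_dvd_right _ _
    simp only
    have h2 : ct n s = ct (n / Nat.gcd s n) (s / Nat.gcd s n) := by
      have h3 := dlem_ct_mul (n / Nat.gcd s n) (s / Nat.gcd s n) (Nat.gcd s n) hg0
      rw [Nat.mul_div_cancel' hgn, Nat.mul_div_cancel' hgs] at h3
      exact h3
    rw [h2]

theorem sum_D {N : ℕ} (hN : 1 ≤ N) :
    ∑ m ∈ N.divisors.erase 1, D m = ((N : ℝ) - 1) * ((N : ℝ) - 5) / 3 := by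
  rw [← dlem_group hN, sum_sub_distrib, sum_ct_sq hN]
  simp only [sum_const, Nat.card_Ico, nsmul_eq_mul, mul_one]
  rw [Nat.cast_sub hN]
  push_cast
  ring

private theorem dlem_prime {p : ℕ} (hp : p.Prime) : D p = ((p : ℝ) - 1) * ((p : ℝ) - 5) / 3 := by
  rw [← sum_D hp.one_lt.le]
  have h : p.divisors.erase 1 = {p} := by
    ext m
    rw [mem_erase, Nat.mem_divisors, mem_singleton]
    constructor
    · rintro ⟨h1, h2, -⟩
      rcases (Nat.dvd_prime hp).1 h2 with h | h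
      · exact absurd h h1
      · exact h
    · rintro rfl
      exact ⟨hp.one_lt.ne', dvd_rfl, hp.ne_zero⟩
  rw [h, sum_singleton]

theorem D_three : D 3 = -4 / 3 := by
  rw [dlem_prime Nat.prime_three]
  norm_num

private theorem dlem_five : D 5 = 0 := by
  rw [dlem_prime Nat.prime_five]
  norm_num

private theorem dlem_seven : D 7 = 4 := by
  rw [dlem_prime (by norm_num)]
  norm_num

private theorem dlem_cot {m : ℕ} (hm : 6 ≤ m) :
    (m : ℝ) ^ 2 / Real.pi ^ 2 - 1 ≤ ct m 1 ^ 2 := by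
  have hm0 : (0 : ℝ) < m := by exact_mod_cast (by omega : 0 < m)
  have hpi := Real.pi_pos
  have ht0 : 0 < Real.pi * ((1 : ℕ) : ℝ) / (m : ℝ) := by positivity
  have ht1 : Real.pi * ((1 : ℕ) : ℝ) / (m : ℝ) < Real.pi := by
    rw [div_lt_iff₀ hm0]
    have : (6 : ℝ) ≤ m := by exact_mod_cast hm
    push_cast
    nlinarith
  have hs := Real.sin_pos_of_pos_of_lt_pi ht0 ht1
  have hle := Real.sin_le ht0.le
  unfold ct
  rw [div_pow, Real.cos_sq', sub_div, div_self (pow_ne_zero 2 hs.ne')]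
  have h2 : (m : ℝ) ^ 2 / Real.pi ^ 2 ≤ 1 / Real.sin (Real.pi * ((1 : ℕ) : ℝ) / (m : ℝ)) ^ 2 := by
    rw [le_div_iff₀ (by positivity)]
    have h3 : Real.sin (Real.pi * ((1 : ℕ) : ℝ) / (m : ℝ)) ^ 2 ≤ (Real.pi / m) ^ 2 := by
      apply pow_le_pow_left₀ hs.le
      simpa using hle
    calc (m : ℝ) ^ 2 / Real.pi ^ 2 * Real.sin (Real.pi * ((1 : ℕ) : ℝ) / (m : ℝ)) ^ 2
        ≤ (m : ℝ) ^ 2 / Real.pi ^ 2 * (Real.pi / m) ^ 2 := by
          apply mul_le_mul_of_nonneg_left h3 (by positivity)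
      _ = 1 := by field_simp
  linarith

private theorem dlem_ct_sub {m : ℕ} (hm : 6 ≤ m) : ct m (m - 1) ^ 2 = ct m 1 ^ 2 := by
  have hm0 : (m : ℝ) ≠ 0 := by exact_mod_cast (by omega : m ≠ 0)
  unfold ct
  have h : Real.pi * ((m - 1 : ℕ) : ℝ) / (m : ℝ) = Real.pi - Real.pi * ((1 : ℕ) : ℝ) / (m : ℝ) := by
    rw [Nat.cast_sub (by omega)]
    field_simp
  rw [h, Real.cos_pi_sub, Real.sin_pi_sub, neg_div, neg_sq]

theorem D_nonneg {m : ℕ} (hm : 5 ≤ m) : 0 ≤ D m := by
  rcases Nat.lt_or_ge m 6 with h | h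
  · have : m = 5 := by omega
    rw [this, dlem_five]
  unfold D
  rw [sum_sub_distrib]
  simp only [sum_const, nsmul_eq_mul, mul_one]
  have hcard : ((((range m).filter (fun a => Nat.Coprime a m)).card : ℕ) : ℝ) ≤ (m : ℝ) - 1 := by
    have h1 : (range m).filter (fun a => Nat.Coprime a m) ⊆ Ico 1 m := by
      intro a ha
      rw [mem_filter, mem_range] at ha
      rw [mem_Ico]
      refine ⟨?_, ha.1⟩
      rcases Nat.eq_zero_or_pos a with h0 | h0
      · subst h0
        have := ha.2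
        rw [Nat.coprime_zero_left] at this
        omega
      · exact h0
    have h2 := card_le_card h1
    rw [Nat.card_Ico] at h2
    have h3 : ((m - 1 : ℕ) : ℝ) = (m : ℝ) - 1 := by
      rw [Nat.cast_sub (by omega)]
      simp
    rw [← h3]
    exact_mod_cast h2
  have hsum : 2 * ct m 1 ^ 2 ≤ ∑ a ∈ (range m).filter (fun a => Nat.Coprime a m), ct m a ^ 2 := by
    have h1 : ({1, m - 1} : Finset ℕ) ⊆ (range m).filter (fun a => Nat.Coprime a m) := by
      intro a ha
      rw [mem_insert, mem_singleton] at ha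
      rw [mem_filter, mem_range]
      rcases ha with h1 | h1
      · subst h1
        exact ⟨by omega, Nat.coprime_one_left m⟩
      · subst h1
        refine ⟨by omega, ?_⟩
        have h2 : Nat.Coprime (m - 1) (m - 1 + 1) := by simp
        rwa [Nat.sub_add_cancel (by omega : 1 ≤ m)] at h2
    have h2 := sum_le_sum_of_subset_of_nonneg (f := fun a => ct m a ^ 2) h1
      (fun a _ _ => sq_nonneg _)
    rw [sum_pair (by omega)] at h2
    rw [dlem_ct_sub h] at h2
    linarith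
  have hcot := dlem_cot h
  have hm6 : (6 : ℝ) ≤ m := by exact_mod_cast h
  have hpi : Real.pi ^ 2 < 9.9225 := by
    have h1 := Real.pi_lt_d2
    have h2 := Real.pi_pos
    nlinarith
  have hq : (m : ℝ) ^ 2 / 9.9225 ≤ (m : ℝ) ^ 2 / Real.pi ^ 2 := by
    apply div_le_div_of_nonneg_left (by positivity) (by positivity) hpi.le
  have h7 : (m : ℝ) + 1 ≤ 2 * ((m : ℝ) ^ 2 / 9.9225) := by
    rw [mul_div_assoc', le_div_iff₀ (by norm_num)]
    nlinarith
  linarith

theorem L_one : L 1 = 0 := by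
  unfold L
  have h : (Nat.divisors 1).filter (fun m => 5 ≤ m) = ∅ := by decide
  rw [h, sum_empty]

theorem L_three : L 3 = 0 := by
  unfold L
  have h : (Nat.divisors 3).filter (fun m => 5 ≤ m) = ∅ := by decide
  rw [h, sum_empty]

theorem L_five : L 5 = 0 := by
  unfold L
  have h : (Nat.divisors 5).filter (fun m => 5 ≤ m) = {5} := by decide
  rw [h, sum_singleton, dlem_five]

theorem L_seven : L 7 = 4 := by
  unfold L
  have h : (Nat.divisors 7).filter (fun m => 5 ≤ m) = {7} := by decide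
  rw [h, sum_singleton, dlem_seven]

theorem L_nonneg (N : ℕ) : 0 ≤ L N := by
  unfold L
  apply sum_nonneg
  intro m hm
  exact D_nonneg (mem_filter.1 hm).2

theorem L_le {N : ℕ} (hodd : Odd N) (h5 : 5 ≤ N) : L N ≤ (N : ℝ) * ((N : ℝ) - 5) / 3 := by
  have hsum := sum_D (N := N) (by omega)
  have hN : (5 : ℝ) ≤ N := by exact_mod_cast h5
  have hsub : N.divisors.filter (fun m => 5 ≤ m) ⊆ N.divisors.erase 1 := by
    intro m hm
    rw [mem_filter] at hm
    rw [mem_erase]
    exact ⟨by omega, hm.1⟩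
  have hdiff : N.divisors.erase 1 \ N.divisors.filter (fun m => 5 ≤ m) ⊆ {3} := by
    intro m hm
    rw [mem_sdiff, mem_erase, mem_filter, not_and] at hm
    obtain ⟨⟨h1, h2⟩, h3⟩ := hm
    have h4 := h3 h2
    rw [mem_singleton]
    have h6 : m ∣ N := Nat.dvd_of_mem_divisors h2
    have h7 : Odd m := Odd.of_dvd_nat hodd h6
    obtain ⟨k, hk⟩ := h7
    omega
  have hsplit := sum_sdiff (f := D) hsub
  by_cases h3 : 3 ∣ N
  · have hd : N.divisors.erase 1 \ N.divisors.filter (fun m => 5 ≤ m) = {3} := by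
      apply Subset.antisymm hdiff
      intro m hm
      rw [mem_singleton] at hm
      subst hm
      rw [mem_sdiff, mem_erase, mem_filter, Nat.mem_divisors]
      exact ⟨⟨by norm_num, h3, by omega⟩, by omega⟩
    rw [hd, sum_singleton, D_three, hsum] at hsplit
    have h9 : 9 ≤ N := by
      obtain ⟨k, hk⟩ := h3
      obtain ⟨l, hl⟩ := hodd
      omega
    have h9' : (9 : ℝ) ≤ N := by exact_mod_cast h9
    have hL : L N = ∑ m ∈ N.divisors.filter (fun m => 5 ≤ m), D m := rfl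
    rw [hL]
    nlinarith
  · have hd : N.divisors.erase 1 \ N.divisors.filter (fun m => 5 ≤ m) = ∅ := by
      rw [← subset_empty]
      intro m hm
      have h4 := hdiff hm
      rw [mem_singleton] at h4
      subst h4
      rw [mem_sdiff, mem_erase, Nat.mem_divisors] at hm
      exact absurd hm.1.2.1 h3
    rw [hd, sum_empty, zero_add, hsum] at hsplit
    have hL : L N = ∑ m ∈ N.divisors.filter (fun m => 5 ≤ m), D m := rfl
    rw [hL, hsplit]
    nlinarith

end Pool.Agent.CO75
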