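import Mathlib

/-!
# Galois covers of the line and the numerical criterion

Definitions. `G` is a finite group, `x = (x 0, ..., x (r-1))` a generating vector: elements different
from `1` with product `1` that generate `G`. It describes a Galois cover `C → P^1` with group `G` and
`r` branch points; over the `i`-th branch point the points of `C` are the cosets `g⟨x i⟩`, the
stabiliser of `g⟨x i⟩` is `g⟨x i⟩g⁻¹`, and `g (x i) g⁻¹` acts on the tangent line at this point as
`exp (2 π i / n)`, where `n` is the order of `x i`.
-/

namespace Pool.Agent.CO75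

/-- Generating vectors. -/
structure IsGenVec {G : Type} [Group G] {r : ℕ} (x : Fin r → G) : Prop where
  ne_one : ∀ i, x i ≠ 1
  prod_eq : (List.ofFn x).prod = 1
  gen : Subgroup.closure (Set.range x) = ⊤

/-- `ζ / (1 - ζ)` for `ζ = exp (2 π i s / n)`. -/
noncomputable def rotTerm (n s : ℕ) : ℂ :=
  Complex.exp (2 * Real.pi * Complex.I * ((s : ℂ) / (n : ℂ))) /
    (1 - Complex.exp (2 * Real.pi * Complex.I * ((s : ℂ) / (n : ℂ))))

variable {G : Type} [Group G] [Fintype G] {r : ℕ}

/-- The genus, by the formula of Riemann and Hurwitz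
`2 g - 2 = |G| (-2 + ∑ i, (1 - 1 / n i))`. -/
noncomputable def genus (x : Fin r → G) : ℝ :=
  1 + (Fintype.card G : ℝ) / 2 * (-2 + ∑ i, (1 - 1 / (orderOf (x i) : ℝ)))

open Classical in
/-- Eichler's trace formula: the trace of `γ` on the holomorphic differentials is the genus for
`γ = 1`, and otherwise it is `1 + ∑ ζ / (1 - ζ)` over the fixed points of `γ`, where `ζ` describes the
action of `γ` at the fixed point. The sum over the cosets `g⟨x i⟩` is written as a sum over `g`,
divided by the order of `x i`. -/
noncomputable def eichler (x : Fin r → G) (γ : G) : ℂ :=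
  if γ = 1 then (genus x : ℂ) else
    1 + ∑ i, (1 / (orderOf (x i) : ℂ)) * ∑ g : G, ∑ s ∈ Finset.Ico 1 (orderOf (x i)),
      if γ = g * x i ^ s * g⁻¹ then rotTerm (orderOf (x i)) s else 0

/-- The dimension of the invariants of the symmetric square of the representation with character
`eichler x`. -/
noncomputable def numN (x : Fin r → G) : ℂ :=
  1 / (2 * (Fintype.card G : ℂ)) * ∑ γ : G, (eichler x γ ^ 2 + eichler x (γ ^ 2))

/-- The symmetric tensors in `V ⊗ V` that are invariant under the group. -/
noncomputable def symInv {V : Type} [AddCommGroup V] [Module ℂ V] (ρ : Representation ℂ G V) :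
    Submodule ℂ (TensorProduct ℂ V V) where
  carrier := {t | (∀ g, TensorProduct.map (ρ g) (ρ g) t = t) ∧ TensorProduct.comm ℂ V V t = t}
  zero_mem' := by simp
  add_mem' := by
    rintro a b ⟨ha, ha'⟩ ⟨hb, hb'⟩
    exact ⟨fun g => by rw [map_add, ha, hb], by rw [map_add, ha', hb']⟩
  smul_mem' := by
    rintro c a ⟨ha, ha'⟩
    exact ⟨fun g => by rw [map_smul, ha], by rw [map_smul, ha']⟩

end Pool.Agent.CO75
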