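import Pool.Agent.CO75.OverDefs

/-!
# The dimension of the invariants of the symmetric square

`P = (1/(2|G|)) ∑ g, (ρ g ⊗ ρ g + swap ∘ (ρ g ⊗ ρ g))` is a projection onto `symInv ρ`, so its trace is
the dimension of `symInv ρ`.
-/

namespace Pool.Agent.CO75

open Finset TensorProduct

theorem trace_swap_gen {V : Type} [AddCommGroup V] [Module ℂ V] [FiniteDimensional ℂ V]
    (f g : V →ₗ[ℂ] V) :
    LinearMap.trace ℂ (V ⊗[ℂ] V)
      ((TensorProduct.comm ℂ V V).toLinearMap ∘ₗ TensorProduct.map f g) =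
      LinearMap.trace ℂ V (f ∘ₗ g) := by
  classical
  set b := Module.finBasis ℂ V with hb
  rw [LinearMap.trace_eq_matrix_trace ℂ (b.tensorProduct b), LinearMap.trace_eq_matrix_trace ℂ b,
    LinearMap.toMatrix_comp b b b, Matrix.trace, Matrix.trace, Fintype.sum_prod_type,
    Finset.sum_comm]
  refine Finset.sum_congr rfl fun i _ => ?_
  rw [Matrix.diag_apply, Matrix.mul_apply]
  refine Finset.sum_congr rfl fun j _ => ?_
  rw [Matrix.diag_apply, LinearMap.toMatrix_apply, LinearMap.toMatrix_apply,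
    LinearMap.toMatrix_apply, Module.Basis.tensorProduct_apply, LinearMap.comp_apply,
    TensorProduct.map_tmul, LinearEquiv.coe_coe, TensorProduct.comm_tmul,
    Module.Basis.tensorProduct_repr_tmul_apply]
  simp

theorem finrank_symInv_gen {G : Type} [Group G] [Fintype G]
    {V : Type} [AddCommGroup V] [Module ℂ V] [FiniteDimensional ℂ V] (ρ : Representation ℂ G V) :
    (Module.finrank ℂ (symInv ρ) : ℂ) = 1 / (2 * (Fintype.card G : ℂ)) *
      ∑ γ : G, (LinearMap.trace ℂ V (ρ γ) ^ 2 + LinearMap.trace ℂ V (ρ (γ ^ 2))) := by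
  set c : ℂ := 1 / (2 * (Fintype.card G : ℂ)) with hc
  have hcard : (Fintype.card G : ℂ) ≠ 0 := by
    exact_mod_cast Fintype.card_ne_zero
  set T : V ⊗[ℂ] V →ₗ[ℂ] V ⊗[ℂ] V := (TensorProduct.comm ℂ V V).toLinearMap with hT
  have hTT : ∀ t, T (T t) = t := by
    intro t
    exact TensorProduct.comm_comm ℂ V V t
  have hTm : ∀ g t, T (TensorProduct.map (ρ g) (ρ g) t) = TensorProduct.map (ρ g) (ρ g) (T t) := by
    intro g t
    induction t using TensorProduct.induction_on with
    | zero => simp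
    | tmul u v => simp [hT]
    | add u v hu hv => rw [map_add, map_add, hu, hv, map_add, map_add]
  have hmm : ∀ g h t, TensorProduct.map (ρ g) (ρ g) (TensorProduct.map (ρ h) (ρ h) t) =
      TensorProduct.map (ρ (g * h)) (ρ (g * h)) t := by
    intro g h t
    rw [map_mul, ← LinearMap.comp_apply, ← TensorProduct.map_comp]
    rfl
  set P : V ⊗[ℂ] V →ₗ[ℂ] V ⊗[ℂ] V := c • ∑ g : G, (TensorProduct.map (ρ g) (ρ g) +
    T ∘ₗ TensorProduct.map (ρ g) (ρ g)) with hP
  have hPapp : ∀ t, P t = c • ∑ g : G, (TensorProduct.map (ρ g) (ρ g) t +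
      T (TensorProduct.map (ρ g) (ρ g) t)) := by
    intro t
    simp [hP, LinearMap.sum_apply]
  have hproj : LinearMap.IsProj (symInv ρ) P := by
    constructor
    · intro t
      refine ⟨fun h => ?_, ?_⟩
      · rw [hPapp, map_smul, map_sum]
        congr 1
        refine Fintype.sum_equiv (Equiv.mulLeft h) _ _ fun g => ?_
        rw [map_add, Equiv.coe_mulLeft, ← hTm, hmm]
      · change T (P t) = P t
        rw [hPapp, map_smul, map_sum]
        congr 1
        refine Finset.sum_congr rfl fun g _ => ?_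
        rw [map_add, hTT, add_comm]
    · rintro t ⟨h1, h2⟩
      have h2' : T t = t := h2
      rw [hPapp]
      simp only [h1, h2', Finset.sum_const, Finset.card_univ]
      rw [← two_smul ℂ t, ← Nat.cast_smul_eq_nsmul ℂ, smul_smul, smul_smul, hc]
      have : 1 / (2 * (Fintype.card G : ℂ)) * ((Fintype.card G : ℂ) * 2) = 1 := by
        field_simp
      rw [mul_assoc, this, one_smul]
  rw [← hproj.trace, hP, map_smul, map_sum, smul_eq_mul]
  congr 1
  refine Finset.sum_congr rfl fun g _ => ?_
  rw [map_add, LinearMap.trace_tensorProduct', hT, trace_swap_gen, pow_two, pow_two, map_mul]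
  rfl

theorem finrank_symInv_over {G : Type} [Group G] [Fintype G] {r : ℕ} (h : ℕ) (x : Fin r → G)
    {V : Type} [AddCommGroup V] [Module ℂ V] [FiniteDimensional ℂ V] (ρ : Representation ℂ G V)
    (hρ : ∀ γ, LinearMap.trace ℂ V (ρ γ) = eichlerOver h x γ) :
    (Module.finrank ℂ (symInv ρ) : ℂ) = numOver h x := by
  rw [finrank_symInv_gen, numOver]
  simp only [hρ]

end Pool.Agent.CO75
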