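import Pool.Agent.CO75.Defs
import Pool.Agent.CO75.RepOver

/-!
# The number `numN` is the dimension of the invariants of the symmetric square

PLAN. `P = (1/(2|G|)) ∑_g (ρ g ⊗ ρ g + swap ∘ (ρ g ⊗ ρ g))` is a projection onto `symInv ρ`, so its trace is
the dimension (`LinearMap.IsProj.trace`). The trace of `f ⊗ f` is `(trace f)²`, the trace of
`swap ∘ (f ⊗ f)` is the trace of `f ∘ f` (in a basis `b`: the coefficient of `b i ⊗ b j` in
`f (b j) ⊗ f (b i)`, that is `f i j * f j i`), and `ρ g ∘ ρ g = ρ (g²)`.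
-/

namespace Pool.Agent.CO75

open Finset TensorProduct

theorem trace_swap {V : Type} [AddCommGroup V] [Module ℂ V] [FiniteDimensional ℂ V]
    (f : V →ₗ[ℂ] V) :
    LinearMap.trace ℂ (V ⊗[ℂ] V)
      ((TensorProduct.comm ℂ V V).toLinearMap ∘ₗ TensorProduct.map f f) =
      LinearMap.trace ℂ V (f ∘ₗ f) :=
  trace_swap_gen f f

theorem finrank_symInv {G : Type} [Group G] [Fintype G] {r : ℕ} (x : Fin r → G) {V : Type}
    [AddCommGroup V] [Module ℂ V] [FiniteDimensional ℂ V] (ρ : Representation ℂ G V)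
    (h : ∀ γ, LinearMap.trace ℂ V (ρ γ) = eichler x γ) :
    (Module.finrank ℂ (symInv ρ) : ℂ) = numN x := by
  rw [finrank_symInv_gen ρ]
  unfold numN
  simp only [h]

end Pool.Agent.CO75
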