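import Pool.Agent.CO75.Tuple

/-!
# The cyclic group of order nine

PLAN. `x = (1, 1, 1, 6)` (additively). The orders are `9, 9, 9, 3`, so the genus is
`1 + (9/2)(2 - 1/3 - 1/3) = 7`. By `numN_eq_card` it is enough that `mids x` has two elements. Take the
character `ψ` with `ψ 1 = exp (-2 π i/9)`; it has order `9`, all the characters are `ψ^k`, `k ∈ ZMod 9`, and by
`exists_tuple` (with `a = (1,1,1,6)`, or directly) `ψ^k ∈ mids x` iff `cnt` counts `k`: `k = 4, 5`.
-/

namespace Pool.Agent.CO75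

open Finset

private noncomputable abbrev gg : Additive (Multiplicative (ZMod 9)) :=
  Additive.ofMul (Multiplicative.ofAdd (1 : ZMod 9))

private abbrev xx : Fin 4 → Multiplicative (ZMod 9) :=
  fun i => Multiplicative.ofAdd ((![1, 1, 1, 6] : Fin 4 → ZMod 9) i)

private theorem gg_gen (y : Additive (Multiplicative (ZMod 9))) : ∃ n : ℕ, y = n • gg := by
  refine ⟨(Multiplicative.toAdd (Additive.toMul y)).val, ?_⟩
  apply Additive.toMul.injective
  apply Multiplicative.toAdd.injective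
  simp [gg]

private theorem char_ext {ψ χ : AddChar (Additive (Multiplicative (ZMod 9))) ℂ}
    (h : ψ gg = χ gg) : ψ = χ := by
  ext y
  obtain ⟨n, rfl⟩ := gg_gen y
  rw [AddChar.map_nsmul_eq_pow, AddChar.map_nsmul_eq_pow, h]

private theorem x3 (ψ : AddChar (Additive (Multiplicative (ZMod 9))) ℂ) :
    ψ (Additive.ofMul (xx 3)) = ψ gg ^ 6 := by
  rw [← AddChar.map_nsmul_eq_pow]
  congr 1

private theorem exp_int {a b : ℝ}
    (h : Complex.exp (-2 * Real.pi * Complex.I * (a : ℂ)) =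
      Complex.exp (-2 * Real.pi * Complex.I * (b : ℂ))) : ∃ n : ℤ, a = b + n := by
  rw [Complex.exp_eq_exp_iff_exists_int] at h
  obtain ⟨n, hn⟩ := h
  refine ⟨-n, ?_⟩
  have hp : (2 * (Real.pi : ℂ) * Complex.I) ≠ 0 := Complex.two_pi_I_ne_zero
  have h1 : (2 * (Real.pi : ℂ) * Complex.I) * ((a : ℂ)) =
      (2 * (Real.pi : ℂ) * Complex.I) * ((b : ℂ) + ((-n : ℤ) : ℂ)) := by
    push_cast
    linear_combination -hn
  have h2 := mul_left_cancel₀ hp h1
  exact_mod_cast h2

private theorem exists_char (j : ℤ) : ∃ χ : AddChar (Additive (Multiplicative (ZMod 9))) ℂ,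
    χ gg = Complex.exp (-2 * Real.pi * Complex.I * (((j : ℝ) / 9 : ℝ) : ℂ)) := by
  refine ⟨(ZMod.stdAddChar (N := 9)).compAddMonoidHom
    ((AddMonoidHom.mulLeft (((-j : ℤ)) : ZMod 9)).comp
      (AddEquiv.additiveMultiplicative (ZMod 9)).toAddMonoidHom), ?_⟩
  have e : (ZMod.stdAddChar (N := 9)) (((-j : ℤ)) : ZMod 9) =
      Complex.exp (-2 * Real.pi * Complex.I * (((j : ℝ) / 9 : ℝ) : ℂ)) := by
    rw [ZMod.stdAddChar_coe]
    congr 1
    push_cast
    ring
  rw [← e]
  simp [gg, AddEquiv.additiveMultiplicative]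

/-- The condition in `mids` in terms of the value at the generator. -/
private theorem fr_xx (ψ : AddChar (Additive (Multiplicative (ZMod 9))) ℂ) (j : ℤ) (h0 : 0 ≤ j)
    (h9 : j < 9) (hψ : ψ gg = Complex.exp (-2 * Real.pi * Complex.I * (((j : ℝ) / 9 : ℝ) : ℂ))) :
    (∀ i : Fin 4, i ≠ 3 → fr ψ (xx i) = (j : ℝ) / 9) ∧
      ∃ n : ℤ, fr ψ (xx 3) = 6 * ((j : ℝ) / 9) + n := by
  have h0' : (0 : ℝ) ≤ j := by exact_mod_cast h0
  have h9' : (j : ℝ) < 9 := by exact_mod_cast h9
  constructor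
  · intro i hi
    have hg : Additive.ofMul (xx i) = gg := by
      fin_cases i
      · rfl
      · rfl
      · rfl
      · exact absurd rfl hi
    have h1 := fr_spec ψ (xx i)
    rw [hg, hψ] at h1
    obtain ⟨n, hn⟩ := exp_int h1.symm
    have hA := fr_nonneg ψ (xx i)
    have hB := fr_lt_one ψ (xx i)
    have hn0 : n = 0 := by
      have c1 : (n : ℝ) < 1 := by linarith [div_nonneg h0' (by norm_num : (0 : ℝ) ≤ 9)]
      have c2 : (-1 : ℝ) < n := by
        have : (j : ℝ) / 9 < 1 := by rw [div_lt_one (by norm_num)]; exact h9'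
        linarith
      have c3 : n < 1 := by exact_mod_cast c1
      have c4 : -1 < n := by exact_mod_cast c2
      omega
    rw [hn, hn0]
    simp
  · have h1 := fr_spec ψ (xx 3)
    rw [x3, hψ, ← Complex.exp_nat_mul] at h1
    have h2 : Complex.exp (-2 * Real.pi * Complex.I * ((6 * ((j : ℝ) / 9) : ℝ) : ℂ)) =
        Complex.exp (-2 * Real.pi * Complex.I * (fr ψ (xx 3) : ℂ)) := by
      rw [← h1]
      congr 1
      push_cast
      ring
    obtain ⟨n, hn⟩ := exp_int h2.symm
    exact ⟨n, hn⟩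

private theorem exists_j (ψ : AddChar (Additive (Multiplicative (ZMod 9))) ℂ) :
    ∃ j : ℤ, 0 ≤ j ∧ j < 9 ∧
      ψ gg = Complex.exp (-2 * Real.pi * Complex.I * (((j : ℝ) / 9 : ℝ) : ℂ)) := by
  have h1 := fr_spec ψ (Multiplicative.ofAdd (1 : ZMod 9))
  have h2 : ψ gg ^ 9 = 1 := by
    rw [← AddChar.map_nsmul_eq_pow]
    have : (9 : ℕ) • gg = 0 := rfl
    rw [this, AddChar.map_zero_eq_one]
  have hA := fr_nonneg ψ (Multiplicative.ofAdd (1 : ZMod 9))
  have hB := fr_lt_one ψ (Multiplicative.ofAdd (1 : ZMod 9))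
  set t := fr ψ (Multiplicative.ofAdd (1 : ZMod 9)) with ht
  have h3 : Complex.exp (-2 * Real.pi * Complex.I * ((9 * t : ℝ) : ℂ)) =
      Complex.exp (-2 * Real.pi * Complex.I * ((0 : ℝ) : ℂ)) := by
    have h4 : ψ gg = Complex.exp (-2 * Real.pi * Complex.I * (t : ℂ)) := h1
    rw [h4, ← Complex.exp_nat_mul] at h2
    have h5 : Complex.exp (-2 * Real.pi * Complex.I * ((0 : ℝ) : ℂ)) = 1 := by simp
    rw [h5, ← h2]
    congr 1
    push_cast
    ring
  obtain ⟨n, hn⟩ := exp_int h3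
  rw [zero_add] at hn
  have hn' : (n : ℝ) / 9 = t := by rw [← hn]; ring
  refine ⟨n, ?_, ?_, ?_⟩
  · have : (0 : ℝ) ≤ n := by rw [← hn]; positivity
    exact_mod_cast this
  · have : (n : ℝ) < 9 := by rw [← hn]; linarith
    exact_mod_cast this
  · rw [hn']
    exact h1

private theorem mem_mids (ψ : AddChar (Additive (Multiplicative (ZMod 9))) ℂ) (j : ℤ) (h0 : 0 ≤ j)
    (h9 : j < 9) (hψ : ψ gg = Complex.exp (-2 * Real.pi * Complex.I * (((j : ℝ) / 9 : ℝ) : ℂ))) :
    ψ ∈ mids xx ↔ j = 4 ∨ j = 5 := by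
  obtain ⟨hi, n, hn⟩ := fr_xx ψ j h0 h9 hψ
  have e0 := hi 0 (by decide)
  have e1 := hi 1 (by decide)
  have e2 := hi 2 (by decide)
  have hA := fr_nonneg ψ (xx 3)
  have hB := fr_lt_one ψ (xx 3)
  rw [mids, mem_filter]
  have hsum : ∑ i, fr ψ (xx i) = 3 * ((j : ℝ) / 9) + fr ψ (xx 3) := by
    rw [Fin.sum_univ_four, e0, e1, e2]
    ring
  have hn1 : (0 : ℝ) ≤ 6 * j + 9 * n := by
    have : 6 * ((j : ℝ) / 9) + n = (6 * j + 9 * n) / 9 := by ring
    rw [hn, this] at hA
    linarith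
  have hn2 : (6 * j + 9 * n : ℝ) < 9 := by
    have : 6 * ((j : ℝ) / 9) + n = (6 * j + 9 * n) / 9 := by ring
    rw [hn, this] at hB
    linarith
  have hn1' : 0 ≤ 6 * j + 9 * n := by exact_mod_cast hn1
  have hn2' : 6 * j + 9 * n < 9 := by exact_mod_cast hn2
  constructor
  · rintro ⟨-, hne, hs⟩
    rw [hsum, hn] at hs
    have hs' : (9 * j + 9 * n : ℝ) = 18 := by linarith
    have hs'' : 9 * j + 9 * n = 18 := by exact_mod_cast hs'
    have hne3 : fr ψ (xx 3) ≠ 0 := fun h => hne 3 ((fr_eq_zero_iff ψ (xx 3)).mp h)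
    have : 6 * j + 9 * n ≠ 0 := by
      intro h
      apply hne3
      rw [hn]
      have : (6 * j + 9 * n : ℝ) = 0 := by exact_mod_cast h
      linarith
    omega
  · intro hj
    refine ⟨mem_univ _, ?_, ?_⟩
    · intro i
      rw [Ne, ← fr_eq_zero_iff]
      by_cases h3 : i = 3
      · subst h3
        rw [hn]
        intro h
        have h' : (6 * j + 9 * n : ℝ) = 0 := by linarith
        have h'' : 6 * j + 9 * n = 0 := by exact_mod_cast h'
        omega
      · rw [hi i h3]
        intro h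
        have h' : (j : ℝ) = 0 := by linarith
        have h'' : j = 0 := by exact_mod_cast h'
        omega
    · rw [hsum, hn]
      rcases hj with rfl | rfl
      · have : n = -2 := by omega
        rw [this]; norm_num
      · have : n = -3 := by omega
        rw [this]; norm_num

private theorem card_mids : (mids xx).card = 2 := by
  classical
  obtain ⟨χ, hχ⟩ := exists_char 4
  obtain ⟨χ', hχ'⟩ := exists_char 5
  have h4 := (mem_mids χ 4 (by norm_num) (by norm_num) hχ).mpr (Or.inl rfl)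
  have h5 := (mem_mids χ' 5 (by norm_num) (by norm_num) hχ').mpr (Or.inr rfl)
  have hne : χ ≠ χ' := by
    intro h
    rw [h, hχ'] at hχ
    obtain ⟨n, hn⟩ := exp_int hχ
    have h1 : (5 : ℝ) = 4 + 9 * n := by push_cast at hn; linarith
    have h2 : (5 : ℤ) = 4 + 9 * n := by exact_mod_cast h1
    omega
  have : mids xx = {χ, χ'} := by
    ext ψ
    rw [mem_insert, mem_singleton]
    constructor
    · intro hψ
      obtain ⟨j, hj0, hj9, hj⟩ := exists_j ψ
      rcases (mem_mids ψ j hj0 hj9 hj).mp hψ with rfl | rfl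
      · exact Or.inl (char_ext (hj.trans hχ.symm))
      · exact Or.inr (char_ext (hj.trans hχ'.symm))
    · rintro (rfl | rfl)
      · exact h4
      · exact h5
  rw [this, card_pair hne]

private theorem genVec_xx : IsGenVec xx where
  ne_one := by decide
  prod_eq := by decide
  gen := by
    rw [eq_top_iff]
    intro y _
    have h1 : Multiplicative.ofAdd (1 : ZMod 9) ∈ Subgroup.closure (Set.range xx) :=
      Subgroup.subset_closure ⟨0, rfl⟩
    obtain ⟨n, hn⟩ := gg_gen (Additive.ofMul y)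
    have h2 : y = Multiplicative.ofAdd (1 : ZMod 9) ^ n := hn
    rw [h2]
    exact Subgroup.pow_mem _ h1 n

private theorem order_one : orderOf (Multiplicative.ofAdd (1 : ZMod 9)) = 9 := by
  rw [orderOf_ofAdd_eq_addOrderOf]
  exact ZMod.addOrderOf_one 9

private theorem order_six : orderOf (Multiplicative.ofAdd (6 : ZMod 9)) = 3 := by
  rw [orderOf_ofAdd_eq_addOrderOf]
  have := ZMod.addOrderOf_coe 6 (n := 9) (by norm_num)
  have h : ((6 : ℕ) : ZMod 9) = 6 := rfl
  rw [h] at this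
  rw [this]
  decide

theorem sharp : ∃ x : Fin 4 → Multiplicative (ZMod 9),
    IsGenVec x ∧ numN x = 1 ∧ genus x = 7 := by
  refine ⟨xx, genVec_xx, ?_, ?_⟩
  · rw [numN_eq_card (by decide) xx genVec_xx, card_mids]
    norm_num
  · rw [genus, Fin.sum_univ_four]
    have h0 : orderOf (xx 0) = 9 := order_one
    have h1 : orderOf (xx 1) = 9 := order_one
    have h2 : orderOf (xx 2) = 9 := order_one
    have h3 : orderOf (xx 3) = 3 := order_six
    have hc : Fintype.card (Multiplicative (ZMod 9)) = 9 := rfl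
    rw [h0, h1, h2, h3, hc]
    norm_num

end Pool.Agent.CO75
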