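import Pool.Agent.CO75.AbMain
import Pool.Agent.CO75.Rep
import Pool.Agent.CO75.Sharp

/-!
# Groups of odd order: the genus is at most seven
-/

namespace Pool.Agent.CO75

/-- A group of prime order is commutative and all orders are this prime. -/
theorem prime_card {G : Type} [Group G] [Fintype G] {p : ℕ} (hp : p.Prime)
    (hG : Fintype.card G = p) {r : ℕ} (x : Fin r → G) (hx : IsGenVec x) :
    (∀ a b : G, a * b = b * a) ∧
      genus x = 1 + (p : ℝ) / 2 * ((r : ℝ) - 2 - (r : ℝ) / (p : ℝ)) := by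
  haveI : Fact p.Prime := ⟨hp⟩
  have hc : IsCyclic G := isCyclic_of_prime_card (p := p) (by rw [Nat.card_eq_fintype_card, hG])
  constructor
  · intro a b
    obtain ⟨g, hg⟩ := hc.exists_generator
    obtain ⟨k, rfl⟩ := hg a
    obtain ⟨l, rfl⟩ := hg b
    simp only [← zpow_add, add_comm]
  · have ho : ∀ i, orderOf (x i) = p := by
      intro i
      have h1 : orderOf (x i) ∣ p := hG ▸ orderOf_dvd_card
      rcases (Nat.dvd_prime hp).1 h1 with h | h
      · exact absurd (orderOf_eq_one_iff.1 h) (hx.ne_one i)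
      · exact h
    rw [genus_eq, area, hG]
    simp only [ho, Finset.sum_const, Finset.card_univ, Fintype.card_fin, nsmul_eq_mul]
    ring

theorem main {G : Type} [Group G] [Fintype G] (hodd : Odd (Fintype.card G)) {r : ℕ} (hr : 4 ≤ r)
    (x : Fin r → G) (hx : IsGenVec x) (hN : numN x = (r : ℂ) - 3) :
    (∀ a b : G, a * b = b * a) ∧ genus x ≤ 7 := by
  have hre : (numN x).re = (r : ℝ) - 3 := by rw [hN]; simp
  by_cases h4 : r = 4 ∧ ∀ a b : G, a * b = b * a
  · obtain ⟨rfl, hc⟩ := h4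
    refine ⟨hc, ?_⟩
    letI : CommGroup G := { ‹Group G› with mul_comm := hc }
    exact ab_genus_le hodd x hx (by rw [hN]; push_cast; norm_num)
  by_cases h3 : Fintype.card G = 3 ∧ r ≤ 6
  · obtain ⟨h, h'⟩ := prime_card Nat.prime_three h3.1 x hx
    refine ⟨h, ?_⟩
    have hr' : (r : ℝ) ≤ 6 := by exact_mod_cast h3.2
    rw [h']
    push_cast
    linarith
  by_cases h5 : Fintype.card G = 5 ∧ r ≤ 5
  · obtain ⟨h, h'⟩ := prime_card Nat.prime_five h5.1 x hx
    refine ⟨h, ?_⟩
    have hr' : (r : ℝ) ≤ 5 := by exact_mod_cast h5.2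
    rw [h']
    push_cast
    linarith
  exact absurd (numN_gt hodd x hx hr h4 h3 h5) (by rw [hre]; exact lt_irrefl _)

end Pool.Agent.CO75
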