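import Pool.Agent.CO75.Energy

/-!
# Bounds for the losses
-/

namespace Pool.Agent.CO75

open Finset

variable {G : Type} [Group G] [Fintype G] {r : ℕ}

/-- The number of branch points of order at least `5`. -/
noncomputable def kk (x : Fin r → G) : ℕ := (univ.filter fun i => 5 ≤ orderOf (x i)).card

/-- The sum of the inverses of the orders that are at least `5`. -/
noncomputable def ss (x : Fin r → G) : ℝ :=
  ∑ i ∈ univ.filter (fun i => 5 ≤ orderOf (x i)), 1 / (orderOf (x i) : ℝ)

theorem order_cases (hodd : Odd (Fintype.card G)) {y : G} (hy : y ≠ 1) :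
    orderOf y = 3 ∨ 5 ≤ orderOf y := by
  have ho : Odd (orderOf y) := hodd.of_dvd_nat orderOf_dvd_card
  have h1 : orderOf y ≠ 1 := fun h => hy (orderOf_eq_one_iff.1 h)
  obtain ⟨k, hk⟩ := ho
  omega

theorem area_eq (hodd : Odd (Fintype.card G)) (x : Fin r → G) (h1 : ∀ i, x i ≠ 1) :
    area x = (r : ℝ) - 2 - ((r : ℝ) - kk x) / 3 - ss x := by
  unfold area
  have h := Finset.sum_filter_add_sum_filter_not (univ : Finset (Fin r))
    (fun i => 5 ≤ orderOf (x i)) (fun i => 1 / (orderOf (x i) : ℝ))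
  have h2 : ∑ i ∈ univ.filter (fun i => ¬ 5 ≤ orderOf (x i)), 1 / (orderOf (x i) : ℝ) =
      ((r : ℝ) - kk x) / 3 := by
    have hc : ((univ.filter (fun i : Fin r => ¬ 5 ≤ orderOf (x i))).card : ℝ) =
        (r : ℝ) - kk x := by
      have := Finset.card_filter_add_card_filter_not (s := (univ : Finset (Fin r)))
        (fun i => 5 ≤ orderOf (x i))
      rw [Finset.card_univ, Fintype.card_fin] at this
      have h' : (kk x : ℝ) + ((univ.filter (fun i : Fin r => ¬ 5 ≤ orderOf (x i))).card : ℝ) =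
          (r : ℝ) := by
        unfold kk
        exact_mod_cast this
      linarith
    rw [Finset.sum_congr rfl (g := fun _ => (1 : ℝ) / 3) ?_]
    · rw [Finset.sum_const, nsmul_eq_mul, hc]
      ring
    · intro i hi
      rw [Finset.mem_filter] at hi
      rcases order_cases hodd (h1 i) with h3 | h5
      · rw [h3]
        norm_num
      · exact absurd h5 hi.2
  unfold ss
  linarith

theorem kk_le (x : Fin r → G) : kk x ≤ r := by
  unfold kk
  exact (Finset.card_filter_le _ _).trans (by rw [Finset.card_univ, Fintype.card_fin])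

theorem ss_le (x : Fin r → G) : ss x ≤ (kk x : ℝ) / 5 := by
  unfold ss kk
  calc ∑ i ∈ univ.filter (fun i => 5 ≤ orderOf (x i)), 1 / (orderOf (x i) : ℝ)
      ≤ ∑ i ∈ univ.filter (fun i => 5 ≤ orderOf (x i)), (1 : ℝ) / 5 := by
        refine Finset.sum_le_sum fun i hi => ?_
        rw [Finset.mem_filter] at hi
        have : (5 : ℝ) ≤ orderOf (x i) := by exact_mod_cast hi.2
        exact one_div_le_one_div_of_le (by norm_num) this
    _ = _ := by
        rw [Finset.sum_const, nsmul_eq_mul]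
        ring

theorem row_le_kk (x : Fin r → G) {m : ℕ} (hm : 5 ≤ m) {i : Fin r} (hi : m ∣ orderOf (x i)) :
    ∑ j, (B x m i j : ℝ) ≤ (kk x : ℝ) * (Fintype.card G : ℝ) := by
  rw [← Finset.sum_filter_add_sum_filter_not (univ : Finset (Fin r))
    (fun j => 5 ≤ orderOf (x j))]
  have h0 : ∑ j ∈ univ.filter (fun j => ¬ 5 ≤ orderOf (x j)), (B x m i j : ℝ) = 0 := by
    refine Finset.sum_eq_zero fun j hj => ?_
    rw [Finset.mem_filter] at hj
    rw [B_zero x hi fun h => hj.2 (hm.trans (Nat.le_of_dvd (orderOf_pos _) h)), Nat.cast_zero]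
  rw [h0, add_zero]
  calc ∑ j ∈ univ.filter (fun j => 5 ≤ orderOf (x j)), (B x m i j : ℝ)
      ≤ ∑ j ∈ univ.filter (fun j => 5 ≤ orderOf (x j)), (Fintype.card G : ℝ) := by
        refine Finset.sum_le_sum fun j _ => ?_
        exact_mod_cast Phi_le _ _
    _ = _ := by
        rw [Finset.sum_const, nsmul_eq_mul]
        rfl

theorem loss_le (hodd : Odd (Fintype.card G)) (x : Fin r → G) (i : Fin r)
    (h5 : 5 ≤ orderOf (x i)) :
    loss x i ≤ (Fintype.card G : ℝ) * ((kk x : ℝ) * (1 - 5 / (orderOf (x i) : ℝ)) / 3) := by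
  have hN : (5 : ℝ) ≤ orderOf (x i) := by exact_mod_cast h5
  have hN0 : (0 : ℝ) < orderOf (x i) := by linarith
  have h1 : ∑ m ∈ (orderOf (x i)).divisors.filter (fun m => 5 ≤ m),
      (∑ j, (B x m i j : ℝ)) * D m ≤ (kk x : ℝ) * (Fintype.card G : ℝ) * L (orderOf (x i)) := by
    unfold L
    rw [Finset.mul_sum]
    refine Finset.sum_le_sum fun m hm => ?_
    rw [Finset.mem_filter, Nat.mem_divisors] at hm
    exact mul_le_mul_of_nonneg_right (row_le_kk x hm.2 hm.1.1) (D_nonneg hm.2)
  have hL := L_le (hodd.of_dvd_nat (orderOf_dvd_card (x := x i))) h5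
  have hk : (0 : ℝ) ≤ (kk x : ℝ) * (Fintype.card G : ℝ) := by positivity
  unfold loss
  calc 1 / (orderOf (x i) : ℝ) ^ 2 * ∑ m ∈ (orderOf (x i)).divisors.filter (fun m => 5 ≤ m),
      (∑ j, (B x m i j : ℝ)) * D m
      ≤ 1 / (orderOf (x i) : ℝ) ^ 2 * ((kk x : ℝ) * (Fintype.card G : ℝ) *
        ((orderOf (x i) : ℝ) * ((orderOf (x i) : ℝ) - 5) / 3)) := by
        refine mul_le_mul_of_nonneg_left ?_ (by positivity)
        exact h1.trans (mul_le_mul_of_nonneg_left hL hk)
    _ = _ := by
        field_simp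

theorem loss_three (x : Fin r → G) (i : Fin r) (h3 : orderOf (x i) = 3) : loss x i = 0 := by
  unfold loss
  have : (orderOf (x i)).divisors.filter (fun m => 5 ≤ m) = ∅ := by
    rw [h3]
    decide
  rw [this, Finset.sum_empty, mul_zero]

theorem loss_five (hG : Fintype.card G = 5) (x : Fin r → G) (i : Fin r) (h1 : x i ≠ 1) :
    loss x i = 0 := by
  have h5 : orderOf (x i) = 5 := by
    haveI : Fact (Nat.Prime 5) := ⟨by norm_num⟩
    have h : orderOf (x i) ∣ 5 := hG ▸ orderOf_dvd_card
    rcases (Nat.dvd_prime (by norm_num)).1 h with h | h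
    · exact absurd (orderOf_eq_one_iff.1 h) h1
    · exact h
  unfold loss
  have : (orderOf (x i)).divisors.filter (fun m => 5 ≤ m) = {5} := by
    rw [h5]
    decide
  have hD : D 5 = 0 := by
    have h := L_five
    unfold L at h
    have h' : (5 : ℕ).divisors.filter (fun m => 5 ≤ m) = {5} := by decide
    rwa [h', Finset.sum_singleton] at h
  rw [this, Finset.sum_singleton, hD, mul_zero, mul_zero]

theorem loss_seven (hG : Fintype.card G = 7) (x : Fin r → G) (i : Fin r) (h1 : x i ≠ 1) :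
    loss x i ≤ 4 * (r : ℝ) / 7 := by
  have h7 : orderOf (x i) = 7 := by
    have h : orderOf (x i) ∣ 7 := hG ▸ orderOf_dvd_card
    rcases (Nat.dvd_prime (by norm_num)).1 h with h | h
    · exact absurd (orderOf_eq_one_iff.1 h) h1
    · exact h
  have hf : (7 : ℕ).divisors.filter (fun m => 5 ≤ m) = {7} := by decide
  have hD : D 7 = 4 := by
    have h := L_seven
    unfold L at h
    rwa [hf, Finset.sum_singleton] at h
  have hrow : ∑ j, (B x 7 i j : ℝ) ≤ (r : ℝ) * 7 := by
    calc ∑ j, (B x 7 i j : ℝ) ≤ ∑ _j : Fin r, (7 : ℝ) := by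
          refine Finset.sum_le_sum fun j _ => ?_
          have := Phi_le (x j) (x i ^ (orderOf (x i) / 7))
          rw [hG] at this
          exact_mod_cast this
      _ = _ := by
          rw [Finset.sum_const, Finset.card_univ, Fintype.card_fin, nsmul_eq_mul]
  unfold loss
  rw [h7, hf, Finset.sum_singleton, hD]
  push_cast
  nlinarith

/-- The sum of the losses in general. -/
theorem sum_loss_le (hodd : Odd (Fintype.card G)) (x : Fin r → G) (h1 : ∀ i, x i ≠ 1) :
    ∑ i, loss x i ≤ (Fintype.card G : ℝ) * ((kk x : ℝ) / 3 * ((kk x : ℝ) - 5 * ss x)) := by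
  rw [← Finset.sum_filter_add_sum_filter_not (univ : Finset (Fin r))
    (fun j => 5 ≤ orderOf (x j))]
  have h0 : ∑ j ∈ univ.filter (fun j => ¬ 5 ≤ orderOf (x j)), loss x j = 0 := by
    refine Finset.sum_eq_zero fun j hj => ?_
    rw [Finset.mem_filter] at hj
    rcases order_cases hodd (h1 j) with h3 | h5
    · exact loss_three x j h3
    · exact absurd h5 hj.2
  rw [h0, add_zero]
  calc ∑ j ∈ univ.filter (fun j => 5 ≤ orderOf (x j)), loss x j
      ≤ ∑ j ∈ univ.filter (fun j => 5 ≤ orderOf (x j)),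
        (Fintype.card G : ℝ) * ((kk x : ℝ) * (1 - 5 / (orderOf (x j) : ℝ)) / 3) := by
        refine Finset.sum_le_sum fun j hj => ?_
        rw [Finset.mem_filter] at hj
        exact loss_le hodd x j hj.2
    _ = (Fintype.card G : ℝ) * ((kk x : ℝ) / 3 *
        ∑ j ∈ univ.filter (fun j => 5 ≤ orderOf (x j)), (1 - 5 * (1 / (orderOf (x j) : ℝ)))) := by
        rw [Finset.mul_sum, Finset.mul_sum]
        refine Finset.sum_congr rfl fun j _ => ?_
        ring
    _ = _ := by
        rw [Finset.sum_sub_distrib, ← Finset.mul_sum, Finset.sum_const, nsmul_eq_mul, mul_one]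
        rfl

end Pool.Agent.CO75
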