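import Pool.Agent.CO75.OverDefs
import Pool.Agent.CO75.LossBd

/-!
# Covers of curves of positive genus

The number for `(h; r)` differs from the one for `(0; r)` by an elementary term, and the lower bound
for `E` excludes all groups of odd order except in very small cases.
-/

namespace Pool.Agent.CO75

open Finset

variable {G : Type} [Group G] [Fintype G] {r : ℕ}

theorem genusOver_eq (h : ℕ) (x : Fin r → G) :
    genusOver h x = genus x + (Fintype.card G : ℝ) * h := by
  unfold genusOver genus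
  ring

open Classical in
theorem eichlerOver_eq (h : ℕ) (x : Fin r → G) (γ : G) :
    eichlerOver h x γ = eichler x γ + if γ = 1 then (Fintype.card G : ℂ) * h else 0 := by
  unfold eichlerOver eichler
  by_cases hγ : γ = 1
  · simp only [if_pos hγ, genusOver_eq]
    push_cast
    ring
  · simp only [if_neg hγ, add_zero]

private theorem sq_eq_one_iff' (hodd : Odd (Fintype.card G)) (γ : G) : γ ^ 2 = 1 ↔ γ = 1 := by
  constructor
  · intro h
    have h1 : orderOf γ ∣ 2 := orderOf_dvd_of_pow_eq_one h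
    have h2 : orderOf γ ∣ Fintype.card G := orderOf_dvd_card
    have h3 : Nat.Coprime 2 (Fintype.card G) := (Nat.coprime_two_left).2 hodd
    have h4 : orderOf γ ∣ 1 := by
      rw [← h3]
      exact Nat.dvd_gcd h1 h2
    exact orderOf_eq_one_iff.1 (Nat.dvd_one.1 h4)
  · rintro rfl
    exact one_pow 2

theorem numOver_eq (hodd : Odd (Fintype.card G)) (h : ℕ) (x : Fin r → G) :
    numOver h x = numN x + h * (genus x : ℂ) + (Fintype.card G : ℂ) * h ^ 2 / 2 + h / 2 := by
  classical
  have hn : (Fintype.card G : ℂ) ≠ 0 := by exact_mod_cast Fintype.card_ne_zero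
  have key : ∀ γ : G, eichlerOver h x γ ^ 2 + eichlerOver h x (γ ^ 2) =
      (eichler x γ ^ 2 + eichler x (γ ^ 2)) + if γ = 1 then
        2 * (Fintype.card G : ℂ) * h * (genus x : ℂ) + ((Fintype.card G : ℂ) * h) ^ 2 +
          (Fintype.card G : ℂ) * h else 0 := by
    intro γ
    rw [eichlerOver_eq, eichlerOver_eq]
    simp only [sq_eq_one_iff' hodd γ]
    by_cases hγ : γ = 1
    · subst hγ
      have : eichler x (1 : G) = (genus x : ℂ) := by unfold eichler; simp
      simp only [if_pos, one_pow, this]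
      ring
    · simp only [if_neg hγ, add_zero]
  unfold numOver numN
  rw [Finset.sum_congr rfl (fun γ _ => key γ), sum_add_distrib, sum_ite_eq' univ (1 : G)]
  simp only [mem_univ, if_true]
  field_simp
  ring

theorem eight_numOver (hodd : Odd (Fintype.card G)) (h : ℕ) (x : Fin r → G) :
    8 * (numOver h x).re = (Fintype.card G : ℝ) * (area x + 2 * h) ^ 2 - 4 + 12 * h + E x := by
  have h8 := eight_numN hodd x
  have hre : (numOver h x).re = (numN x).re + h * genus x + (Fintype.card G : ℝ) * h ^ 2 / 2 +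
      h / 2 := by
    rw [numOver_eq hodd]
    have e1 : ((h : ℂ) * (genus x : ℂ)) = ((h * genus x : ℝ) : ℂ) := by push_cast; ring
    have e2 : ((Fintype.card G : ℂ) * (h : ℂ) ^ 2 / 2) =
        (((Fintype.card G : ℝ) * h ^ 2 / 2 : ℝ) : ℂ) := by push_cast; ring
    have e3 : ((h : ℂ) / 2) = ((h / 2 : ℝ) : ℂ) := by push_cast; ring
    rw [e1, e2, e3]
    simp only [Complex.add_re, Complex.ofReal_re]
  rw [hre, genus_eq]
  linarith

/-- Covers of curves of positive genus with a group of odd order. -/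
theorem over_pos (hodd : Odd (Fintype.card G)) {h : ℕ} (hh : 1 ≤ h) (x : Fin r → G)
    (h1 : ∀ i, x i ≠ 1) (hN : numOver h x = 3 * (h : ℂ) - 3 + r) :
    (Fintype.card G = 1 ∧ (h = 2 ∨ h = 3)) ∨ (Fintype.card G = 3 ∧ h = 1 ∧ r ≤ 3) := by
  have hre : (numOver h x).re = 3 * (h : ℝ) - 3 + r := by rw [hN]; simp
  have h8 := eight_numOver hodd h x
  rw [hre] at h8
  have hh' : (1 : ℝ) ≤ h := by exact_mod_cast hh
  have hr0 : (0 : ℝ) ≤ r := Nat.cast_nonneg r
  have hcard : 0 < Fintype.card G := Fintype.card_pos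
  by_cases hn5 : 5 ≤ Fintype.card G
  · exfalso
    have hn : (5 : ℝ) ≤ Fintype.card G := by exact_mod_cast hn5
    have hE := E_ge hodd x
    have hL := sum_loss_le hodd x h1
    have ha := area_eq hodd x h1
    have hk : (kk x : ℝ) ≤ r := by exact_mod_cast kk_le x
    have hk0 : (0 : ℝ) ≤ kk x := Nat.cast_nonneg _
    have hs := ss_le x
    have hs0 : 0 ≤ ss x := sum_nonneg fun i _ => by positivity
    rw [ha] at h8
    set k : ℝ := (kk x : ℝ)
    set s : ℝ := ss x
    set n : ℝ := (Fintype.card G : ℝ)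
    set u : ℝ := (h : ℝ) - 1 with hu
    have hu0 : 0 ≤ u := by linarith
    have hA : (r : ℝ) - 2 - ((r : ℝ) - k) / 3 - s + 2 * (h : ℝ) =
        2 * u + ((2 * r + k) / 3 - s) := by rw [hu]; ring
    rw [hA] at h8
    have hq : 2 * (r : ℝ) / 3 ≤ (2 * r + k) / 3 - s := by linarith
    -- the quadratic bound
    have hd : 4 * (r : ℝ) ^ 2 / 9 ≤ ((2 * r + k) / 3 - s) ^ 2 - k / 3 * (k - 5 * s) := by
      have e : ((2 * r + k) / 3 - s) ^ 2 - k / 3 * (k - 5 * s) - 4 * (r : ℝ) ^ 2 / 9 =
          (4 * r * k - 2 * k ^ 2) / 9 + (3 * k - 4 * r) * s / 3 + s ^ 2 := by ring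
      have e2 : 0 ≤ (4 * r * k - 2 * k ^ 2) / 9 + (3 * k - 4 * r) * s / 3 + s ^ 2 := by
        by_cases hc : 4 * r ≤ 3 * k
        · have : 0 ≤ (3 * k - 4 * r) * s := mul_nonneg (by linarith) hs0
          nlinarith [mul_nonneg hk0 (sub_nonneg.2 hk), sq_nonneg s]
        · have : 0 ≤ (4 * r - 3 * k) * (k / 5 - s) := mul_nonneg (by linarith) (by linarith)
          nlinarith [mul_nonneg hk0 (sub_nonneg.2 hk), sq_nonneg s]
      linarith
    have hd2 : 4 * u ^ 2 + 8 * u * r / 3 + 4 * (r : ℝ) ^ 2 / 9 ≤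
        (2 * u + ((2 * r + k) / 3 - s)) ^ 2 - k / 3 * (k - 5 * s) := by
      nlinarith [mul_nonneg hu0 (sub_nonneg.2 hq)]
    have hfin : n * (4 * u ^ 2 + 8 * u * r / 3 + 4 * (r : ℝ) ^ 2 / 9) ≤ 12 * u - 8 + 8 * r := by
      have e3 : n * (4 * u ^ 2 + 8 * u * r / 3 + 4 * (r : ℝ) ^ 2 / 9) ≤
          n * ((2 * u + ((2 * r + k) / 3 - s)) ^ 2 - k / 3 * (k - 5 * s)) :=
        mul_le_mul_of_nonneg_left hd2 (by linarith)
      rw [mul_sub] at e3
      rw [hu]
      rw [hu] at e3 h8
      linarith
    have hpos : 0 ≤ 4 * u ^ 2 + 8 * u * r / 3 + 4 * (r : ℝ) ^ 2 / 9 := by positivity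
    have hfin5 : 5 * (4 * u ^ 2 + 8 * u * r / 3 + 4 * (r : ℝ) ^ 2 / 9) ≤ 12 * u - 8 + 8 * r :=
      le_trans (mul_le_mul_of_nonneg_right hn hpos) hfin
    by_cases h2 : h = 1
    · have hu1 : u = 0 := by rw [hu, h2]; norm_num
      rw [hu1] at hfin5
      nlinarith [sq_nonneg ((r : ℝ) - 9 / 5)]
    · have hu1 : 1 ≤ u := by
        have : (2 : ℝ) ≤ h := by exact_mod_cast (by omega : 2 ≤ h)
        rw [hu]; linarith
      nlinarith [mul_nonneg hu0 hr0, mul_nonneg (sub_nonneg.2 hu1) hr0, sq_nonneg (r : ℝ),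
        mul_nonneg hu0 (sub_nonneg.2 hu1)]
  · have hn : Fintype.card G = 1 ∨ Fintype.card G = 3 := by
      obtain ⟨t, ht⟩ := hodd
      omega
    rcases hn with hn | hn
    · left
      have hr : r = 0 := by
        by_contra hr
        have i : Fin r := ⟨0, Nat.pos_of_ne_zero hr⟩
        have hs : Subsingleton G := Fintype.card_le_one_iff_subsingleton.1 (by omega)
        exact h1 i (Subsingleton.elim _ _)
      subst hr
      have hE : E x = 0 := by
        have hs : Subsingleton G := Fintype.card_le_one_iff_subsingleton.1 (by omega)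
        unfold E
        rw [Finset.sum_eq_zero, mul_zero]
        intro γ hγ
        exact absurd (Subsingleton.elim γ 1) (@ne_of_mem_erase _ (_) _ _ _ hγ)
      refine ⟨hn, ?_⟩
      rw [hE, hn] at h8
      simp [area] at h8
      have h9 : ((h : ℝ) - 2) * ((h : ℝ) - 3) = 0 := by nlinarith
      rcases mul_eq_zero.1 h9 with h' | h'
      · left
        have : (h : ℝ) = 2 := by linarith
        exact_mod_cast this
      · right
        have : (h : ℝ) = 3 := by linarith
        exact_mod_cast this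
    · right
      have h3 : ∀ i, orderOf (x i) = 3 := by
        intro i
        have hd : orderOf (x i) ∣ 3 := hn ▸ orderOf_dvd_card
        rcases (Nat.dvd_prime Nat.prime_three).1 hd with h' | h'
        · exact absurd (orderOf_eq_one_iff.1 h') (h1 i)
        · exact h'
      have hE := E_ge_three x h3 (by omega)
      have ha : area x = 2 * r / 3 - 2 := by
        rw [area]
        simp only [h3, sum_const, card_univ, Fintype.card_fin, nsmul_eq_mul]
        push_cast
        ring
      rw [hn] at hE h8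
      rw [ha] at h8
      push_cast at hE h8
      norm_num at hE
      refine ⟨hn, ?_⟩
      by_cases h2 : h = 1
      · refine ⟨h2, ?_⟩
        by_contra hr
        have hr4 : (4 : ℝ) ≤ r := by exact_mod_cast (by omega : 4 ≤ r)
        rw [h2] at h8
        push_cast at h8
        nlinarith
      · exfalso
        have hh2 : (2 : ℝ) ≤ h := by exact_mod_cast (by omega : 2 ≤ h)
        nlinarith [mul_nonneg (sub_nonneg.2 hh2) hr0, mul_nonneg hr0 hr0,
          mul_nonneg (sub_nonneg.2 hh2) (sub_nonneg.2 hh2)]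

end Pool.Agent.CO75
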