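import Pool.Agent.CO75.Final
import Pool.Agent.CO75.Over

/-!
# Groups of odd order and base curves of any genus: the genus is at most seven
-/

namespace Pool.Agent.CO75

open Finset

variable {G : Type} [Group G] [Fintype G] {r : ℕ}

theorem IsGenData.toGenVec {a b : Fin 0 → G} {x : Fin r → G} (h : IsGenData 0 a b x) :
    IsGenVec x where
  ne_one := h.ne_one
  prod_eq := by
    have := h.prod_eq
    simpa using this
  gen := by
    have := h.gen
    rwa [Set.range_eq_empty a, Set.range_eq_empty b, Set.empty_union, Set.empty_union] at this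

theorem main_over (hodd : Odd (Fintype.card G)) {h : ℕ} (a b : Fin h → G) (x : Fin r → G)
    (hx : IsGenData h a b x) (hr : 4 ≤ 3 * h + r) (hN : numOver h x = 3 * (h : ℂ) - 3 + r) :
    (∀ y z : G, y * z = z * y) ∧ genusOver h x ≤ 7 := by
  rcases Nat.eq_zero_or_pos h with h0 | hpos
  · subst h0
    have hN' : numN x = (r : ℂ) - 3 := by
      have := numOver_eq hodd 0 x
      rw [hN] at this
      push_cast at this
      linear_combination -this
    have hm := main hodd (by omega) x hx.toGenVec hN'
    refine ⟨hm.1, ?_⟩
    rw [genusOver_eq]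
    simpa using hm.2
  · rcases over_pos hodd hpos x hx.ne_one hN with ⟨hn, hh⟩ | ⟨hn, hh, hr3⟩
    · have hs : Subsingleton G := Fintype.card_le_one_iff_subsingleton.1 (by omega)
      refine ⟨fun y z => Subsingleton.elim _ _, ?_⟩
      have hr0 : r = 0 := by
        by_contra hr
        exact hx.ne_one ⟨0, Nat.pos_of_ne_zero hr⟩ (Subsingleton.elim _ _)
      subst hr0
      rw [genusOver, hn]
      rcases hh with rfl | rfl <;> norm_num
    · haveI : Fact (Nat.Prime 3) := ⟨Nat.prime_three⟩
      have hc : IsCyclic G := isCyclic_of_prime_card (p := 3) (by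
        rw [Nat.card_eq_fintype_card, hn])
      constructor
      · intro y z
        obtain ⟨g, hg⟩ := hc.exists_generator
        obtain ⟨k, rfl⟩ := hg y
        obtain ⟨l, rfl⟩ := hg z
        simp only [← zpow_add, add_comm]
      · have ho : ∀ i, orderOf (x i) = 3 := by
          intro i
          have h1 : orderOf (x i) ∣ 3 := hn ▸ orderOf_dvd_card
          rcases (Nat.dvd_prime Nat.prime_three).1 h1 with h | h
          · exact absurd (orderOf_eq_one_iff.1 h) (hx.ne_one i)
          · exact h
        rw [genusOver, hn, hh]
        simp only [ho, sum_const, card_univ, Fintype.card_fin, nsmul_eq_mul]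
        have : (r : ℝ) ≤ 3 := by exact_mod_cast hr3
        push_cast
        linarith

end Pool.Agent.CO75
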