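import Pool.Agent.CO75.ZCheck

/-!
# The tables

PLAN. For each value of `m` (and `d`), `by decide +kernel`; split into several auxiliary theorems, about
1 ms per tuple (`m²/2` tuples), and several hundred lines are not needed: for example
`interval_cases` on `m` with one lemma per value. `chk_big` (order `3`, `d = m/3`) is the largest.
-/

namespace Pool.Agent.CO75

private theorem allB_spec {p : ℕ → Bool} : ∀ {n : ℕ}, allB p n = true → ∀ i, i < n → p i = true
  | 0, _, i, hi => absurd hi (Nat.not_lt_zero i)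
  | n + 1, h, i, hi => by
    have h' : (p n && allB p n) = true := h
    rw [Bool.and_eq_true] at h'
    rcases Nat.lt_succ_iff_lt_or_eq.mp hi with hlt | heq
    · exact allB_spec h'.2 i hlt
    · rw [heq]; exact h'.1

private theorem t3 : allB (fun i => chk (3 * (2 * i + 5)) (2 * i + 5)) 18 = true := by
  decide +kernel

private theorem t5 : allB (fun i => chk (5 * (2 * i + 3)) (2 * i + 3)) 7 = true := by
  decide +kernel

private theorem t7 : allB (fun i => chk (7 * (2 * i + 3)) (2 * i + 3)) 3 = true := by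
  decide +kernel

private theorem tr : allB (fun i => allB (fun j =>
    !(Nat.beq ((2 * i + 11) % (j + 1)) 0) || Nat.blt ((2 * i + 11) / (j + 1)) 9 ||
      chk (2 * i + 11) (j + 1)) 6) 22 = true := by
  decide +kernel

/-- Order `3`: `m = 3 d`. -/
theorem tab_three : ∀ d, 5 ≤ d → d ≤ 39 → Odd d → chk (3 * d) d = true := by
  intro d h5 h39 hd
  obtain ⟨k, rfl⟩ := hd
  have h := allB_spec t3 (k - 2) (by omega)
  have e : 2 * (k - 2) + 5 = 2 * k + 1 := by omega
  simpa only [e] using h

/-- Order `5`: `m = 5 d`. -/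
theorem tab_five : ∀ d, 3 ≤ d → d ≤ 16 → Odd d → chk (5 * d) d = true := by
  intro d h5 h39 hd
  obtain ⟨k, rfl⟩ := hd
  have h := allB_spec t5 (k - 1) (by omega)
  have e : 2 * (k - 1) + 3 = 2 * k + 1 := by omega
  simpa only [e] using h

/-- Order `7`: `m = 7 d`. -/
theorem tab_seven : ∀ d, 3 ≤ d → d ≤ 8 → Odd d → chk (7 * d) d = true := by
  intro d h5 h39 hd
  obtain ⟨k, rfl⟩ := hd
  have h := allB_spec t7 (k - 1) (by omega)
  have e : 2 * (k - 1) + 3 = 2 * k + 1 := by omega
  simpa only [e] using h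

/-- Order at least `9`. -/
theorem tab_rest : ∀ m, 11 ≤ m → m ≤ 54 → Odd m → ∀ d, 0 < d → d ∣ m → 9 ≤ m / d →
    chk m d = true := by
  intro m h11 h54 hm d hd hdm h9
  obtain ⟨k, rfl⟩ := hm
  have hd6 : d ≤ 6 := by
    have h1 : 9 * d ≤ 2 * k + 1 := (Nat.le_div_iff_mul_le hd).mp h9
    omega
  have h := allB_spec tr (k - 5) (by omega)
  have h' := allB_spec h (d - 1) (by omega)
  have e : 2 * (k - 5) + 11 = 2 * k + 1 := by omega
  have e' : d - 1 + 1 = d := by omega
  simp only [e, e', Bool.or_eq_true] at h'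
  rcases h' with (h1 | h1) | h1
  · exfalso
    have : (2 * k + 1) % d = 0 := Nat.mod_eq_zero_of_dvd hdm
    rw [this] at h1
    revert h1
    decide
  · exfalso
    have h2 : (2 * k + 1) / d < 9 := by
      have := Nat.blt_eq (x := (2 * k + 1) / d) (y := 9)
      exact this.mp h1
    omega
  · exact h1

end Pool.Agent.CO75
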