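import Pool.Agent.CO75.ZBound
import Pool.Agent.CO75.ZTab

/-!
# The count is at least three for modulus at least eleven

PLAN. Suppose `cnt m a ≤ 2`; then `m * ∑ vv (N i) ≤ 4` (`var_bound`), `N i = addOrderOf (a i)` odd `≥ 3`
dividing `m`. `vv` is increasing, `vv 3 > -0.0031`, `vv 5 > 0.0123`, `vv 7 > 0.0165`, `vv 9 > 0.0182`,
`vv 39 > 0.0206`. Let `N 0` be minimal (`cnt_perm`), and `a 0 = d` with `d = m / N 0`
(`exists_unit_mul_eq`, `cnt_unit_mul`). If `N 0 ≥ 9` then `m ≤ 54`; if `N 0 = 7` then `m ≤ 60`; if `N 0 = 5`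
then `m ≤ 80`; if `N 0 = 3` and only one order is `3` then `m ≤ 117`; if two orders are `3`, then the
other two are at least `m / 3` (each `a i` is minus the sum of the others and they generate), so
`m ≤ 117` too; three orders `3` would give `m = 3`. Then `chk_spec` with the tables.
-/

namespace Pool.Agent.CO75

open Finset

private theorem zm_mono {n N : ℕ} (h0 : 1 ≤ n) (h : n ≤ N) : vv n ≤ vv N := by
  unfold vv
  have h1 : (1 : ℝ) ≤ n := by exact_mod_cast h0
  have h2 : (n : ℝ) ≤ N := by exact_mod_cast h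
  have h3 : (n : ℝ) ^ 2 ≤ (N : ℝ) ^ 2 := by gcongr
  have h4 : (n : ℝ) ^ 4 ≤ (N : ℝ) ^ 4 := by gcongr
  have h5 : 5 / (24 * (N : ℝ) ^ 2) ≤ 5 / (24 * (n : ℝ) ^ 2) := by gcongr
  have h6 : 1 / (16 * (N : ℝ) ^ 4) ≤ 1 / (16 * (n : ℝ) ^ 4) := by gcongr
  linarith

private theorem zm_v3 : vv 3 = -(1 / 324) := by unfold vv; norm_num
private theorem zm_v5 : (0.0123 : ℝ) < vv 5 := by unfold vv; norm_num
private theorem zm_v7 : (0.0165 : ℝ) < vv 7 := by unfold vv; norm_num
private theorem zm_v9 : (0.0182 : ℝ) < vv 9 := by unfold vv; norm_num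
private theorem zm_v40 : (0.0206 : ℝ) < vv 40 := by unfold vv; norm_num

private theorem zm_dvd {m : ℕ} [NeZero m] {a : Fin 4 → ZMod m} (h : Adm m a) {p q r s : Fin 4}
    (hs : a p + a q + a r + a s = 0) (hall : ∀ i, i = p ∨ i = q ∨ i = r ∨ i = s) {k : ℕ}
    (hp : (k : ZMod m) * a p = 0) (hq : (k : ZMod m) * a q = 0) (hr : (k : ZMod m) * a r = 0) : m ∣ k := by
  rw [← ZMod.natCast_eq_zero_iff]
  refine h.gen _ fun i => ?_
  rcases hall i with rfl | rfl | rfl | rfl
  · exact hp
  · exact hq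
  · exact hr
  · linear_combination (k : ZMod m) * hs - hp - hq - hr

private theorem zm_ord {m : ℕ} [NeZero m] (x : ZMod m) : (addOrderOf x : ZMod m) * x = 0 := by
  rw [← nsmul_eq_mul]; exact addOrderOf_nsmul_eq_zero x

/-- two coordinates of order three: the others have order at least `m / 3` -/
private theorem zm_two {m : ℕ} [NeZero m] {a : Fin 4 → ZMod m} (h : Adm m a) {p q r s : Fin 4}
    (hs : a p + a q + a r + a s = 0) (hall : ∀ i, i = p ∨ i = q ∨ i = r ∨ i = s)
    (hp : addOrderOf (a p) = 3) (hq : addOrderOf (a q) = 3) (hr0 : 0 < addOrderOf (a r)) :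
    m ≤ 3 * addOrderOf (a r) := by
  have h1 := zm_ord (a p)
  have h2 := zm_ord (a q)
  have h3 := zm_ord (a r)
  rw [hp] at h1
  rw [hq] at h2
  refine Nat.le_of_dvd (by omega) (zm_dvd h hs hall ?_ ?_ ?_)
  · push_cast at h1 ⊢
    linear_combination (addOrderOf (a r) : ZMod m) * h1
  · push_cast at h2 ⊢
    linear_combination (addOrderOf (a r) : ZMod m) * h2
  · push_cast
    linear_combination 3 * h3

private theorem zm_bound {m : ℕ} [NeZero m] (h11 : 11 ≤ m) (a : Fin 4 → ZMod m)
    (h : Adm m a) (h0 : addOrderOf (a 0) = 3) (h35 : ∀ i, addOrderOf (a i) = 3 ∨ 5 ≤ addOrderOf (a i))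
    (hv : (m : ℝ) * ∑ i, vv (addOrderOf (a i)) ≤ 4) : m ≤ 117 := by
  by_contra hcon
  have hm : (118 : ℝ) ≤ m := by exact_mod_cast (by omega : 118 ≤ m)
  have hs := h.sum_eq
  rw [Fin.sum_univ_four] at hs hv
  have hpos : ∀ i, 0 < addOrderOf (a i) := fun i => by rcases h35 i with h | h <;> omega
  have big : ∀ i, m ≤ 3 * addOrderOf (a i) → (0.0206 : ℝ) < vv (addOrderOf (a i)) := fun i hi =>
    zm_v40.trans_le (zm_mono (by norm_num) (by omega))
  have five : ∀ i, 5 ≤ addOrderOf (a i) → (0.0123 : ℝ) < vv (addOrderOf (a i)) := fun i hi =>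
    zm_v5.trans_le (zm_mono (by norm_num) hi)
  have fin : ∀ x : ℝ, 0.034 < x → ¬ ((m : ℝ) * x ≤ 4) := by
    intro x hx hmx
    have h1 : (118 : ℝ) * 0.034 ≤ m * x := by
      apply mul_le_mul hm hx.le (by norm_num) (by positivity)
    norm_num at h1
    linarith
  have v0 : vv (addOrderOf (a 0)) = -(1 / 324) := by rw [h0]; exact zm_v3
  rcases h35 1 with h1 | h1
  · have hr2 := zm_two h (p := 0) (q := 1) (r := 2) (s := 3) (by linear_combination hs) (by decide) h0 h1 (hpos 2)
    have hr3 := zm_two h (p := 0) (q := 1) (r := 3) (s := 2) (by linear_combination hs) (by decide) h0 h1 (hpos 3)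
    have v1 : vv (addOrderOf (a 1)) = -(1 / 324) := by rw [h1]; exact zm_v3
    refine fin _ ?_ hv
    have := big 2 hr2
    have := big 3 hr3
    rw [v0, v1]
    norm_num at *
    linarith
  · rcases h35 2 with h2 | h2
    · have hr1 := zm_two h (p := 0) (q := 2) (r := 1) (s := 3) (by linear_combination hs) (by decide) h0 h2 (hpos 1)
      have hr3 := zm_two h (p := 0) (q := 2) (r := 3) (s := 1) (by linear_combination hs) (by decide) h0 h2 (hpos 3)
      have v2 : vv (addOrderOf (a 2)) = -(1 / 324) := by rw [h2]; exact zm_v3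
      refine fin _ ?_ hv
      have := big 1 hr1
      have := big 3 hr3
      rw [v0, v2]
      norm_num at *
      linarith
    · rcases h35 3 with h3 | h3
      · have hr1 := zm_two h (p := 0) (q := 3) (r := 1) (s := 2) (by linear_combination hs) (by decide) h0 h3 (hpos 1)
        have hr2 := zm_two h (p := 0) (q := 3) (r := 2) (s := 1) (by linear_combination hs) (by decide) h0 h3 (hpos 2)
        have v3 : vv (addOrderOf (a 3)) = -(1 / 324) := by rw [h3]; exact zm_v3
        refine fin _ ?_ hv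
        have := big 1 hr1
        have := big 2 hr2
        rw [v0, v3]
        norm_num at *
        linarith
      · have w1 := five 1 h1
        have w2 := five 2 h2
        have w3 := five 3 h3
        have : (m : ℝ) * (vv (addOrderOf (a 0)) + vv (addOrderOf (a 1)) + vv (addOrderOf (a 2)) +
            vv (addOrderOf (a 3))) ≤ 4 := hv
        refine fin _ ?_ hv
        rw [v0]
        have e5 : (0.0124 : ℝ) ≤ vv 5 := by unfold vv; norm_num
        have u1 : (0.0124 : ℝ) ≤ vv (addOrderOf (a 1)) := e5.trans (zm_mono (by norm_num) h1)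
        have u2 : (0.0124 : ℝ) ≤ vv (addOrderOf (a 2)) := e5.trans (zm_mono (by norm_num) h2)
        have u3 : (0.0124 : ℝ) ≤ vv (addOrderOf (a 3)) := e5.trans (zm_mono (by norm_num) h3)
        norm_num at *
        linarith

private theorem zm_le {m n B : ℕ} {c : ℝ} {N : Fin 4 → ℕ} (hn : 1 ≤ n) (hN : ∀ i, n ≤ N i) (hc : c < vv n)
    (hB : 4 < ((B : ℝ) + 1) * (4 * c)) (hc0 : 0 < c)
    (hv : (m : ℝ) * ∑ i, vv (N i) ≤ 4) : m ≤ B := by
  by_contra hcon
  have hm : (B : ℝ) + 1 ≤ m := by exact_mod_cast (by omega : B + 1 ≤ m)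
  rw [Fin.sum_univ_four] at hv
  have h : ∀ i, c ≤ vv (N i) := fun i => hc.le.trans (zm_mono hn (hN i))
  have h0 := h 0
  have h1 := h 1
  have h2 := h 2
  have h3 := h 3
  have h4 : ((B : ℝ) + 1) * (4 * c) ≤ m * (vv (N 0) + vv (N 1) + vv (N 2) + vv (N 3)) := by
    apply mul_le_mul hm (by linarith) (by linarith) (by positivity)
  linarith

private theorem zm_main {m : ℕ} [NeZero m] (hm : Odd m) (h11 : 11 ≤ m) (a : Fin 4 → ZMod m)
    (h : Adm m a) (hmin : ∀ i, addOrderOf (a 0) ≤ addOrderOf (a i)) : 3 ≤ cnt m a := by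
  by_contra hcon
  have hv := var_bound hm a h (by omega)
  have hdvd : ∀ i, addOrderOf (a i) ∣ m := fun i => by
    have := addOrderOf_dvd_card (x := a i)
    rwa [ZMod.card] at this
  have hodd : ∀ i, Odd (addOrderOf (a i)) := fun i => Odd.of_dvd_nat hm (hdvd i)
  have hne1 : ∀ i, addOrderOf (a i) ≠ 1 := fun i h1 => h.ne_zero i (AddMonoid.addOrderOf_eq_one_iff.1 h1)
  have h3 : ∀ i, 3 ≤ addOrderOf (a i) := by
    intro i
    obtain ⟨t, ht⟩ := hodd i
    have := hne1 i
    omega
  have h35 : ∀ i, addOrderOf (a i) = 3 ∨ 5 ≤ addOrderOf (a i) := by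
    intro i
    obtain ⟨t, ht⟩ := hodd i
    have := h3 i
    omega
  obtain ⟨u, d, hd, hu⟩ := exists_unit_mul_eq (a 0)
  have hm0 : 0 < m := by omega
  have hd0 : 0 < d := Nat.pos_of_dvd_of_pos hd hm0
  have hN0 : addOrderOf (a 0) = m / d := by
    have e1 : addOrderOf ((u : ZMod m) * a 0) = addOrderOf (a 0) := by
      have := addOrderOf_injective (AddMonoidHom.mulLeft (u : ZMod m)) (by
        intro x y hxy
        exact u.isUnit.mul_left_cancel hxy) (a 0)
      exact this
    rw [← e1, hu, ZMod.addOrderOf_coe d (by omega), Nat.gcd_eq_right hd]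
  have hmd : addOrderOf (a 0) * d = m := by rw [hN0]; exact Nat.div_mul_cancel hd
  have hdm : d < m := by
    have := h3 0
    nlinarith
  have hdodd : Odd d := Odd.of_dvd_nat hm hd
  have key : chk m d = true → False := by
    intro hc
    have h4 := chk_spec hm hd0 hdm hc (fun i => (u : ZMod m) * a i) (h.unit_mul u) hu
    rw [cnt_unit_mul] at h4
    omega
  rcases Nat.lt_or_ge (addOrderOf (a 0)) 9 with h9 | h9
  · have hcase : addOrderOf (a 0) = 3 ∨ addOrderOf (a 0) = 5 ∨ addOrderOf (a 0) = 7 := by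
      obtain ⟨t, ht⟩ := hodd 0
      have := h3 0
      omega
    rcases hcase with hN | hN | hN
    · have hle := zm_bound h11 a h hN h35 hv
      rw [hN] at hmd
      subst hmd
      obtain ⟨t, ht⟩ := hdodd
      exact key (tab_three d (by omega) (by omega) ⟨t, ht⟩)
    · have hle : m ≤ 81 := zm_le (n := 5) (c := 0.0123) (N := fun i => addOrderOf (a i)) (by norm_num)
        (fun i => by rw [← hN]; exact hmin i) zm_v5 (by norm_num) (by norm_num) hv
      rw [hN] at hmd
      subst hmd
      obtain ⟨t, ht⟩ := hdodd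
      exact key (tab_five d (by omega) (by omega) ⟨t, ht⟩)
    · have hle : m ≤ 60 := zm_le (n := 7) (c := 0.0165) (N := fun i => addOrderOf (a i)) (by norm_num)
        (fun i => by rw [← hN]; exact hmin i) zm_v7 (by norm_num) (by norm_num) hv
      rw [hN] at hmd
      subst hmd
      obtain ⟨t, ht⟩ := hdodd
      exact key (tab_seven d (by omega) (by omega) ⟨t, ht⟩)
  · have hle : m ≤ 54 := zm_le (n := 9) (c := 0.0182) (N := fun i => addOrderOf (a i)) (by norm_num)
        (fun i => h9.trans (hmin i)) zm_v9 (by norm_num) (by norm_num) hv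
    exact key (tab_rest m h11 hle hm d hd0 hd (by rw [← hN0]; exact h9))

theorem cnt_ge_three {m : ℕ} [NeZero m] (hm : Odd m) (h11 : 11 ≤ m) (a : Fin 4 → ZMod m)
    (h : Adm m a) : 3 ≤ cnt m a := by
  obtain ⟨i0, hi0⟩ := Finite.exists_min fun i => addOrderOf (a i)
  rw [← cnt_perm (Equiv.swap 0 i0) a]
  refine zm_main hm h11 _ (h.perm _) fun i => ?_
  rw [Function.comp_apply, Function.comp_apply, Equiv.swap_apply_left]
  exact hi0 _

end Pool.Agent.CO75
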