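import Pool.Agent.CO75.ZCount

/-!
# Modulus three, five, seven and nine

PLAN. Finite checks (`decide +kernel` on a suitable decidable statement, for example over
`a 0, a 1, a 2 : ZMod m` with `a 3 = -(a 0 + a 1 + a 2)`; `9³ = 729` tuples).
-/

namespace Pool.Agent.CO75

open Finset

/-- the middle condition in natural numbers -/
private def midN (m x y z w k : ℕ) : Bool :=
  (!(k * x % m == 0)) && (!(k * y % m == 0)) && (!(k * z % m == 0)) && (!(k * w % m == 0)) &&
    (k * x % m + k * y % m + k * z % m + k * w % m == 2 * m)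

/-- number of middle multiples, in natural numbers -/
private def cntN (m x y z w : ℕ) : ℕ := ((List.range m).filter (midN m x y z w)).length

private def genN (m x y z w : ℕ) : Bool :=
  (List.range m).all fun k => (k == 0) || (!(k * x % m == 0)) || (!(k * y % m == 0)) ||
    (!(k * z % m == 0)) || (!(k * w % m == 0))

private def admN (m x y z w : ℕ) : Bool :=
  (!(x == 0)) && (!(y == 0)) && (!(z == 0)) && (!(w == 0)) && ((x + y + z + w) % m == 0) &&
    genN m x y z w

private theorem mid_iff {m : ℕ} [NeZero m] (a : Fin 4 → ZMod m) (k : ZMod m) :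
    ((∀ i, k * a i ≠ 0) ∧ ∑ i, (k * a i).val = 2 * m) ↔
      midN m (a 0).val (a 1).val (a 2).val (a 3).val k.val = true := by
  have hz : ∀ x : ZMod m, x ≠ 0 ↔ x.val ≠ 0 := fun x => (ZMod.val_eq_zero x).not.symm
  simp only [hz, ZMod.val_mul, Fin.forall_fin_succ, Fin.sum_univ_four, midN]
  simp [and_assoc]

private theorem cnt_eqN {m : ℕ} [NeZero m] (a : Fin 4 → ZMod m) :
    cnt m a = cntN m (a 0).val (a 1).val (a 2).val (a 3).val := by
  have h1 : cntN m (a 0).val (a 1).val (a 2).val (a 3).val =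
      ((range m).filter fun k => midN m (a 0).val (a 1).val (a 2).val (a 3).val k = true).card := by
    rw [cntN, ← List.toFinset_card_of_nodup (List.nodup_range.filter _)]
    congr 1
    ext k
    simp
  rw [h1, cnt]
  refine card_nbij' (fun k => k.val) (fun k => (k : ZMod m)) ?_ ?_ ?_ ?_
  · intro k hk
    simp only [coe_filter, mem_univ, true_and, Set.mem_ofPred_eq, mem_range] at hk ⊢
    exact ⟨ZMod.val_lt k, (mid_iff a k).1 hk⟩
  · intro k hk
    simp only [coe_filter, mem_univ, true_and, Set.mem_ofPred_eq, mem_range] at hk ⊢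
    refine (mid_iff a _).2 ?_
    rw [ZMod.val_natCast_of_lt hk.1]
    exact hk.2
  · intro k _
    simp
  · intro k hk
    simp only [coe_filter, Set.mem_ofPred_eq, mem_range] at hk
    exact ZMod.val_natCast_of_lt hk.1

private theorem adm_N {m : ℕ} [NeZero m] (a : Fin 4 → ZMod m) (h : Adm m a) :
    admN m (a 0).val (a 1).val (a 2).val (a 3).val = true := by
  have hz : ∀ i, (a i).val ≠ 0 := fun i => (ZMod.val_eq_zero _).not.2 (h.ne_zero i)
  have hs : ((a 0).val + (a 1).val + (a 2).val + (a 3).val) % m = 0 := by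
    have := h.sum_eq
    rw [Fin.sum_univ_four] at this
    refine Nat.mod_eq_zero_of_dvd ?_
    rw [← ZMod.natCast_eq_zero_iff]
    push_cast
    simpa using this
  have hg : genN m (a 0).val (a 1).val (a 2).val (a 3).val = true := by
    rw [genN, List.all_eq_true]
    intro k hk
    rw [List.mem_range] at hk
    by_contra hc
    simp only [Bool.or_eq_true, beq_iff_eq, Bool.not_eq_true', beq_eq_false_iff_ne, not_or,
      not_not] at hc
    obtain ⟨⟨⟨⟨h0, h1⟩, h2⟩, h3⟩, h4⟩ := hc
    have e : ∀ x : ZMod m, k * x.val % m = 0 → (k : ZMod m) * x = 0 := by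
      intro x hx
      have := (ZMod.natCast_eq_zero_iff (k * x.val) m).2 (Nat.dvd_of_mod_eq_zero hx)
      push_cast at this
      simpa using this
    have := h.gen (k : ZMod m) (by
      intro i
      fin_cases i
      · exact e _ h1
      · exact e _ h2
      · exact e _ h3
      · exact e _ h4)
    rw [ZMod.natCast_eq_zero_iff] at this
    exact h0 (Nat.eq_zero_of_dvd_of_lt this hk)
  simp only [admN, Bool.and_eq_true, Bool.not_eq_true', beq_eq_false_iff_ne, beq_iff_eq]
  exact ⟨⟨⟨⟨⟨hz 0, hz 1⟩, hz 2⟩, hz 3⟩, hs⟩, hg⟩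

private def last (m x y z : ℕ) : ℕ := (m - (x + y + z) % m) % m

private theorem val_last {m : ℕ} [NeZero m] (a : Fin 4 → ZMod m) (h : Adm m a) :
    (a 3).val = last m (a 0).val (a 1).val (a 2).val := by
  have hs := h.sum_eq
  rw [Fin.sum_univ_four] at hs
  have h3 : a 3 = -(a 0 + a 1 + a 2) := by linear_combination hs
  have : (a 3) = ((last m (a 0).val (a 1).val (a 2).val : ℕ) : ZMod m) := by
    have hm : 0 < m := Nat.pos_of_ne_zero (NeZero.ne m)
    have hl : ((a 0).val + (a 1).val + (a 2).val) % m < m := Nat.mod_lt _ hm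
    rw [last, ZMod.natCast_mod, Nat.cast_sub hl.le, ZMod.natCast_mod]
    push_cast
    simp [h3]
  rw [this, ZMod.val_natCast_of_lt]
  exact Nat.mod_lt _ (Nat.pos_of_ne_zero (NeZero.ne m))

private def chk1 (m : ℕ) : Bool :=
  (List.range m).all fun x => (List.range m).all fun y => (List.range m).all fun z =>
    (!(admN m x y z (last m x y z))) || (2 ≤ cntN m x y z (last m x y z))

private theorem chk1_ok : chk1 3 = true ∧ chk1 5 = true ∧ chk1 7 = true ∧ chk1 9 = true := by
  decide +kernel

theorem cnt_small {m : ℕ} [NeZero m] (hm : m = 3 ∨ m = 5 ∨ m = 7 ∨ m = 9) (a : Fin 4 → ZMod m)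
    (h : Adm m a) : 2 ≤ cnt m a := by
  have hc : chk1 m = true := by
    obtain ⟨h3, h5, h7, h9⟩ := chk1_ok
    rcases hm with rfl | rfl | rfl | rfl <;> assumption
  rw [cnt_eqN]
  have ha := adm_N a h
  rw [val_last a h] at ha ⊢
  simp only [chk1, List.all_eq_true, List.mem_range] at hc
  have := hc _ (ZMod.val_lt (a 0)) _ (ZMod.val_lt (a 1)) _ (ZMod.val_lt (a 2))
  rw [ha] at this
  simpa using this

private def chk2 : Bool :=
  (List.range 9).all fun x => (List.range 9).all fun y => (List.range 9).all fun z =>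
    (!(admN 9 x y z (last 9 x y z))) || (!(cntN 9 x y z (last 9 x y z) ≤ 2)) ||
      ((((if 3 * x % 9 = 0 then 1 else 0) + (if 3 * y % 9 = 0 then 1 else 0) +
        (if 3 * z % 9 = 0 then 1 else 0) + (if 3 * (last 9 x y z) % 9 = 0 then 1 else 0) : ℕ) == 1) &&
      ((List.range 9).all fun k => (!(midN 9 x y z (last 9 x y z) k)) || (!(3 * k % 9 == 0))))

private theorem chk2_ok : chk2 = true := by
  decide +kernel

theorem cnt_nine (a : Fin 4 → ZMod 9) (h : Adm 9 a) (hc : cnt 9 a ≤ 2) :
    (univ.filter fun i => 3 * a i = 0).card = 1 ∧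
      ∀ k : ZMod 9, (∀ i, k * a i ≠ 0) → ∑ i, (k * a i).val = 2 * 9 → 3 * k ≠ 0 := by
  have hk := chk2_ok
  simp only [chk2, List.all_eq_true, List.mem_range] at hk
  have h1 := hk _ (ZMod.val_lt (a 0)) _ (ZMod.val_lt (a 1)) _ (ZMod.val_lt (a 2))
  have ha := adm_N a h
  rw [cnt_eqN] at hc
  rw [← val_last a h, ha] at h1
  simp only [Bool.not_true, Bool.false_or, Bool.or_eq_true, Bool.and_eq_true, beq_iff_eq,
    List.all_eq_true, List.mem_range, Bool.not_eq_true', decide_eq_true_eq,
    decide_eq_false_iff_not, beq_eq_false_iff_ne] at h1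
  obtain h1 | ⟨h1, h2⟩ := h1
  · exact absurd hc h1
  have e : ∀ x : ZMod 9, 3 * x.val % 9 = 0 ↔ 3 * x = 0 := by decide +kernel
  refine ⟨?_, ?_⟩
  · rw [card_filter, Fin.sum_univ_four]
    simp only [e] at h1
    exact h1
  · intro k hk1 hk2 hk3
    have h3 := (mid_iff a k).1 ⟨hk1, hk2⟩
    rcases h2 k.val (ZMod.val_lt k) with h4 | h4
    · rw [h4] at h3
      exact absurd h3 (by decide)
    · exact h4 ((e k).2 hk3)

end Pool.Agent.CO75
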