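import Pool.Agent.CO75.Tuple
import Pool.Agent.CO75.ZMain
import Pool.Agent.CO75.ZSmall

/-!
# Full characters

PLAN. Let `numN x = 1`, so `mids x` has exactly two elements (`numN_eq_card`). Call `ψ` full if
`ψ (x i) ≠ 1` for all `i`. For a full `ψ` of order `m`, the tuple `a` of `exists_tuple` has
`cnt m a = #(mids x ∩ ⟨ψ⟩) ≤ 2`, so `m < 11` (`cnt_ge_three`), `m ∈ {3, 5, 7, 9}` and, by `cnt_small`,
`mids x ⊆ ⟨ψ⟩`. Fix `v ∈ mids x` of order `m₀` (it is full). Claim: every full `ψ` is in `⟨v⟩`. As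
`v ∈ ⟨ψ⟩`, `m₀` divides the order of `ψ`; if the orders are equal, `⟨ψ⟩ = ⟨v⟩`; otherwise `m₀ = 3` and `ψ` has
order `9`, but then `v = ψ^k` with `3 k ≠ 0` (`cnt_nine`), a contradiction.
-/

namespace Pool.Agent.CO75

open Finset

variable {G : Type} [CommGroup G] [Fintype G]

/-- The order of a full character and the middle characters in its powers. -/
private theorem full_order (hodd : Odd (Fintype.card G)) (x : Fin 4 → G) (hx : IsGenVec x)
    (hc : (mids x).card = 2) (ψ : AddChar (Additive G) ℂ)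
    (hψ : ∀ i, ψ (Additive.ofMul (x i)) ≠ 1) :
    (orderOf ψ = 3 ∨ orderOf ψ = 5 ∨ orderOf ψ = 7 ∨
      (orderOf ψ = 9 ∧ (univ.filter fun i => (ψ ^ 3) (Additive.ofMul (x i)) = 1).card = 1)) ∧
    (∀ v ∈ mids x, v ∈ Subgroup.zpowers ψ ∧ (orderOf ψ = 9 → v ^ 3 ≠ 1)) := by
  classical
  obtain ⟨m, hm⟩ : ∃ m, orderOf ψ = m := ⟨_, rfl⟩
  have hmpos : 0 < m := hm ▸ orderOf_pos ψ
  have : NeZero m := ⟨hmpos.ne'⟩
  have hmdvd : m ∣ Fintype.card G := by
    rw [← hm]
    apply orderOf_dvd_of_pow_eq_one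
    ext g
    rw [AddChar.pow_apply, ← AddChar.map_nsmul_eq_pow]
    have h1 : Fintype.card G • g = 0 := by
      have h2 : (Additive.toMul g) ^ Fintype.card G = 1 := pow_card_eq_one
      exact h2
    rw [h1]
    simp
  have hmodd : Odd m := Odd.of_dvd_nat hodd hmdvd
  have hm1 : m ≠ 1 := by
    intro h
    rw [h] at hm
    rw [orderOf_eq_one_iff] at hm
    apply hψ 0
    rw [hm]
    rfl
  obtain ⟨a, ha, hk⟩ := exists_tuple x hx ψ hψ m hm
  obtain ⟨F, hF⟩ : ∃ F : Finset (ZMod m),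
      F = univ.filter fun k : ZMod m => (∀ i, k * a i ≠ 0) ∧ ∑ i, (k * a i).val = 2 * m := ⟨_, rfl⟩
  have hFc : cnt m a = F.card := by rw [hF]; rfl
  have hinj : Set.InjOn (fun k : ZMod m => ψ ^ k.val) F := by
    intro k _ l _ hkl
    have hkl' : ψ ^ k.val = ψ ^ l.val := hkl
    rw [pow_inj_mod, hm, Nat.mod_eq_of_lt (ZMod.val_lt k), Nat.mod_eq_of_lt (ZMod.val_lt l)] at hkl'
    exact ZMod.val_injective m hkl'
  have himg : F.image (fun k : ZMod m => ψ ^ k.val) ⊆ mids x := by
    intro φ hφ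
    rw [mem_image] at hφ
    obtain ⟨k, hkF, rfl⟩ := hφ
    rw [hF, mem_filter] at hkF
    exact (hk k).2.2 hkF.2
  have himgc : (F.image (fun k : ZMod m => ψ ^ k.val)).card = F.card := card_image_of_injOn hinj
  have hle : F.card ≤ 2 := by
    rw [← himgc, ← hc]
    exact card_le_card himg
  have hlt : m < 11 := by
    by_contra h11
    have := cnt_ge_three hmodd (not_lt.1 h11) a ha
    omega
  have hcase : m = 3 ∨ m = 5 ∨ m = 7 ∨ m = 9 := by
    obtain ⟨t, ht⟩ := hmodd
    omega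
  have hge : 2 ≤ F.card := by rw [← hFc]; exact cnt_small hcase a ha
  have himg_eq : F.image (fun k : ZMod m => ψ ^ k.val) = mids x := by
    apply eq_of_subset_of_card_le himg
    rw [himgc, hc]
    exact hge
  refine ⟨?_, ?_⟩
  · rw [hm]
    rcases hcase with h | h | h | h
    · exact Or.inl h
    · exact Or.inr (Or.inl h)
    · exact Or.inr (Or.inr (Or.inl h))
    · refine Or.inr (Or.inr (Or.inr ⟨h, ?_⟩))
      subst h
      have h9 := (cnt_nine a ha (by omega)).1
      rw [← h9]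
      congr 1
      ext i
      simp only [mem_filter, mem_univ, true_and]
      have h3 := (hk 3).1 i
      have h4 : (3 : ZMod 9).val = 3 := by decide
      rw [h4] at h3
      exact h3
  · intro v hv
    rw [← himg_eq, mem_image] at hv
    obtain ⟨k, hkF, rfl⟩ := hv
    refine ⟨Subgroup.pow_mem _ (Subgroup.mem_zpowers ψ) _, ?_⟩
    intro h9 hcon
    rw [hm] at h9
    subst h9
    rw [hF, mem_filter] at hkF
    have h3 := (cnt_nine a ha (by omega)).2 k hkF.2.1 hkF.2.2
    apply h3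
    rw [← pow_mul] at hcon
    have h4 := orderOf_dvd_of_pow_eq_one hcon
    rw [hm] at h4
    have h5 : ((k.val * 3 : ℕ) : ZMod 9) = 0 := (ZMod.natCast_eq_zero_iff _ _).2 h4
    push_cast at h5
    rw [ZMod.natCast_zmod_val] at h5
    rw [mul_comm]
    exact h5

/-- All the full characters are powers of one character in the middle region. -/
theorem full_mem (hodd : Odd (Fintype.card G)) (x : Fin 4 → G) (hx : IsGenVec x)
    (hN : numN x = 1) : ∃ v ∈ mids x, (orderOf v = 3 ∨ orderOf v = 5 ∨ orderOf v = 7 ∨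
      (orderOf v = 9 ∧ (univ.filter fun i => (v ^ 3) (Additive.ofMul (x i)) = 1).card = 1)) ∧
      ∀ ψ : AddChar (Additive G) ℂ, (∀ i, ψ (Additive.ofMul (x i)) ≠ 1) →
        ψ ∈ Subgroup.zpowers v := by
  classical
  have hc : (mids x).card = 2 := by
    have h1 := numN_eq_card hodd x hx
    rw [hN] at h1
    have h2 : ((mids x).card : ℂ) = ((2 : ℕ) : ℂ) := by
      push_cast
      linear_combination -2 * h1
    exact_mod_cast h2
  obtain ⟨v, hv⟩ : (mids x).Nonempty := by
    rw [← card_pos]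
    omega
  have hvfull : ∀ i, v (Additive.ofMul (x i)) ≠ 1 := by
    unfold mids at hv
    rw [mem_filter] at hv
    exact hv.2.1
  have hvo := full_order hodd x hx hc v hvfull
  refine ⟨v, hv, hvo.1, ?_⟩
  intro ψ hψ
  have hψo := full_order hodd x hx hc ψ hψ
  obtain ⟨hvψ, h9⟩ := hψo.2 v hv
  have hdvd : orderOf v ∣ orderOf ψ := orderOf_dvd_of_mem_zpowers hvψ
  by_cases heq : orderOf v = orderOf ψ
  · have hle : Subgroup.zpowers v ≤ Subgroup.zpowers ψ := Subgroup.zpowers_le.2 hvψ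
    have hcard : Nat.card (Subgroup.zpowers ψ) ≤ Nat.card (Subgroup.zpowers v) := by
      rw [Nat.card_zpowers, Nat.card_zpowers, heq]
    have h1 := Subgroup.eq_of_le_of_card_ge hle hcard
    rw [h1]
    exact Subgroup.mem_zpowers ψ
  · exfalso
    have hv3 : orderOf v = 3 ∧ orderOf ψ = 9 := by
      rcases hvo.1 with h | h | h | ⟨h, -⟩ <;> rcases hψo.1 with h' | h' | h' | ⟨h', -⟩ <;>
        rw [h, h'] at hdvd heq <;> first | (exact absurd rfl heq) | (exact absurd hdvd (by decide)) |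
          (exact ⟨h, h'⟩)
    apply h9 hv3.2
    have := pow_orderOf_eq_one v
    rwa [hv3.1] at this

end Pool.Agent.CO75
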