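import Pool.Agent.CO75.Defs

/-!
# Number of fixed points and cotangent sums

For `γ ≠ 1` the trace formula reads `eichler x γ = 1 - F x γ / 2 + (i / 2) T x γ`.
-/

namespace Pool.Agent.CO75

open Finset

/-- The cotangent of `π s / n`. -/
noncomputable def ct (n s : ℕ) : ℝ :=
  Real.cos (Real.pi * (s : ℝ) / (n : ℝ)) / Real.sin (Real.pi * (s : ℝ) / (n : ℝ))

variable {G : Type} [Group G] [Fintype G] {r : ℕ}

open Classical in
/-- The number of `g` with `g⁻¹ γ g ∈ ⟨y⟩`. -/
noncomputable def Phi (y γ : G) : ℕ :=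
  (univ.filter fun g : G => g⁻¹ * γ * g ∈ Subgroup.zpowers y).card

/-- The number of fixed points. -/
noncomputable def F (x : Fin r → G) (γ : G) : ℝ := ∑ i, (Phi (x i) γ : ℝ) / (orderOf (x i) : ℝ)

open Classical in
/-- The sum of the cotangents over the fixed points. -/
noncomputable def T (x : Fin r → G) (γ : G) : ℝ :=
  ∑ i, (1 / (orderOf (x i) : ℝ)) * ∑ g : G, ∑ s ∈ Finset.Ico 1 (orderOf (x i)),
      if γ = g * x i ^ s * g⁻¹ then ct (orderOf (x i)) s else 0

/-- The area of the orbifold, `2 g - 2 = |G| * area`. -/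
noncomputable def area (x : Fin r → G) : ℝ := (r : ℝ) - 2 - ∑ i, 1 / (orderOf (x i) : ℝ)

open Classical in
/-- The mean of `F² - T²`. -/
noncomputable def E (x : Fin r → G) : ℝ :=
  1 / (Fintype.card G : ℝ) * ∑ γ ∈ univ.erase (1 : G), (F x γ ^ 2 - T x γ ^ 2)

theorem F_nonneg (x : Fin r → G) (γ : G) : 0 ≤ F x γ :=
  Finset.sum_nonneg fun _ _ => by positivity

theorem genus_eq (x : Fin r → G) : genus x = 1 + (Fintype.card G : ℝ) / 2 * area x := by
  unfold genus area
  simp only [Finset.sum_sub_distrib, Finset.sum_const, Finset.card_univ, Fintype.card_fin,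
    nsmul_eq_mul, mul_one]
  ring

end Pool.Agent.CO75
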