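import Pool.Agent.CO75.Mat

/-!
# Four branch points and an element that is not central

PLAN. Let `γ` be not central. If `⟨γ⟩` is normal: if `Phi (x j) γ ≠ 0` then
`γ ∈ ⟨g⁻¹ γ g⟩ ⊆ ⟨x j⟩` (for this `⟨g⁻¹ γ g⟩ = g⁻¹ ⟨γ⟩ g = ⟨γ⟩`), so `x j` commutes with `γ`; if three of the
`x j` commute with `γ`, then so does the fourth, by `x 0 * x 1 * x 2 * x 3 = 1`, and `γ` is central as
the `x j` generate. So at most two terms are not `0`, and each is at most `|G|`. If `⟨γ⟩` is not normal,
its normaliser `N` has index at least `3` (the index divides the odd number `|G|` and is not `1`) and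
for each `j` the set `{g : g⁻¹ γ g ∈ ⟨x j⟩}` is empty or contained in one coset `N g₀` (two elements of the
same order in a cyclic group generate the same subgroup), so the sum is at most `4 |G| / 3`.
-/

namespace Pool.Agent.CO75

set_option linter.unusedVariables false

open Finset

variable {G : Type} [Group G] [Fintype G]

private theorem row_orderOf_pow_div (y : G) {m : ℕ} (hm : m ∣ orderOf y) :
    orderOf (y ^ (orderOf y / m)) = m := by
  have hpos : 0 < orderOf y := orderOf_pos y
  obtain ⟨k, hk⟩ := hm
  have hm0 : 0 < m := by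
    rcases Nat.eq_zero_or_pos m with h | h
    · rw [h, zero_mul] at hk
      omega
    · exact h
  have hk0 : 0 < k := by
    rcases Nat.eq_zero_or_pos k with h | h
    · rw [h, mul_zero] at hk
      omega
    · exact h
  have h1 : orderOf y / m = k := by
    rw [hk]
    exact Nat.mul_div_cancel_left k hm0
  rw [h1, orderOf_pow_of_dvd hk0.ne' ⟨m, by rw [hk, mul_comm]⟩, hk]
  exact Nat.mul_div_cancel m hk0

private theorem row_pow_div_mem (y : G) {c : G} (hc : c ∈ Subgroup.zpowers y) :
    y ^ (orderOf y / orderOf c) ∈ Subgroup.zpowers c := by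
  have hpos : 0 < orderOf y := orderOf_pos y
  obtain ⟨k, hk⟩ := (mem_powers_iff_mem_zpowers.2 hc : c ∈ Submonoid.powers y)
  simp only at hk
  have hord : orderOf c = orderOf y / Nat.gcd (orderOf y) k := by
    rw [← hk, orderOf_pow]
  have hg : Nat.gcd (orderOf y) k ∣ orderOf y := Nat.gcd_dvd_left _ _
  have hdiv : orderOf y / orderOf c = Nat.gcd (orderOf y) k := by
    rw [hord]
    exact Nat.div_div_self hg hpos.ne'
  rw [hdiv]
  refine ⟨Nat.gcdB (orderOf y) k, ?_⟩
  simp only
  have hb := Nat.gcd_eq_gcd_ab (orderOf y) k
  rw [← hk, ← zpow_natCast y (Nat.gcd (orderOf y) k), hb, zpow_add, zpow_mul,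
    zpow_natCast y (orderOf y), pow_orderOf_eq_one, one_zpow, one_mul, zpow_mul, zpow_natCast y k]

/-- Two elements of the same order in a cyclic subgroup generate the same subgroup. -/
private theorem row_zpowers_eq {y a b : G} (ha : a ∈ Subgroup.zpowers y)
    (hb : b ∈ Subgroup.zpowers y) (h : orderOf a = orderOf b) :
    Subgroup.zpowers a = Subgroup.zpowers b := by
  have h1 := row_pow_div_mem y ha
  have h2 := row_pow_div_mem y hb
  rw [h] at h1
  have hc : orderOf (y ^ (orderOf y / orderOf b)) = orderOf b :=
    row_orderOf_pow_div y (orderOf_dvd_of_mem_zpowers hb)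
  have e1 : Subgroup.zpowers (y ^ (orderOf y / orderOf b)) = Subgroup.zpowers a :=
    Subgroup.eq_of_le_of_card_ge (Subgroup.zpowers_le.2 h1)
      (by rw [Nat.card_zpowers, Nat.card_zpowers, hc, h])
  have e2 : Subgroup.zpowers (y ^ (orderOf y / orderOf b)) = Subgroup.zpowers b :=
    Subgroup.eq_of_le_of_card_ge (Subgroup.zpowers_le.2 h2)
      (by rw [Nat.card_zpowers, Nat.card_zpowers, hc])
  rw [← e1, e2]

omit [Fintype G] in
private theorem row_map_conj (g γ : G) :
    (Subgroup.zpowers γ).map (MulAut.conj g⁻¹).toMonoidHom = Subgroup.zpowers (g⁻¹ * γ * g) := by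
  rw [MonoidHom.map_zpowers]
  congr 1
  change MulAut.conj g⁻¹ γ = _
  rw [MulAut.conj_apply, inv_inv]

private theorem row_mem_normalizer_iff (g γ : G) :
    g ∈ Subgroup.normalizer ((Subgroup.zpowers γ : Subgroup G) : Set G) ↔
      Subgroup.zpowers (g⁻¹ * γ * g) = Subgroup.zpowers γ := by
  rw [← inv_mem_iff, Subgroup.mem_normalizer_iff_map_conj_eq, ← row_map_conj]
  rfl

omit [Fintype G] in
private theorem row_orderOf_conj (g a : G) : orderOf (g⁻¹ * a * g) = orderOf a := by
  have h := MulEquiv.orderOf_eq (MulAut.conj g⁻¹) a
  rw [MulAut.conj_apply, inv_inv] at h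
  exact h

omit [Fintype G] in
private theorem row_conj_zpow (g a : G) (k : ℤ) : (g⁻¹ * a * g) ^ k = g⁻¹ * a ^ k * g := by
  have h := conj_zpow (i := k) (a := g⁻¹) (b := a)
  rw [inv_inv] at h
  exact h

/-- The set of `g` with `g⁻¹ γ g ∈ ⟨y⟩` is contained in one coset of the normaliser. -/
private theorem row_Phi_le (y γ : G) :
    Phi y γ ≤ Nat.card (Subgroup.normalizer ((Subgroup.zpowers γ : Subgroup G) : Set G)) := by
  classical
  unfold Phi
  rcases (univ.filter fun g : G => g⁻¹ * γ * g ∈ Subgroup.zpowers y).eq_empty_or_nonempty with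
    h | ⟨g₀, hg₀⟩
  · rw [h, Finset.card_empty]
    exact Nat.zero_le _
  · rw [Finset.mem_filter] at hg₀
    have key : ∀ g ∈ (univ.filter fun g : G => g⁻¹ * γ * g ∈ Subgroup.zpowers y),
        g * g₀⁻¹ ∈ Subgroup.normalizer ((Subgroup.zpowers γ : Subgroup G) : Set G) := by
      intro g hg
      rw [Finset.mem_filter] at hg
      rw [row_mem_normalizer_iff]
      have e := row_zpowers_eq hg.2 hg₀.2 (by rw [row_orderOf_conj, row_orderOf_conj])
      -- g⁻¹ ⟨γ⟩ g = g₀⁻¹ ⟨γ⟩ g₀
      have h1 : (g * g₀⁻¹)⁻¹ * γ * (g * g₀⁻¹) = (g₀⁻¹)⁻¹ * (g⁻¹ * γ * g) * g₀⁻¹ := by group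
      rw [h1, ← row_map_conj, e, row_map_conj]
      congr 1
      group
    have hinj : Function.Injective
        (fun g : {g // g ∈ (univ.filter fun g : G => g⁻¹ * γ * g ∈ Subgroup.zpowers y)} =>
          (⟨g.1 * g₀⁻¹, key g.1 g.2⟩ :
            Subgroup.normalizer ((Subgroup.zpowers γ : Subgroup G) : Set G))) := by
      intro a b hab
      apply Subtype.ext
      exact mul_right_cancel (congrArg Subtype.val hab)
    have h2 := Nat.card_le_card_of_injective _ hinj
    rw [Nat.card_eq_fintype_card, Fintype.card_coe] at h2
    exact h2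

theorem row_le (hodd : Odd (Fintype.card G)) (x : Fin 4 → G) (hx : IsGenVec x) {γ : G}
    (hγ : γ ∉ Subgroup.center G) : ∑ j, Phi (x j) γ ≤ 2 * Fintype.card G := by
  classical
  by_cases hN : Subgroup.normalizer ((Subgroup.zpowers γ : Subgroup G) : Set G) = ⊤
  · -- the subgroup generated by `γ` is normal
    have hcomm : ∀ j, Phi (x j) γ ≠ 0 → x j ∈ Subgroup.centralizer {γ} := by
      intro j hj
      unfold Phi at hj
      rw [Finset.card_ne_zero] at hj
      obtain ⟨g, hg⟩ := hj
      rw [Finset.mem_filter] at hg
      have h1 : g ∈ Subgroup.normalizer ((Subgroup.zpowers γ : Subgroup G) : Set G) := by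
        rw [hN]; trivial
      rw [row_mem_normalizer_iff] at h1
      have h2 : γ ∈ Subgroup.zpowers (x j) := by
        have h3 : Subgroup.zpowers (g⁻¹ * γ * g) ≤ Subgroup.zpowers (x j) :=
          Subgroup.zpowers_le.2 hg.2
        rw [h1] at h3
        exact h3 (Subgroup.mem_zpowers γ)
      obtain ⟨k, hk⟩ := h2
      simp only at hk
      rw [Subgroup.mem_centralizer_singleton_iff, ← hk]
      exact (Commute.self_zpow (x j) k).eq
    have hcard : (univ.filter fun j => Phi (x j) γ ≠ 0).card ≤ 2 := by
      by_contra hcon
      push Not at hcon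
      apply hγ
      -- all `x j` commute with `γ`
      have hall : ∀ j, x j ∈ Subgroup.centralizer {γ} := by
        intro j
        by_cases hj : Phi (x j) γ = 0
        · -- the others commute
          have hother : ∀ i, i ≠ j → x i ∈ Subgroup.centralizer {γ} := by
            intro i hij
            apply hcomm
            intro hi
            have hsub : (univ.filter fun j => Phi (x j) γ ≠ 0) ⊆ (univ.erase i).erase j := by
              intro l hl
              rw [Finset.mem_filter] at hl
              rw [Finset.mem_erase, Finset.mem_erase]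
              refine ⟨?_, ?_, Finset.mem_univ _⟩
              · rintro rfl; exact hl.2 hj
              · rintro rfl; exact hl.2 hi
            have h5 := Finset.card_le_card hsub
            rw [Finset.card_erase_of_mem (Finset.mem_erase.2 ⟨hij.symm, Finset.mem_univ _⟩),
              Finset.card_erase_of_mem (Finset.mem_univ _), Finset.card_univ, Fintype.card_fin] at h5
            omega
          have hp := hx.prod_eq
          simp only [List.ofFn_succ, List.ofFn_zero, List.prod_cons, List.prod_nil, mul_one] at hp
          have hp' : x 0 * (x 1 * (x 2 * x 3)) = 1 := hp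
          set C := Subgroup.centralizer ({γ} : Set G) with hC
          have hmem : ∀ a b : G, a * b = 1 → a ∈ C → b ∈ C := by
            intro a b hab ha
            have : b = a⁻¹ := (inv_eq_of_mul_eq_one_right hab).symm
            rw [this]
            exact C.inv_mem ha
          have hmem' : ∀ a b : G, a * b = 1 → b ∈ C → a ∈ C := by
            intro a b hab hb
            have : a = b⁻¹ := eq_inv_of_mul_eq_one_left hab
            rw [this]
            exact C.inv_mem hb
          fin_cases j
          · have h1 := hother 1 (by decide)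
            have h2 := hother 2 (by decide)
            have h3 := hother 3 (by decide)
            exact hmem' _ _ hp' (C.mul_mem h1 (C.mul_mem h2 h3))
          · have h0 := hother 0 (by decide)
            have h2 := hother 2 (by decide)
            have h3 := hother 3 (by decide)
            have h5 := hmem _ _ hp' h0
            exact (C.mul_mem_cancel_right (C.mul_mem h2 h3)).1 h5
          · have h0 := hother 0 (by decide)
            have h1 := hother 1 (by decide)
            have h3 := hother 3 (by decide)
            have h5 := hmem _ _ hp' h0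
            have h6 := (C.mul_mem_cancel_left h1).1 h5
            exact (C.mul_mem_cancel_right h3).1 h6
          · have h0 := hother 0 (by decide)
            have h1 := hother 1 (by decide)
            have h2 := hother 2 (by decide)
            have h5 := hmem _ _ hp' h0
            have h6 := (C.mul_mem_cancel_left h1).1 h5
            exact (C.mul_mem_cancel_left h2).1 h6
        · exact hcomm j hj
      have htop : Subgroup.centralizer ({γ} : Set G) = ⊤ := by
        rw [eq_top_iff, ← hx.gen, Subgroup.closure_le]
        rintro _ ⟨j, rfl⟩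
        exact hall j
      rw [Subgroup.mem_center_iff]
      intro g
      have h7 : g ∈ Subgroup.centralizer ({γ} : Set G) := by rw [htop]; trivial
      rw [Subgroup.mem_centralizer_singleton_iff] at h7
      exact h7
    calc ∑ j, Phi (x j) γ = ∑ j ∈ univ.filter (fun j => Phi (x j) γ ≠ 0), Phi (x j) γ := by
          rw [Finset.sum_filter_ne_zero]
      _ ≤ ∑ _j ∈ univ.filter (fun j => Phi (x j) γ ≠ 0), Fintype.card G :=
          Finset.sum_le_sum fun j _ => Phi_le (x j) γ
      _ = (univ.filter (fun j => Phi (x j) γ ≠ 0)).card * Fintype.card G := by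
          rw [Finset.sum_const, smul_eq_mul]
      _ ≤ 2 * Fintype.card G := Nat.mul_le_mul_right _ hcard
  · -- the normaliser has index at least two
    have h1 := (Subgroup.normalizer ((Subgroup.zpowers γ : Subgroup G) : Set G)).card_mul_index
    have h2 : (Subgroup.normalizer ((Subgroup.zpowers γ : Subgroup G) : Set G)).index ≠ 1 := by
      intro h
      exact hN (Subgroup.index_eq_one.1 h)
    have h3 : (Subgroup.normalizer ((Subgroup.zpowers γ : Subgroup G) : Set G)).index ≠ 0 :=
      Subgroup.index_ne_zero_of_finite
    have h4 : 2 ≤ (Subgroup.normalizer ((Subgroup.zpowers γ : Subgroup G) : Set G)).index := by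
      omega
    rw [Nat.card_eq_fintype_card (α := G)] at h1
    have h5 := Nat.mul_le_mul_left
      (Nat.card (Subgroup.normalizer ((Subgroup.zpowers γ : Subgroup G) : Set G))) h4
    rw [h1] at h5
    calc ∑ j, Phi (x j) γ
        ≤ ∑ _j : Fin 4,
            Nat.card (Subgroup.normalizer ((Subgroup.zpowers γ : Subgroup G) : Set G)) :=
          Finset.sum_le_sum fun j _ => row_Phi_le (x j) γ
      _ = 4 * Nat.card (Subgroup.normalizer ((Subgroup.zpowers γ : Subgroup G) : Set G)) := by
          rw [Finset.sum_const, Finset.card_univ, Fintype.card_fin, smul_eq_mul]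
      _ ≤ 2 * Fintype.card G := by omega

end Pool.Agent.CO75
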