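import Pool.Agent.CO75.LossBd
import Pool.Agent.CO75.Row

/-!
# The losses for four branch points

PLAN. Write `n = |G|`, `n i = orderOf (x i)` (odd, `≥ 3`), `kk` = number of `i` with `n i ≥ 5`.
* `loss_noncentral`: let `⟨x i⟩ ∩ Z(G)` have order `N'`; then `N' ∣ n i`, `n i / N'` is odd and not `1`, so
  `≥ 3`; for `m ∣ n i`, the element `(x i)^(n i/m)` is central iff `m ∣ N'`. By `row_le` the rows with
  `m ∤ N'` are `≤ 2 n`, the others `≤ kk n`, so the sum over `m` is at most
  `2 n L (n i) + (kk - 2) n L N'`, and `L N' ≤ n i (n i - 5) / 27` (`L_le`, `L_one`, `L_three`).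
* `sum_loss_le_four`: for central `x i` use `loss_le`; `kk = c + 8/9 (kk - 2)` with `c = 2 + (kk - 2)/9`.
-/

namespace Pool.Agent.CO75

open Finset

variable {G : Type} [Group G] [Fintype G]

/-- The number of `L` for a proper divisor. -/
private theorem lf_L_le {N d N' : ℕ} (hN : Odd N) (hd : Odd d) (hd1 : d ≠ 1) (h : N = d * N')
    (h5 : 5 ≤ N) : L N' ≤ (N : ℝ) * ((N : ℝ) - 5) / 27 := by
  have hN5 : (5 : ℝ) ≤ (N : ℝ) := by exact_mod_cast h5
  have hN' : Odd N' := by
    rw [h] at hN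
    exact (Nat.odd_mul.1 hN).2
  have hd3 : 3 ≤ d := by
    obtain ⟨k, hk⟩ := hd
    omega
  have hle : 3 * N' ≤ N := by
    rw [h]
    exact Nat.mul_le_mul_right _ hd3
  have hpos : (0 : ℝ) ≤ (N : ℝ) * ((N : ℝ) - 5) / 27 := by
    have : 0 ≤ (N : ℝ) - 5 := by linarith
    positivity
  have hcase : N' = 1 ∨ N' = 3 ∨ 5 ≤ N' := by
    obtain ⟨k, hk⟩ := hN'
    omega
  rcases hcase with h1 | h1 | h1
  · rw [h1, L_one]
    exact hpos
  · rw [h1, L_three]
    exact hpos
  · refine (L_le hN' h1).trans ?_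
    have h2 : 3 * (N' : ℝ) ≤ (N : ℝ) := by exact_mod_cast hle
    have h3 : (5 : ℝ) ≤ (N' : ℝ) := by exact_mod_cast h1
    nlinarith

theorem loss_noncentral (hodd : Odd (Fintype.card G)) (x : Fin 4 → G) (hx : IsGenVec x)
    {i : Fin 4} (hi : x i ∉ Subgroup.center G) (h5 : 5 ≤ orderOf (x i)) (hk : 2 ≤ kk x) :
    loss x i ≤ (Fintype.card G : ℝ) *
      ((2 + ((kk x : ℝ) - 2) / 9) * (1 - 5 / (orderOf (x i) : ℝ)) / 3) := by
  classical
  have hkk : (2 : ℝ) ≤ (kk x : ℝ) := by exact_mod_cast hk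
  have hN5 : (5 : ℝ) ≤ (orderOf (x i) : ℝ) := by exact_mod_cast h5
  have hN0 : (0 : ℝ) < (orderOf (x i) : ℝ) := by linarith
  have hNodd : Odd (orderOf (x i)) := hodd.of_dvd_nat orderOf_dvd_card
  -- the order in the quotient by the centre
  set d := orderOf (QuotientGroup.mk' (Subgroup.center G) (x i)) with hd
  have hcen : ∀ k : ℕ, x i ^ k ∈ Subgroup.center G ↔ d ∣ k := by
    intro k
    rw [hd, orderOf_dvd_iff_pow_eq_one, ← map_pow, QuotientGroup.mk'_apply,
      QuotientGroup.eq_one_iff]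
  have hdN : d ∣ orderOf (x i) := by
    rw [← hcen, pow_orderOf_eq_one]
    exact Subgroup.one_mem _
  have hd1 : d ≠ 1 := by
    intro h
    apply hi
    have := (hcen 1).2 (by rw [h])
    rwa [pow_one] at this
  obtain ⟨N', hN'⟩ := hdN
  have hdodd : Odd d := hNodd.of_dvd_nat ⟨N', hN'⟩
  have hL' := lf_L_le hNodd hdodd hd1 hN' h5
  have hL := L_le hNodd h5
  have hdpos : 0 < d := hdodd.pos
  have hNpos : 0 < orderOf (x i) := orderOf_pos (x i)
  have hN'pos : 0 < N' := by
    rcases Nat.eq_zero_or_pos N' with h | h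
    · rw [h, mul_zero] at hN'
      omega
    · exact h
  -- the rows
  have hrow : ∀ m ∈ (orderOf (x i)).divisors.filter (fun m => 5 ≤ m),
      (∑ j, (B x m i j : ℝ)) * D m ≤
        2 * (Fintype.card G : ℝ) * D m +
          (if m ∣ N' then ((kk x : ℝ) - 2) * (Fintype.card G : ℝ) * D m else 0) := by
    intro m hm
    rw [Finset.mem_filter, Nat.mem_divisors] at hm
    have hD := D_nonneg hm.2
    by_cases hmN : m ∣ N'
    · rw [if_pos hmN]
      have h1 := row_le_kk x hm.2 hm.1.1
      have h2 := mul_le_mul_of_nonneg_right h1 hD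
      linarith
    · rw [if_neg hmN, add_zero]
      have h3 : x i ^ (orderOf (x i) / m) ∉ Subgroup.center G := by
        rw [hcen]
        rintro ⟨t, ht⟩
        apply hmN
        obtain ⟨q, hq⟩ := hm.1.1
        have hm0 : 0 < m := by omega
        have h4 : orderOf (x i) / m = q := by
          rw [hq]
          exact Nat.mul_div_cancel_left q hm0
        rw [h4] at ht
        rw [ht, hN'] at hq
        refine ⟨t, ?_⟩
        apply Nat.eq_of_mul_eq_mul_left hdpos
        rw [hq]
        ring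
      have h5 := row_le hodd x hx h3
      have h6 : ∑ j, (B x m i j : ℝ) ≤ 2 * (Fintype.card G : ℝ) := by
        have : ((∑ j, B x m i j : ℕ) : ℝ) ≤ ((2 * Fintype.card G : ℕ) : ℝ) := by
          exact_mod_cast h5
        push_cast at this
        exact this
      exact mul_le_mul_of_nonneg_right h6 hD
  have hsum : ∑ m ∈ (orderOf (x i)).divisors.filter (fun m => 5 ≤ m),
      (∑ j, (B x m i j : ℝ)) * D m ≤ 2 * (Fintype.card G : ℝ) * L (orderOf (x i)) +
        ((kk x : ℝ) - 2) * (Fintype.card G : ℝ) * L N' := by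
    refine (Finset.sum_le_sum hrow).trans (le_of_eq ?_)
    rw [Finset.sum_add_distrib, ← Finset.mul_sum, ← Finset.sum_filter]
    have h7 : ((orderOf (x i)).divisors.filter (fun m => 5 ≤ m)).filter (fun m => m ∣ N') =
        N'.divisors.filter (fun m => 5 ≤ m) := by
      ext m
      simp only [Finset.mem_filter, Nat.mem_divisors]
      constructor
      · rintro ⟨⟨⟨h1, h2⟩, h3⟩, h4⟩
        exact ⟨⟨h4, hN'pos.ne'⟩, h3⟩
      · rintro ⟨⟨h1, h2⟩, h3⟩
        refine ⟨⟨⟨?_, hNpos.ne'⟩, h3⟩, h1⟩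
        rw [hN']
        exact h1.mul_left d
    rw [h7, ← Finset.mul_sum]
    rfl
  unfold loss
  rw [one_div, inv_mul_le_iff₀ (by positivity)]
  have hn : (0 : ℝ) ≤ (Fintype.card G : ℝ) := by positivity
  have h8 : (orderOf (x i) : ℝ) ^ 2 * ((Fintype.card G : ℝ) *
      ((2 + ((kk x : ℝ) - 2) / 9) * (1 - 5 / (orderOf (x i) : ℝ)) / 3)) =
      2 * (Fintype.card G : ℝ) * ((orderOf (x i) : ℝ) * ((orderOf (x i) : ℝ) - 5) / 3) +
        ((kk x : ℝ) - 2) * (Fintype.card G : ℝ) *
          ((orderOf (x i) : ℝ) * ((orderOf (x i) : ℝ) - 5) / 27) := by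
    field_simp
    ring
  rw [h8]
  refine hsum.trans (add_le_add ?_ ?_)
  · exact mul_le_mul_of_nonneg_left hL (by positivity)
  · exact mul_le_mul_of_nonneg_left hL' (mul_nonneg (by linarith) hn)

/-- The sum of the losses for four branch points and a group that is not commutative. At most one
`x i` is central. -/
theorem sum_loss_le_four (hodd : Odd (Fintype.card G)) (x : Fin 4 → G) (hx : IsGenVec x)
    (hc : ∀ i j, x i ∈ Subgroup.center G → x j ∈ Subgroup.center G → i = j) (hk : 2 ≤ kk x) :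
    ∑ i, loss x i ≤ (Fintype.card G : ℝ) *
      (((2 + ((kk x : ℝ) - 2) / 9) * ((kk x : ℝ) - 5 * ss x) + 8 / 9 * ((kk x : ℝ) - 2)) / 3) := by
  classical
  have hkk : (2 : ℝ) ≤ (kk x : ℝ) := by exact_mod_cast hk
  have hn : (0 : ℝ) ≤ (Fintype.card G : ℝ) := by positivity
  set n : ℝ := (Fintype.card G : ℝ) with hndef
  set k : ℝ := (kk x : ℝ) with hkdef
  -- the bound for one index
  have h1 : ∀ i, loss x i ≤
      (if 5 ≤ orderOf (x i) then n * ((2 + (k - 2) / 9) * (1 - 5 / (orderOf (x i) : ℝ)) / 3)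
        else 0) + (if x i ∈ Subgroup.center G then n * (8 / 27 * (k - 2)) else 0) := by
    intro i
    have hc0 : 0 ≤ (if x i ∈ Subgroup.center G then n * (8 / 27 * (k - 2)) else 0) := by
      split_ifs
      · exact mul_nonneg hn (by linarith)
      · exact le_refl 0
    rcases order_cases hodd (hx.ne_one i) with h3 | h5
    · rw [loss_three x i h3, if_neg (by omega)]
      linarith
    · rw [if_pos h5]
      by_cases hi : x i ∈ Subgroup.center G
      · rw [if_pos hi]
        refine (loss_le hodd x i h5).trans ?_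
        rw [← hndef, ← hkdef, ← mul_add]
        refine mul_le_mul_of_nonneg_left ?_ hn
        have hN5 : (0 : ℝ) < (orderOf (x i) : ℝ) := by
          have : (5 : ℝ) ≤ (orderOf (x i) : ℝ) := by exact_mod_cast h5
          linarith
        have h6 : 1 - 5 / (orderOf (x i) : ℝ) ≤ 1 := by
          have : 0 ≤ 5 / (orderOf (x i) : ℝ) := by positivity
          linarith
        nlinarith
      · rw [if_neg hi, add_zero]
        exact loss_noncentral hodd x hx hi h5 hk
  refine (Finset.sum_le_sum fun i _ => h1 i).trans ?_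
  rw [Finset.sum_add_distrib, ← Finset.sum_filter, ← Finset.sum_filter]
  have h2 : ∑ i ∈ univ.filter (fun i => x i ∈ Subgroup.center G), n * (8 / 27 * (k - 2)) ≤
      n * (8 / 27 * (k - 2)) := by
    rw [Finset.sum_const, nsmul_eq_mul]
    have h3 : (univ.filter (fun i => x i ∈ Subgroup.center G)).card ≤ 1 := by
      rw [Finset.card_le_one]
      intro a ha b hb
      rw [Finset.mem_filter] at ha hb
      exact hc a b ha.2 hb.2
    have h4 : (((univ.filter (fun i => x i ∈ Subgroup.center G)).card : ℕ) : ℝ) ≤ 1 := by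
      exact_mod_cast h3
    have h5 : 0 ≤ n * (8 / 27 * (k - 2)) := mul_nonneg hn (by linarith)
    nlinarith
  have h3 : ∑ i ∈ univ.filter (fun i => 5 ≤ orderOf (x i)),
      n * ((2 + (k - 2) / 9) * (1 - 5 / (orderOf (x i) : ℝ)) / 3) =
      n * ((2 + (k - 2) / 9) * (k - 5 * ss x) / 3) := by
    have h4 : ∀ i ∈ univ.filter (fun i => 5 ≤ orderOf (x i)),
        n * ((2 + (k - 2) / 9) * (1 - 5 / (orderOf (x i) : ℝ)) / 3) =
        n * ((2 + (k - 2) / 9) / 3) - 5 * (n * ((2 + (k - 2) / 9) / 3)) *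
          (1 / (orderOf (x i) : ℝ)) := by
      intro i _
      ring
    rw [Finset.sum_congr rfl h4, Finset.sum_sub_distrib, Finset.sum_const, nsmul_eq_mul,
      ← Finset.mul_sum]
    have h5 : (((univ.filter (fun i => 5 ≤ orderOf (x i))).card : ℕ) : ℝ) = k := by
      rw [hkdef]
      rfl
    have h6 : ∑ i ∈ univ.filter (fun i => 5 ≤ orderOf (x i)), 1 / (orderOf (x i) : ℝ) = ss x := by
      rfl
    rw [h5, h6]
    ring
  rw [h3]
  have h4 : n * (((2 + (k - 2) / 9) * (k - 5 * ss x) + 8 / 9 * (k - 2)) / 3) =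
      n * ((2 + (k - 2) / 9) * (k - 5 * ss x) / 3) + n * (8 / 27 * (k - 2)) := by
    ring
  rw [h4]
  linarith

end Pool.Agent.CO75
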