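import Pool.Agent.CO75.Defs

/-!
# Galois covers of a curve of genus `h`

`G` is a finite group and `(a, b, x)` a generating vector of type `(h; r)`: `G` is generated by
`a 1, b 1, ..., a h, b h, x 1, ..., x r`, the product of the commutators `[a j, b j]` and of the `x i` is `1`,
and the `x i` are not `1`. It describes a Galois cover `C → C'` with group `G` of a curve `C'` of genus
`h` with `r` branch points; over the `i`-th branch point the points of `C` are the cosets `g⟨x i⟩`.
-/

namespace Pool.Agent.CO75

/-- Generating vectors of type `(h; r)`. -/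
structure IsGenData {G : Type} [Group G] {r : ℕ} (h : ℕ) (a b : Fin h → G) (x : Fin r → G) :
    Prop where
  ne_one : ∀ i, x i ≠ 1
  prod_eq : (List.ofFn fun j => a j * b j * (a j)⁻¹ * (b j)⁻¹).prod * (List.ofFn x).prod = 1
  gen : Subgroup.closure (Set.range a ∪ Set.range b ∪ Set.range x) = ⊤

variable {G : Type} [Group G] [Fintype G] {r : ℕ}

/-- The genus of `C`, by the formula of Riemann and Hurwitz
`2 g - 2 = |G| (2 h - 2 + ∑ i, (1 - 1 / n i))`. -/
noncomputable def genusOver (h : ℕ) (x : Fin r → G) : ℝ :=
  1 + (Fintype.card G : ℝ) / 2 * (2 * (h : ℝ) - 2 + ∑ i, (1 - 1 / (orderOf (x i) : ℝ)))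

open Classical in
/-- Eichler's trace formula: the trace of `γ` on the holomorphic differentials of `C` is the genus
for `γ = 1`, and otherwise it is `1 + ∑ ζ / (1 - ζ)` over the fixed points of `γ`, where `ζ` describes
the action of `γ` at the fixed point. The sum over the cosets `g⟨x i⟩` is written as a sum over `g`,
divided by the order of `x i`. -/
noncomputable def eichlerOver (h : ℕ) (x : Fin r → G) (γ : G) : ℂ :=
  if γ = 1 then (genusOver h x : ℂ) else
    1 + ∑ i, (1 / (orderOf (x i) : ℂ)) * ∑ g : G, ∑ s ∈ Finset.Ico 1 (orderOf (x i)),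
      if γ = g * x i ^ s * g⁻¹ then rotTerm (orderOf (x i)) s else 0

/-- The dimension of the invariants of the symmetric square of the representation with character
`eichlerOver h x`. -/
noncomputable def numOver (h : ℕ) (x : Fin r → G) : ℂ :=
  1 / (2 * (Fintype.card G : ℂ)) * ∑ γ : G, (eichlerOver h x γ ^ 2 + eichlerOver h x (γ ^ 2))

end Pool.Agent.CO75
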