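import Mathlib

/-!
# Counting multiples of a 4-tuple in the middle region

For `a : Fin 4 → ZMod m` with sum `0`, `cnt m a` is the number of `k` such that all `k * a i` are not `0`
and their representatives in `[0, m)` have sum `2 m`.
-/

namespace Pool.Agent.CO75

open Finset

/-- The number of multiples in the middle region. -/
def cnt (m : ℕ) [NeZero m] (a : Fin 4 → ZMod m) : ℕ :=
  (univ.filter fun k : ZMod m => (∀ i, k * a i ≠ 0) ∧ ∑ i, (k * a i).val = 2 * m).card

/-- Admissible tuples: not zero, sum `0`, generating `ZMod m`. -/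
structure Adm (m : ℕ) [NeZero m] (a : Fin 4 → ZMod m) : Prop where
  ne_zero : ∀ i, a i ≠ 0
  sum_eq : ∑ i, a i = 0
  gen : ∀ k : ZMod m, (∀ i, k * a i = 0) → k = 0

variable {m : ℕ} [NeZero m]

theorem cnt_unit_mul (u : (ZMod m)ˣ) (a : Fin 4 → ZMod m) :
    cnt m (fun i => (u : ZMod m) * a i) = cnt m a := by
  unfold cnt
  refine Finset.card_bij (fun k _ => k * (u : ZMod m)) ?_ ?_ ?_
  · intro k hk
    simp only [mem_filter, mem_univ, true_and] at hk ⊢
    refine ⟨fun i => ?_, ?_⟩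
    · rw [mul_assoc]; exact hk.1 i
    · rw [← hk.2]
      refine Finset.sum_congr rfl fun i _ => ?_
      rw [mul_assoc]
  · intro k _ l _ h
    exact u.isUnit.mul_right_cancel h
  · intro k hk
    simp only [mem_filter, mem_univ, true_and] at hk
    refine ⟨k * ((u⁻¹ : (ZMod m)ˣ) : ZMod m), ?_, ?_⟩
    · have h1 : ∀ i, k * ((u⁻¹ : (ZMod m)ˣ) : ZMod m) * ((u : ZMod m) * a i) = k * a i := by
        intro i
        calc k * ((u⁻¹ : (ZMod m)ˣ) : ZMod m) * ((u : ZMod m) * a i)
            = k * (((u⁻¹ : (ZMod m)ˣ) : ZMod m) * (u : ZMod m)) * a i := by ring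
          _ = k * a i := by rw [Units.inv_mul]; ring
      simp only [mem_filter, mem_univ, true_and]
      refine ⟨fun i => ?_, ?_⟩
      · rw [h1]; exact hk.1 i
      · rw [← hk.2]
        exact Finset.sum_congr rfl fun i _ => by rw [h1]
    · rw [mul_assoc, Units.inv_mul, mul_one]

theorem cnt_perm (σ : Equiv.Perm (Fin 4)) (a : Fin 4 → ZMod m) : cnt m (a ∘ σ) = cnt m a := by
  unfold cnt
  congr 1
  ext k
  simp only [mem_filter, mem_univ, true_and, Function.comp]
  rw [Equiv.sum_comp σ (fun i => (k * a i).val)]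
  constructor
  · rintro ⟨h1, h2⟩
    exact ⟨fun i => by simpa using h1 (σ.symm i), h2⟩
  · rintro ⟨h1, h2⟩
    exact ⟨fun i => h1 (σ i), h2⟩

theorem Adm.unit_mul (u : (ZMod m)ˣ) {a : Fin 4 → ZMod m} (h : Adm m a) :
    Adm m (fun i => (u : ZMod m) * a i) where
  ne_zero i hi := h.ne_zero i (by
    have := congrArg (fun z => ((u⁻¹ : (ZMod m)ˣ) : ZMod m) * z) hi
    simpa [← mul_assoc] using this)
  sum_eq := by rw [← Finset.mul_sum, h.sum_eq, mul_zero]
  gen k hk := by
    have h1 : k * (u : ZMod m) = 0 := h.gen _ fun i => by rw [mul_assoc]; exact hk i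
    have := congrArg (fun z => z * ((u⁻¹ : (ZMod m)ˣ) : ZMod m)) h1
    simpa [mul_assoc] using this

theorem Adm.perm (σ : Equiv.Perm (Fin 4)) {a : Fin 4 → ZMod m} (h : Adm m a) :
    Adm m (a ∘ σ) where
  ne_zero i := h.ne_zero (σ i)
  sum_eq := by
    rw [← h.sum_eq]
    exact Equiv.sum_comp σ a
  gen k hk := h.gen k fun i => by simpa using hk (σ.symm i)

/-- a residue coprime to `n` lifts to a residue coprime to a multiple of `n` -/
private theorem zc_lift {n k : ℕ} (hk : k ≠ 0) {x : ℕ} (hx : Nat.Coprime x n) :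
    ∃ y : ℕ, Nat.Coprime y k ∧ y ≡ x [MOD n] := by
  by_cases hnk : n ∣ k
  · have : NeZero k := ⟨hk⟩
    have hs := ZMod.unitsMap_surjective hnk
    obtain ⟨w, hw⟩ := hs (ZMod.unitOfCoprime x hx)
    refine ⟨(w : ZMod k).val, ZMod.val_coe_unit_coprime w, ?_⟩
    have h1 : ((w : ZMod k).cast : ZMod n) = (x : ZMod n) := by
      have := congrArg (fun z : (ZMod n)ˣ => (z : ZMod n)) hw
      simpa [ZMod.unitsMap_def] using this
    rw [← ZMod.natCast_eq_natCast_iff, ← h1, ZMod.natCast_val]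
  · have hk' : n * k ≠ 0 ∨ n = 0 := by
      rcases Nat.eq_zero_or_pos n with h | h
      · right; exact h
      · left; positivity
    rcases hk' with h | h
    · have : NeZero (n * k) := ⟨h⟩
      have hs := ZMod.unitsMap_surjective (dvd_mul_right n k)
      obtain ⟨w, hw⟩ := hs (ZMod.unitOfCoprime x hx)
      refine ⟨(w : ZMod (n * k)).val, (ZMod.val_coe_unit_coprime w).coprime_dvd_right (dvd_mul_left k n), ?_⟩
      have h1 : ((w : ZMod (n * k)).cast : ZMod n) = (x : ZMod n) := by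
        have := congrArg (fun z : (ZMod n)ˣ => (z : ZMod n)) hw
        simpa [ZMod.unitsMap_def] using this
      rw [← ZMod.natCast_eq_natCast_iff, ← h1, ZMod.natCast_val]
    · subst h
      refine ⟨1, by simp, ?_⟩
      have : x = 1 := by simpa using hx
      rw [this]

/-- Every element is a unit times a divisor of `m`. -/
theorem exists_unit_mul_eq (y : ZMod m) :
    ∃ (u : (ZMod m)ˣ) (d : ℕ), d ∣ m ∧ (u : ZMod m) * y = (d : ZMod m) := by
  have hm : m ≠ 0 := NeZero.ne m
  obtain ⟨g, hg⟩ : ∃ g, g = Nat.gcd y.val m := ⟨_, rfl⟩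
  have hg0 : 0 < g := by rw [hg]; exact Nat.gcd_pos_of_pos_right _ (Nat.pos_of_ne_zero hm)
  obtain ⟨n, hn⟩ : g ∣ m := by rw [hg]; exact Nat.gcd_dvd_right _ _
  obtain ⟨x, hx⟩ : g ∣ y.val := by rw [hg]; exact Nat.gcd_dvd_left _ _
  have hcop : Nat.Coprime x n := by
    have := Nat.coprime_div_gcd_div_gcd (m := y.val) (n := m) (by rw [← hg]; exact hg0)
    rw [← hg, hx, hn, Nat.mul_div_cancel_left _ hg0, Nat.mul_div_cancel_left _ hg0] at this
    exact this
  obtain ⟨w, hw1, hw2⟩ := zc_lift hm hcop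
  have hy : y = (g : ZMod m) * (w : ZMod m) := by
    rw [← ZMod.natCast_zmod_val y, ← Nat.cast_mul, ZMod.natCast_eq_natCast_iff, hx]
    have := (hw2.symm).mul_left' g
    rwa [← hn] at this
  refine ⟨(ZMod.unitOfCoprime w hw1)⁻¹, g, ⟨n, hn⟩, ?_⟩
  rw [hy, mul_comm (g : ZMod m), ← mul_assoc]
  have : (w : ZMod m) = ((ZMod.unitOfCoprime w hw1 : (ZMod m)ˣ) : ZMod m) := by
    rw [ZMod.coe_unitOfCoprime]
  rw [this, Units.inv_mul, one_mul]

end Pool.Agent.CO75
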