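import Pool.Agent.CO75.Ab
import Pool.Agent.CO75.ZCount

/-!
# The tuple of a character

PLAN. `ψ (x i)` is an `m`-th root of unity, `fr ψ (x i) = (a i).val / m`, and
`fr (ψ^k) (x i) = (k a i).val / m`; the powers of `ψ` with `k ∈ ZMod m` are different.
-/

namespace Pool.Agent.CO75

open Finset

variable {G : Type} [CommGroup G] [Fintype G]

private theorem tp_exp_eq_one (t : ℝ) :
    Complex.exp (-2 * Real.pi * Complex.I * (t : ℂ)) = 1 ↔ ∃ n : ℤ, t = n := by
  rw [Complex.exp_eq_one_iff]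
  have hpi : (2 * (Real.pi : ℂ) * Complex.I) ≠ 0 := Complex.two_pi_I_ne_zero
  constructor
  · rintro ⟨n, hn⟩
    refine ⟨-n, ?_⟩
    have h1 : (2 * (Real.pi : ℂ) * Complex.I) * ((t : ℂ) + n) = 0 := by
      linear_combination -hn
    have h2 : (t : ℂ) + n = 0 := by
      rcases mul_eq_zero.1 h1 with h | h
      · exact absurd h hpi
      · exact h
    have h3 : ((t + n : ℝ) : ℂ) = 0 := by push_cast; exact h2
    have h4 : t + n = 0 := by exact_mod_cast h3
    push_cast
    linarith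
  · rintro ⟨n, hn⟩
    refine ⟨-n, ?_⟩
    rw [hn]
    push_cast
    ring

/-- the number `fr` of a power -/
private theorem tp_fr_pow (ψ : AddChar (Additive G) ℂ) (y : G) (k : ℕ) :
    fr (ψ ^ k) y = Int.fract ((k : ℝ) * fr ψ y) := by
  have h1 := fr_spec (ψ ^ k) y
  have h2 : (ψ ^ k) (Additive.ofMul y)
      = Complex.exp (-2 * Real.pi * Complex.I * (((k : ℝ) * fr ψ y : ℝ) : ℂ)) := by
    rw [AddChar.pow_apply, fr_spec ψ y, ← Complex.exp_nat_mul]
    congr 1
    push_cast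
    ring
  have h3 : Complex.exp (-2 * Real.pi * Complex.I * (((k : ℝ) * fr ψ y - fr (ψ ^ k) y : ℝ) : ℂ))
      = 1 := by
    have h4 : (-2 * Real.pi * Complex.I * (((k : ℝ) * fr ψ y - fr (ψ ^ k) y : ℝ) : ℂ))
        = (-2 * Real.pi * Complex.I * (((k : ℝ) * fr ψ y : ℝ) : ℂ))
          - (-2 * Real.pi * Complex.I * (fr (ψ ^ k) y : ℂ)) := by
      push_cast
      ring
    rw [h4, Complex.exp_sub, ← h1, ← h2, div_self]
    rw [h1]
    exact Complex.exp_ne_zero _
  obtain ⟨n, hn⟩ := (tp_exp_eq_one _).1 h3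
  rw [eq_comm, Int.fract_eq_iff]
  exact ⟨fr_nonneg _ _, fr_lt_one _ _, n, hn⟩

theorem exists_tuple (x : Fin 4 → G) (hx : IsGenVec x) (ψ : AddChar (Additive G) ℂ)
    (hψ : ∀ i, ψ (Additive.ofMul (x i)) ≠ 1) (m : ℕ) [NeZero m] (hm : orderOf ψ = m) :
    ∃ a : Fin 4 → ZMod m, Adm m a ∧ ∀ k : ZMod m,
      (∀ i, (ψ ^ k.val) (Additive.ofMul (x i)) = 1 ↔ k * a i = 0) ∧
      (ψ ^ k.val ∈ mids x ↔ (∀ i, k * a i ≠ 0) ∧ ∑ i, (k * a i).val = 2 * m) := by
  have hm0 : (m : ℝ) ≠ 0 := Nat.cast_ne_zero.2 (NeZero.ne m)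
  have hmpos : (0 : ℝ) < m := Nat.cast_pos.2 (Nat.pos_of_ne_zero (NeZero.ne m))
  have hψm : ψ ^ m = 1 := by rw [← hm]; exact pow_orderOf_eq_one ψ
  -- the numerators
  have hn : ∀ i, ∃ n : ℕ, n < m ∧ fr ψ (x i) = (n : ℝ) / m := by
    intro i
    have h1 : fr (ψ ^ m) (x i) = 0 := by
      rw [fr_eq_zero_iff, hψm]
      simp
    rw [tp_fr_pow, Int.fract_eq_iff] at h1
    obtain ⟨-, -, z, hz⟩ := h1
    have h0 := fr_nonneg ψ (x i)
    have h2 := fr_lt_one ψ (x i)
    have hz' : (m : ℝ) * fr ψ (x i) = z := by linarith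
    have hz0 : 0 ≤ z := by
      have : (0 : ℝ) ≤ z := by rw [← hz']; positivity
      exact_mod_cast this
    obtain ⟨n, rfl⟩ := Int.eq_ofNat_of_zero_le hz0
    refine ⟨n, ?_, ?_⟩
    · have h3 : ((n : ℕ) : ℝ) < m := by
        have h4 : (m : ℝ) * fr ψ (x i) < m * 1 := mul_lt_mul_of_pos_left h2 hmpos
        have h5 : ((n : ℤ) : ℝ) = (n : ℝ) := Int.cast_natCast n
        rw [hz', h5] at h4
        linarith
      exact_mod_cast h3
    · rw [eq_div_iff hm0, mul_comm, hz']
      exact Int.cast_natCast n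
  choose n hnlt hnfr using hn
  obtain ⟨a, ha⟩ : ∃ a : Fin 4 → ZMod m, a = fun i => (n i : ZMod m) := ⟨_, rfl⟩
  have hav : ∀ i, (a i).val = n i := by
    intro i
    rw [ha]
    exact ZMod.val_cast_of_lt (hnlt i)
  have hfr : ∀ (k : ZMod m) (i : Fin 4), fr (ψ ^ k.val) (x i) = ((k * a i).val : ℝ) / m := by
    intro k i
    rw [tp_fr_pow, hnfr, ZMod.val_mul, hav, ← Int.fract_div_natCast_eq_div_natCast_mod]
    congr 1
    push_cast
    ring
  have hone : ∀ (k : ZMod m) (i : Fin 4),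
      (ψ ^ k.val) (Additive.ofMul (x i)) = 1 ↔ k * a i = 0 := by
    intro k i
    rw [← fr_eq_zero_iff, hfr, div_eq_zero_iff]
    constructor
    · rintro (h | h)
      · have h1 : (k * a i).val = 0 := by exact_mod_cast h
        exact (ZMod.val_eq_zero _).1 h1
      · exact absurd h hm0
    · intro h
      left
      rw [h]
      simp
  refine ⟨a, ⟨?_, ?_, ?_⟩, fun k => ⟨hone k, ?_⟩⟩
  · intro i hi
    apply hψ i
    rw [← fr_eq_zero_iff, hnfr, ← hav, hi]
    simp
  · -- the sum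
    have hprod : ∏ i, ψ (Additive.ofMul (x i)) = 1 := by
      have h1 : ∏ i, x i = 1 := by rw [← List.prod_ofFn]; exact hx.prod_eq
      have h2 : ψ (Additive.ofMul (∏ i, x i)) = ∏ i, ψ (Additive.ofMul (x i)) := by
        simp only [Fin.prod_univ_four, ofMul_mul, AddChar.map_add_eq_mul]
      rw [← h2, h1]
      simp
    have h3 : Complex.exp (-2 * Real.pi * Complex.I * ((∑ i, fr ψ (x i) : ℝ) : ℂ)) = 1 := by
      rw [← hprod]
      simp only [Fin.sum_univ_four, Fin.prod_univ_four, fr_spec ψ (x _), ← Complex.exp_add]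
      congr 1
      push_cast
      ring
    obtain ⟨z, hz⟩ := (tp_exp_eq_one _).1 h3
    have h4 : ((∑ i, (a i).val : ℕ) : ℝ) = m * z := by
      rw [← hz, Finset.mul_sum]
      push_cast
      refine Finset.sum_congr rfl fun i _ => ?_
      rw [hnfr, hav]
      field_simp
    have h5 : ((∑ i, (a i).val : ℕ) : ℤ) = (m : ℤ) * z := by exact_mod_cast h4
    have h6 : ((∑ i, (a i).val : ℕ) : ZMod m) = 0 := by
      have h7 : (((∑ i, (a i).val : ℕ) : ℤ) : ZMod m) = (((m : ℤ) * z : ℤ) : ZMod m) := by rw [h5]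
      rw [Int.cast_natCast] at h7
      rw [h7]
      push_cast
      simp
    rw [← h6]
    push_cast
    exact Finset.sum_congr rfl fun i _ => (ZMod.natCast_zmod_val (a i)).symm
  · intro k hk
    have h1 : ∀ i, (ψ ^ k.val) (Additive.ofMul (x i)) = 1 := fun i => (hone k i).2 (hk i)
    have h2 : ∀ g : G, (ψ ^ k.val) (Additive.ofMul g) = 1 := by
      intro g
      have hg : g ∈ Subgroup.closure (Set.range x) := by rw [hx.gen]; trivial
      induction hg using Subgroup.closure_induction with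
      | mem y hy => obtain ⟨i, rfl⟩ := hy; exact h1 i
      | one => simp
      | mul y z _ _ hy hz => rw [ofMul_mul, AddChar.map_add_eq_mul, hy, hz, mul_one]
      | inv y _ hy => rw [ofMul_inv, AddChar.map_neg_eq_inv, hy, inv_one]
    have h3 : ψ ^ k.val = 1 := by
      ext g
      exact h2 (Additive.toMul g)
    have h4 : m ∣ k.val := hm.symm.dvd.trans (orderOf_dvd_of_pow_eq_one h3)
    have h5 : k.val = 0 := Nat.eq_zero_of_dvd_of_lt h4 (ZMod.val_lt k)
    exact (ZMod.val_eq_zero k).1 h5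
  · unfold mids
    simp only [mem_filter, mem_univ, true_and]
    have h1 : (∑ i, fr (ψ ^ k.val) (x i) = 2) ↔ (∑ i, (k * a i).val = 2 * m) := by
      have h2 : ∑ i, fr (ψ ^ k.val) (x i) = ((∑ i, (k * a i).val : ℕ) : ℝ) / m := by
        push_cast
        rw [Finset.sum_div]
        exact Finset.sum_congr rfl fun i _ => hfr k i
      rw [h2, div_eq_iff hm0]
      constructor
      · intro h
        exact_mod_cast h
      · intro h
        rw [h]
        push_cast
        ring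
    rw [h1]
    constructor
    · rintro ⟨h2, h3⟩
      exact ⟨fun i hi => h2 i ((hone k i).2 hi), h3⟩
    · rintro ⟨h2, h3⟩
      exact ⟨fun i hi => h2 i ((hone k i).1 hi), h3⟩

end Pool.Agent.CO75
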