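import Pool.Agent.CO75.ZCov

/-!
# First and second moment of the distance to zero

PLAN. If `a` has additive order `N` then `k a` runs `m / N` times through the
multiples of `m / N`, `dst (j (m/N)) = (m/N) * min j (N - j)`;
`∑_{j<N} min j (N-j) = (N² - 1)/4`, `∑_{j<N} (min j (N-j))² = N (N² - 1)/12` for odd `N`.
-/

namespace Pool.Agent.CO75

open Finset

variable {m : ℕ} [NeZero m]

private lemma zs_periodic (g : ℕ → ℝ) (N d : ℕ) :
    ∑ k ∈ range (d * N), g (k % N) = d * ∑ j ∈ range N, g j := by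
  induction d with
  | zero => simp
  | succ d ih =>
    rw [Nat.succ_mul, Finset.sum_range_add, ih, Nat.cast_succ, add_mul, one_mul]
    congr 1
    refine Finset.sum_congr rfl fun j hj => ?_
    rw [Nat.mul_add_mod', Nat.mod_eq_of_lt (Finset.mem_range.mp hj)]

private lemma zs_min (g : ℕ → ℝ) (h : ℕ) :
    ∑ j ∈ range (2 * h + 1), g (min j (2 * h + 1 - j)) = g 0 + 2 * ∑ j ∈ range h, g (j + 1) := by
  have e : 2 * h + 1 = (h + 1) + h := by omega
  rw [show range (2 * h + 1) = range ((h + 1) + h) by rw [e], Finset.sum_range_add]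
  have h1 : ∑ j ∈ range (h + 1), g (min j (2 * h + 1 - j)) = ∑ j ∈ range (h + 1), g j := by
    refine Finset.sum_congr rfl fun j hj => ?_
    have := Finset.mem_range.mp hj
    rw [min_eq_left (by omega)]
  have h2 : ∑ j ∈ range h, g (min (h + 1 + j) (2 * h + 1 - (h + 1 + j))) =
      ∑ j ∈ range h, g (h - 1 - j + 1) := by
    refine Finset.sum_congr rfl fun j hj => ?_
    have := Finset.mem_range.mp hj
    rw [min_eq_right (by omega)]
    congr 1
    omega
  rw [h1, h2, Finset.sum_range_reflect (fun j => g (j + 1)) h, Finset.sum_range_succ' (fun j => g j) h]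
  ring

private lemma zs_unit (a : ZMod m) : ∃ (d : ℕ) (u : (ZMod m)ˣ), d * addOrderOf a = m ∧
    a = u * (d : ZMod m) := by
  have hm0 : m ≠ 0 := NeZero.ne m
  have hmpos : 0 < m := Nat.pos_of_ne_zero hm0
  set d := m.gcd a.val with hd
  have hdpos : 0 < d := Nat.gcd_pos_of_pos_left _ hmpos
  have hN : addOrderOf a = m / d := by
    have := ZMod.addOrderOf_coe a.val hm0
    rwa [ZMod.natCast_zmod_val] at this
  have hdm : d ∣ m := Nat.gcd_dvd_left _ _
  have hda : d ∣ a.val := Nat.gcd_dvd_right _ _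
  have hNm : (m / d) ∣ m := Nat.div_dvd_of_dvd hdm
  have hcop : Nat.Coprime (a.val / d) (m / d) :=
    (Nat.coprime_div_gcd_div_gcd (m := m) (n := a.val) hdpos).symm
  have : NeZero (m / d) := ⟨(Nat.div_pos (Nat.le_of_dvd hmpos hdm) hdpos).ne'⟩
  obtain ⟨u, hu⟩ := ZMod.unitsMap_surjective hNm (ZMod.unitOfCoprime _ hcop)
  refine ⟨d, u, ?_, ?_⟩
  · rw [hN, Nat.mul_div_cancel' hdm]
  · have h1 : (((u : ZMod m).val : ℕ) : ZMod (m / d)) = ((a.val / d : ℕ) : ZMod (m / d)) := by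
      have h2 := congrArg (fun x : (ZMod (m / d))ˣ => (x : ZMod (m / d))) hu
      simp only [ZMod.unitsMap_val, ZMod.coe_unitOfCoprime] at h2
      rw [← h2, ZMod.natCast_val]
    rw [ZMod.natCast_eq_natCast_iff] at h1
    have h3 : (u : ZMod m).val * d ≡ (a.val / d) * d [MOD (m / d) * d] := h1.mul_right' d
    rw [Nat.div_mul_cancel hdm, Nat.div_mul_cancel hda, ← ZMod.natCast_eq_natCast_iff] at h3
    push_cast [ZMod.natCast_zmod_val] at h3
    exact h3.symm

private lemma zs_main (hm : Odd m) (a : ZMod m) (g : ℕ → ℝ) : ∃ d h : ℕ,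
    addOrderOf a = 2 * h + 1 ∧ d * (2 * h + 1) = m ∧
    ∑ k : ZMod m, g (dst (k * a)) = d * (g 0 + 2 * ∑ j ∈ range h, g (d * (j + 1))) := by
  obtain ⟨d, u, hd, hu⟩ := zs_unit a
  have hodd : Odd (addOrderOf a) := by
    rw [← hd] at hm
    exact (Nat.odd_mul.mp hm).2
  obtain ⟨h, hh⟩ := hodd
  refine ⟨d, h, hh, by rw [← hh, hd], ?_⟩
  have hmpos : 0 < m := Nat.pos_of_ne_zero (NeZero.ne m)
  have hdpos : 0 < d := by
    rcases Nat.eq_zero_or_pos d with h0 | h0
    · subst h0; omega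
    · exact h0
  have s1 : ∑ k : ZMod m, g (dst (k * a)) = ∑ k : ZMod m, g (dst (k * (d : ZMod m))) := by
    refine Fintype.sum_equiv (Units.mulRight u) _ _ fun k => ?_
    rw [hu]
    simp [mul_assoc]
  have s2 : ∑ k : ZMod m, g (dst (k * (d : ZMod m))) =
      ∑ k ∈ range m, g (dst ((k : ZMod m) * (d : ZMod m))) := by
    symm
    refine Finset.sum_bij' (fun k _ => (k : ZMod m)) (fun k _ => k.val) ?_ ?_ ?_ ?_ ?_
    · intro k _; exact Finset.mem_univ _
    · intro k _; exact Finset.mem_range.mpr (ZMod.val_lt k)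
    · intro k hk; exact ZMod.val_cast_of_lt (Finset.mem_range.mp hk)
    · intro k _; exact ZMod.natCast_zmod_val k
    · intro k _; rfl
  have s3 : ∀ k : ℕ, dst ((k : ZMod m) * (d : ZMod m)) =
      d * min (k % (2 * h + 1)) (2 * h + 1 - k % (2 * h + 1)) := by
    intro k
    have e1 : ((k : ZMod m) * (d : ZMod m)).val = d * (k % (2 * h + 1)) := by
      rw [← Nat.cast_mul, ZMod.val_natCast, ← hd, hh, mul_comm k d, Nat.mul_mod_mul_left]
    unfold dst
    rw [e1]
    conv_lhs => rw [← hd, hh]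
    rw [← Nat.mul_sub, Nat.mul_min_mul_left]
  have s4 : ∑ k ∈ range m, g (dst ((k : ZMod m) * (d : ZMod m))) =
      ∑ k ∈ range (d * (2 * h + 1)),
        (fun j => g (d * min j (2 * h + 1 - j))) (k % (2 * h + 1)) := by
    rw [show range m = range (d * (2 * h + 1)) by rw [← hh, hd]]
    refine Finset.sum_congr rfl fun k _ => ?_
    rw [s3 k]
  rw [s1, s2, s4, zs_periodic (fun j => g (d * min j (2 * h + 1 - j))) (2 * h + 1) d,
    zs_min (fun i => g (d * i)) h, Nat.mul_zero]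

private lemma zs_sum1 (h : ℕ) : ∑ j ∈ range h, ((j : ℝ) + 1) = h * (h + 1) / 2 := by
  induction h with
  | zero => simp
  | succ h ih => rw [Finset.sum_range_succ, ih]; push_cast; ring

private lemma zs_sum2 (h : ℕ) :
    ∑ j ∈ range h, ((j : ℝ) + 1) ^ 2 = (h : ℝ) * (h + 1) * (2 * h + 1) / 6 := by
  induction h with
  | zero => simp
  | succ h ih => rw [Finset.sum_range_succ, ih]; push_cast; ring

theorem sum_dst (hm : Odd m) (a : ZMod m) :
    ∑ k : ZMod m, (dst (k * a) : ℝ) =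
      (m : ℝ) ^ 2 / 4 * (1 - 1 / (addOrderOf a : ℝ) ^ 2) := by
  obtain ⟨d, h, h1, h2, h3⟩ := zs_main hm a (fun i => (i : ℝ))
  rw [h3, h1]
  have h4 : (m : ℝ) = d * (2 * h + 1) := by rw [← h2]; push_cast; ring
  have h5 : ∑ j ∈ range h, ((d * (j + 1) : ℕ) : ℝ) = d * (h * (h + 1) / 2) := by
    rw [← zs_sum1, Finset.mul_sum]
    refine Finset.sum_congr rfl fun j _ => ?_
    push_cast; ring
  rw [h5, h4]
  have h6 : (2 * (h : ℝ) + 1) ≠ 0 := by positivity
  push_cast
  field_simp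
  ring

theorem sum_dst_sq (hm : Odd m) (a : ZMod m) :
    ∑ k : ZMod m, (dst (k * a) : ℝ) ^ 2 =
      (m : ℝ) ^ 3 / 12 * (1 - 1 / (addOrderOf a : ℝ) ^ 2) := by
  obtain ⟨d, h, h1, h2, h3⟩ := zs_main hm a (fun i => (i : ℝ) ^ 2)
  rw [h3, h1]
  have h4 : (m : ℝ) = d * (2 * h + 1) := by rw [← h2]; push_cast; ring
  have h5 : ∑ j ∈ range h, ((d * (j + 1) : ℕ) : ℝ) ^ 2 =
      (d : ℝ) ^ 2 * (h * (h + 1) * (2 * h + 1) / 6) := by
    rw [← zs_sum2, Finset.mul_sum]
    refine Finset.sum_congr rfl fun j _ => ?_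
    push_cast; ring
  rw [h5, h4]
  have h6 : (2 * (h : ℝ) + 1) ≠ 0 := by positivity
  push_cast
  field_simp
  ring

end Pool.Agent.CO75
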