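import Pool.Agent.CO75.ZCount
import Pool.Agent.CO75.ZSum

/-!
# The variance bound

PLAN. Let `Λ k = ∑ i, dst (k * a i)`. If `k` is counted by `cnt` then `Λ k ≤ 2 m` (each `dst ≤ m/2`).
Otherwise `Λ k ≤ m`: the sum of the representatives of the `k * a i` is a multiple `σ m` of `m`, with
`σ ≤ 3`; if all are not `0` then `σ = 1` (`dst j ≤ val j`) or `σ = 3` (`dst j ≤ m - val j`); if `w ≤ 3` of them
are not `0` then `σ < w`, so `σ = 0`, or `σ = 1`, or `σ = 2`, `w = 3` and `∑ (m - val) = m`.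
Hence `∑ (Λ - m)⁺ ≤ m * cnt ≤ 2 m`, `∑ (m - Λ) = (m²/4) ∑ 1/N i²` (`sum_dst`), so
`∑ |Λ - m| ≤ (m²/4) ∑ 1/N i² + 4 m` and `∑ (Λ - m)² ≤ m ∑ |Λ - m|`. On the other hand
`∑_k (Λ - m)² ≥ ∑_k (Λ - mean)² ≥ ∑_i (∑_k dst (k a i)² - (∑_k dst (k a i))²/m)` by `cov_nonneg`,
and the `i`-th term is `m³ (1/48 + 1/(24 N²) - 1/(16 N⁴))` by `sum_dst`, `sum_dst_sq`.
-/

namespace Pool.Agent.CO75

open Finset

variable {m : ℕ} [NeZero m]

/-- The contribution of a coordinate of order `N`. -/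
noncomputable def vv (N : ℕ) : ℝ := 1 / 48 - 5 / (24 * (N : ℝ) ^ 2) - 1 / (16 * (N : ℝ) ^ 4)

private theorem zb_two (a : Fin 4 → ZMod m) (k : ZMod m) : ∑ i, dst (k * a i) ≤ 2 * m := by
  rw [Fin.sum_univ_four]
  unfold dst
  have h0 := ZMod.val_lt (k * a 0)
  have h1 := ZMod.val_lt (k * a 1)
  have h2 := ZMod.val_lt (k * a 2)
  have h3 := ZMod.val_lt (k * a 3)
  omega

private theorem zb_one {a : Fin 4 → ZMod m} (hs : ∑ i, a i = 0) (k : ZMod m)
    (hk : ¬ ((∀ i, k * a i ≠ 0) ∧ ∑ i, (k * a i).val = 2 * m)) : ∑ i, dst (k * a i) ≤ m := by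
  have hdvd : m ∣ ∑ i, (k * a i).val := by
    rw [← ZMod.natCast_eq_zero_iff, Nat.cast_sum]
    simp only [ZMod.natCast_val, ZMod.cast_id', id_eq]
    rw [← Finset.mul_sum, hs, mul_zero]
  obtain ⟨σ, hσ⟩ := hdvd
  have hz : ∀ i, k * a i = 0 → (k * a i).val = 0 := fun i hi => by rw [hi, ZMod.val_zero]
  have hk' : ∑ i, (k * a i).val = 2 * m → ∃ i, (k * a i).val = 0 := by
    intro h
    by_contra hcon
    push Not at hcon
    exact hk ⟨fun i hi => hcon i (hz i hi), h⟩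
  rw [Fin.sum_univ_four] at hσ hk' ⊢
  unfold dst
  have h0 := ZMod.val_lt (k * a 0)
  have h1 := ZMod.val_lt (k * a 1)
  have h2 := ZMod.val_lt (k * a 2)
  have h3 := ZMod.val_lt (k * a 3)
  have hm : 0 < m := Nat.pos_of_ne_zero (NeZero.ne m)
  have hσ4 : σ < 4 := by
    by_contra hcon
    push Not at hcon
    have : m * 4 ≤ m * σ := Nat.mul_le_mul_left m hcon
    omega
  interval_cases σ
  · omega
  · omega
  · obtain ⟨i, hi⟩ := hk' (by omega)
    fin_cases i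
    · have hi : (k * a 0).val = 0 := hi
      omega
    · have hi : (k * a 1).val = 0 := hi
      omega
    · have hi : (k * a 2).val = 0 := hi
      omega
    · have hi : (k * a 3).val = 0 := hi
      omega
  · omega

theorem var_bound (hm : Odd m) (a : Fin 4 → ZMod m) (h : Adm m a) (hc : cnt m a ≤ 2) :
    (m : ℝ) * ∑ i, vv (addOrderOf (a i)) ≤ 4 := by
  classical
  have hm0 : 0 < m := Nat.pos_of_ne_zero (NeZero.ne m)
  have hM : (0 : ℝ) < m := by exact_mod_cast hm0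
  set M : ℝ := (m : ℝ) with hMdef
  set D : Fin 4 → ZMod m → ℝ := fun i k => (dst (k * a i) : ℝ) with hD
  set x : Fin 4 → ℝ := fun i => 1 / (addOrderOf (a i) : ℝ) ^ 2 with hx
  have hS1 : ∀ i, ∑ k, D i k = M ^ 2 / 4 * (1 - x i) := fun i => sum_dst hm (a i)
  have hS2 : ∀ i, ∑ k, D i k * D i k = M ^ 3 / 12 * (1 - x i) := by
    intro i
    rw [← sum_dst_sq hm (a i)]
    exact Finset.sum_congr rfl fun k _ => by rw [hD]; ring
  have hcov : ∀ i j, (∑ k, D i k) * (∑ k, D j k) ≤ M * ∑ k, D i k * D j k := fun i j => cov_nonneg hm (a i) (a j)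
  set P : ZMod m → Prop := fun k => (∀ i, k * a i ≠ 0) ∧ ∑ i, (k * a i).val = 2 * m with hP
  set ind : ZMod m → ℝ := fun k => if P k then 1 else 0 with hind
  have hcnt : ∑ k, ind k ≤ 2 := by
    have h1 : ∑ k, ind k = (cnt m a : ℝ) := by
      rw [hind, Finset.sum_boole]
      rfl
    rw [h1]
    exact_mod_cast hc
  have hL0 : ∀ k, 0 ≤ ∑ i, D i k := fun k => Finset.sum_nonneg fun i _ => Nat.cast_nonneg _
  have hL2 : ∀ k, ∑ i, D i k ≤ 2 * M := by
    intro k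
    have := zb_two a k
    have h1 : ((∑ i, dst (k * a i) : ℕ) : ℝ) ≤ ((2 * m : ℕ) : ℝ) := by exact_mod_cast this
    push_cast at h1
    exact h1
  have hL1 : ∀ k, ¬ P k → ∑ i, D i k ≤ M := by
    intro k hk
    have := zb_one h.sum_eq k hk
    have h1 : ((∑ i, dst (k * a i) : ℕ) : ℝ) ≤ (m : ℝ) := by exact_mod_cast this
    push_cast at h1
    exact h1
  have hpt : ∀ k, (∑ i, D i k - M) ^ 2 ≤ M * ((M - ∑ i, D i k) + 2 * M * ind k) := by
    intro k
    have g0 := hL0 k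
    have g2 := hL2 k
    by_cases hk : P k
    · have : ind k = 1 := if_pos hk
      rw [this]
      nlinarith
    · have : ind k = 0 := if_neg hk
      rw [this]
      have g1 := hL1 k hk
      nlinarith
  have hcard : (Fintype.card (ZMod m) : ℝ) = M := by rw [ZMod.card]
  have hSL : ∑ k, ∑ i, D i k = ∑ i, ∑ k, D i k := Finset.sum_comm
  have hup : ∑ k, (∑ i, D i k - M) ^ 2 ≤ M * (M ^ 2 / 4 * ∑ i, x i + 4 * M) := by
    have h1 : ∑ k, (∑ i, D i k - M) ^ 2 ≤ ∑ k, M * ((M - ∑ i, D i k) + 2 * M * ind k) :=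
      Finset.sum_le_sum fun k _ => hpt k
    refine h1.trans ?_
    rw [← Finset.mul_sum, Finset.sum_add_distrib, Finset.sum_sub_distrib, ← Finset.mul_sum, Finset.sum_const,
      Finset.card_univ, nsmul_eq_mul, hcard, hSL, Finset.sum_congr rfl (fun i _ => hS1 i), ← Finset.mul_sum,
      Finset.sum_sub_distrib, Finset.sum_const, Finset.card_univ, Fintype.card_fin, nsmul_eq_mul, mul_one]
    refine mul_le_mul_of_nonneg_left ?_ hM.le
    push_cast
    nlinarith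
  have hlow : ∑ i, (M * ∑ k, D i k * D i k - (∑ k, D i k) * (∑ k, D i k)) ≤ M * ∑ k, (∑ i, D i k - M) ^ 2 := by
    have e1 : ∑ k, (∑ i, D i k) ^ 2 = ∑ i, ∑ j, ∑ k, D i k * D j k := by
      have : ∀ k, (∑ i, D i k) ^ 2 = ∑ i, ∑ j, D i k * D j k := fun k => by rw [sq, Finset.sum_mul_sum]
      rw [Finset.sum_congr rfl (fun k _ => this k), Finset.sum_comm]
      exact Finset.sum_congr rfl fun i _ => Finset.sum_comm
    have e2 : (∑ k, ∑ i, D i k) ^ 2 = ∑ i, ∑ j, (∑ k, D i k) * (∑ k, D j k) := by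
      rw [hSL, sq, Finset.sum_mul_sum]
    have e3 : M * ∑ k, (∑ i, D i k - M) ^ 2 - (M * ∑ k, (∑ i, D i k) ^ 2 - (∑ k, ∑ i, D i k) ^ 2) =
        (∑ k, ∑ i, D i k - M ^ 2) ^ 2 := by
      have : ∀ k, (∑ i, D i k - M) ^ 2 = (∑ i, D i k) ^ 2 - 2 * M * ∑ i, D i k + M ^ 2 := fun k => by ring
      rw [Finset.sum_congr rfl (fun k _ => this k), Finset.sum_add_distrib, Finset.sum_sub_distrib,
        ← Finset.mul_sum, Finset.sum_const, Finset.card_univ, nsmul_eq_mul, hcard]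
      ring
    have e4 : M * ∑ k, (∑ i, D i k) ^ 2 - (∑ k, ∑ i, D i k) ^ 2 =
        ∑ i, ∑ j, (M * ∑ k, D i k * D j k - (∑ k, D i k) * (∑ k, D j k)) := by
      rw [e1, e2, Finset.mul_sum, ← Finset.sum_sub_distrib]
      refine Finset.sum_congr rfl fun i _ => ?_
      rw [Finset.mul_sum, ← Finset.sum_sub_distrib]
    have e5 : ∑ i, (M * ∑ k, D i k * D i k - (∑ k, D i k) * (∑ k, D i k)) ≤
        ∑ i, ∑ j, (M * ∑ k, D i k * D j k - (∑ k, D i k) * (∑ k, D j k)) :=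
      Finset.sum_le_sum fun i _ => Finset.single_le_sum
        (f := fun j => M * ∑ k, D i k * D j k - (∑ k, D i k) * (∑ k, D j k))
        (fun j _ => sub_nonneg.2 (hcov i j)) (Finset.mem_univ i)
    nlinarith [sq_nonneg (∑ k, ∑ i, D i k - M ^ 2)]
  have hterm : ∀ i, M * ∑ k, D i k * D i k - (∑ k, D i k) * (∑ k, D i k) =
      M ^ 4 * (1 / 48 + x i / 24 - x i ^ 2 / 16) := by
    intro i
    rw [hS1, hS2]
    ring
  rw [Finset.sum_congr rfl (fun i _ => hterm i), ← Finset.mul_sum] at hlow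
  have hvv : ∀ i, vv (addOrderOf (a i)) = (1 / 48 + x i / 24 - x i ^ 2 / 16) - x i / 4 := by
    intro i
    rw [hx, vv]
    simp only
    have e1 : (addOrderOf (a i) : ℝ) ^ 4 = ((addOrderOf (a i) : ℝ) ^ 2) ^ 2 := by ring
    rw [e1]
    generalize ((addOrderOf (a i) : ℝ) ^ 2) = y
    by_cases hy : y = 0
    · rw [hy]; norm_num
    · field_simp
      ring
  rw [Finset.sum_congr rfl (fun i _ => hvv i), Finset.sum_sub_distrib]
  have e6 : ∑ i, x i / 4 = (∑ i, x i) / 4 := by rw [Finset.sum_div]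
  rw [e6]
  have h3 : M * ∑ k, (∑ i, D i k - M) ^ 2 ≤ M * (M * (M ^ 2 / 4 * ∑ i, x i + 4 * M)) :=
    mul_le_mul_of_nonneg_left hup hM.le
  have h4 := hlow.trans h3
  have hM3 : 0 < M ^ 3 := by positivity
  refine le_of_mul_le_mul_left ?_ hM3
  nlinarith

end Pool.Agent.CO75
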