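import Pool.Agent.CO75.ZCount

/-!
# Finite checks

`chk m d` checks all tuples with first entry `d` (and third entry at most the second); `chk m d = true`
takes about one millisecond per tuple with `decide +kernel`. PLAN for `chk_spec`: let `b, c` be the
representatives of `a 1, a 2` (swap them if necessary, `cnt_perm`), in `[1, m)`; the representative of
`a 3` is `(4 * m - d - b - c) % m`; the gcd is `1` by `gen`; `find` gives two numbers
`1 ≤ k < k' ≤ (m - 1)/2` in the middle region, and then also `m - k`, `m - k'`.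
-/

namespace Pool.Agent.CO75

open Finset

/-- The multiple by `k` is in the middle region. -/
def mid (m a b c d k : ℕ) : Bool :=
  let A := k * a % m
  let B := k * b % m
  let C := k * c % m
  let D := k * d % m
  Nat.blt 0 A && Nat.blt 0 B && Nat.blt 0 C && Nat.blt 0 D && Nat.beq (A + B + C + D) (2 * m)

/-- There are `j` numbers in `[1, k]` in the middle region. -/
def find (m a b c d : ℕ) : ℕ → ℕ → Bool
  | _, 0 => true
  | 0, _ + 1 => false
  | k + 1, j + 1 =>
    if mid m a b c d (k + 1) then find m a b c d k j else find m a b c d k (j + 1)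

/-- All numbers below a bound. -/
def allB (p : ℕ → Bool) : ℕ → Bool
  | 0 => true
  | n + 1 => p n && allB p n

/-- The check for the modulus `m` and first entry `a`. -/
def chk (m a : ℕ) : Bool :=
  allB (fun b => allB (fun c =>
    let b' := b + 1
    let c' := c + 1
    let d := (4 * m - a - b' - c') % m
    Nat.beq d 0 || Nat.blt 1 (Nat.gcd (Nat.gcd (Nat.gcd a b') c') m) ||
      find m a b' c' d ((m - 1) / 2) 2) (b + 1)) (m - 1)

private theorem zc_allB {p : ℕ → Bool} {n : ℕ} (h : allB p n = true) : ∀ k < n, p k = true := by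
  induction n with
  | zero => intro k hk; omega
  | succ n ih =>
    intro k hk
    rw [allB, Bool.and_eq_true] at h
    rcases Nat.lt_succ_iff_lt_or_eq.1 hk with h1 | h1
    · exact ih h.2 k h1
    · rw [h1]
      exact h.1

private theorem zc_find {m a b c d : ℕ} : ∀ k j, find m a b c d k j = true →
    j ≤ ((Icc 1 k).filter fun i => mid m a b c d i = true).card := by
  intro k
  induction k with
  | zero =>
    intro j h
    cases j with
    | zero => exact Nat.zero_le _
    | succ j => exact absurd h (by simp [find])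
  | succ k ih =>
    intro j h
    cases j with
    | zero => exact Nat.zero_le _
    | succ j =>
      rw [find] at h
      have hI : Icc 1 (k + 1) = insert (k + 1) (Icc 1 k) := by
        ext x
        simp only [mem_Icc, mem_insert]
        omega
      have hn : k + 1 ∉ (Icc 1 k).filter fun i => mid m a b c d i = true := by
        simp
      rw [hI, filter_insert]
      by_cases h1 : mid m a b c d (k + 1) = true
      · rw [if_pos h1] at h ⊢
        rw [card_insert_of_notMem hn]
        exact Nat.succ_le_succ (ih j h)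
      · rw [if_neg h1] at h ⊢
        exact ih (j + 1) h

private theorem zc_mid {m a b c d k : ℕ} (h : mid m a b c d k = true) :
    0 < k * a % m ∧ 0 < k * b % m ∧ 0 < k * c % m ∧ 0 < k * d % m ∧
      k * a % m + k * b % m + k * c % m + k * d % m = 2 * m := by
  unfold mid at h
  simp only [Bool.and_eq_true, Nat.blt_eq, Nat.beq_eq] at h
  exact ⟨h.1.1.1.1, h.1.1.1.2, h.1.1.2, h.1.2, h.2⟩

private theorem zc_mem {m : ℕ} [NeZero m] {a : Fin 4 → ZMod m} {k : ℕ} (hk : k < m)
    (h : mid m (a 0).val (a 1).val (a 2).val (a 3).val k = true) :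
    (∀ i, (k : ZMod m) * a i ≠ 0) ∧ ∑ i, ((k : ZMod m) * a i).val = 2 * m := by
  obtain ⟨h0, h1, h2, h3, h4⟩ := zc_mid h
  have hv : ∀ i, ((k : ZMod m) * a i).val = k * (a i).val % m := by
    intro i
    rw [ZMod.val_mul, ZMod.val_natCast_of_lt hk]
  have hp : ∀ i, 0 < k * (a i).val % m := by
    intro i
    fin_cases i
    · exact h0
    · exact h1
    · exact h2
    · exact h3
  refine ⟨?_, ?_⟩
  · intro i hi
    have h5 : ((k : ZMod m) * a i).val = 0 := by rw [hi, ZMod.val_zero]
    rw [hv] at h5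
    have := hp i
    omega
  · rw [Fin.sum_univ_four, hv, hv, hv, hv, h4]

private theorem zc_neg {m : ℕ} [NeZero m] {a : Fin 4 → ZMod m} {x : ZMod m}
    (h : (∀ i, x * a i ≠ 0) ∧ ∑ i, (x * a i).val = 2 * m) :
    (∀ i, -x * a i ≠ 0) ∧ ∑ i, (-x * a i).val = 2 * m := by
  refine ⟨fun i => by rw [neg_mul]; exact neg_ne_zero.2 (h.1 i), ?_⟩
  have hv : ∀ i, (-x * a i).val + (x * a i).val = m := by
    intro i
    rw [neg_mul, ZMod.neg_val, if_neg (h.1 i)]
    have := ZMod.val_lt (x * a i)
    omega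
  have h1 := h.2
  rw [Fin.sum_univ_four] at h1 ⊢
  have e0 := hv 0
  have e1 := hv 1
  have e2 := hv 2
  have e3 := hv 3
  omega

private theorem zc_core {m : ℕ} [NeZero m] (a : Fin 4 → ZMod m)
    (hS : 2 ≤ ((Icc 1 ((m - 1) / 2)).filter fun k =>
      mid m (a 0).val (a 1).val (a 2).val (a 3).val k = true).card) : 4 ≤ cnt m a := by
  have hm0 : 0 < m := Nat.pos_of_ne_zero (NeZero.ne m)
  have hmem : ∀ k ∈ (Icc 1 ((m - 1) / 2)).filter fun k =>
      mid m (a 0).val (a 1).val (a 2).val (a 3).val k = true, 1 ≤ k ∧ 2 * k < m ∧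
      ((∀ i, (k : ZMod m) * a i ≠ 0) ∧ ∑ i, ((k : ZMod m) * a i).val = 2 * m) := by
    intro k hk
    rw [mem_filter, mem_Icc] at hk
    exact ⟨hk.1.1, by omega, zc_mem (by omega) hk.2⟩
  generalize (Icc 1 ((m - 1) / 2)).filter (fun k =>
      mid m (a 0).val (a 1).val (a 2).val (a 3).val k = true) = S at hS hmem
  have hinj : ∀ k ∈ S, ∀ l ∈ S, ((k : ℕ) : ZMod m) = (l : ZMod m) → k = l := by
    intro k hk l hl h
    have h1 := congrArg ZMod.val h
    have hk' := hmem k hk
    have hl' := hmem l hl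
    rwa [ZMod.val_natCast_of_lt (by omega), ZMod.val_natCast_of_lt (by omega)] at h1
  have hc1 : (S.image fun k : ℕ => (k : ZMod m)).card = S.card :=
    card_image_of_injOn fun k hk l hl h => hinj k hk l hl h
  have hc2 : (S.image fun k : ℕ => -(k : ZMod m)).card = S.card :=
    card_image_of_injOn fun k hk l hl h => hinj k hk l hl (neg_injective h)
  have hdis : Disjoint (S.image fun k : ℕ => (k : ZMod m)) (S.image fun k : ℕ => -(k : ZMod m)) := by
    rw [disjoint_left]
    intro x hx hx'
    rw [mem_image] at hx hx'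
    obtain ⟨k, hk, rfl⟩ := hx
    obtain ⟨l, hl, h⟩ := hx'
    have h1 : ((k + l : ℕ) : ZMod m) = 0 := by
      rw [Nat.cast_add, ← h]
      ring
    rw [ZMod.natCast_eq_zero_iff] at h1
    have hk' := hmem k hk
    have hl' := hmem l hl
    have := Nat.le_of_dvd (by omega) h1
    omega
  have hsub : (S.image fun k : ℕ => (k : ZMod m)) ∪ (S.image fun k : ℕ => -(k : ZMod m)) ⊆
      univ.filter fun k : ZMod m => (∀ i, k * a i ≠ 0) ∧ ∑ i, (k * a i).val = 2 * m := by
    intro x hx
    rw [mem_filter]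
    refine ⟨mem_univ _, ?_⟩
    rw [mem_union, mem_image, mem_image] at hx
    rcases hx with ⟨k, hk, rfl⟩ | ⟨k, hk, rfl⟩
    · exact (hmem k hk).2.2
    · exact zc_neg (hmem k hk).2.2
  have hcard := card_le_card hsub
  rw [card_union_of_disjoint hdis, hc1, hc2] at hcard
  unfold cnt
  omega

private theorem zc_main {m : ℕ} [NeZero m] {d : ℕ} (hd : d < m)
    (h : chk m d = true) (a : Fin 4 → ZMod m) (ha : Adm m a) (had : a 0 = (d : ZMod m))
    (hbc : (a 2).val ≤ (a 1).val) : 4 ≤ cnt m a := by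
  have hm0 : 0 < m := Nat.pos_of_ne_zero (NeZero.ne m)
  have hv0 : (a 0).val = d := by rw [had, ZMod.val_natCast_of_lt hd]
  have hpos : ∀ i, 0 < (a i).val := fun i =>
    Nat.pos_of_ne_zero fun e => ha.ne_zero i ((ZMod.val_eq_zero _).1 e)
  have hlt : ∀ i, (a i).val < m := fun i => ZMod.val_lt _
  have p1 := hpos 1
  have p2 := hpos 2
  have l1 := hlt 1
  have l2 := hlt 2
  have hs := ha.sum_eq
  rw [Fin.sum_univ_four] at hs
  unfold chk at h
  have h1 := zc_allB (zc_allB h ((a 1).val - 1) (by omega)) ((a 2).val - 1) (by omega)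
  have e1 : (a 1).val - 1 + 1 = (a 1).val := by omega
  have e2 : (a 2).val - 1 + 1 = (a 2).val := by omega
  dsimp only at h1
  rw [e1, e2] at h1
  have hd3 : (4 * m - d - (a 1).val - (a 2).val) % m = (a 3).val := by
    have h2 : a 3 = ((4 * m - d - (a 1).val - (a 2).val : ℕ) : ZMod m) := by
      have h3 : 4 * m - d - (a 1).val - (a 2).val = 4 * m - (d + (a 1).val + (a 2).val) := by
        omega
      rw [h3, Nat.cast_sub (by omega)]
      push_cast
      rw [ZMod.natCast_self, ZMod.natCast_zmod_val, ZMod.natCast_zmod_val]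
      linear_combination hs - had
    rw [h2, ZMod.val_natCast]
  rw [hd3, Bool.or_eq_true, Bool.or_eq_true] at h1
  rcases h1 with (h1 | h1) | h1
  · exfalso
    rw [Nat.beq_eq] at h1
    have := hpos 3
    omega
  · exfalso
    rw [Nat.blt_eq] at h1
    have g0 : Nat.gcd (Nat.gcd (Nat.gcd d (a 1).val) (a 2).val) m ∣ d :=
      ((Nat.gcd_dvd_left _ _).trans (Nat.gcd_dvd_left _ _)).trans (Nat.gcd_dvd_left _ _)
    have g1 : Nat.gcd (Nat.gcd (Nat.gcd d (a 1).val) (a 2).val) m ∣ (a 1).val :=
      ((Nat.gcd_dvd_left _ _).trans (Nat.gcd_dvd_left _ _)).trans (Nat.gcd_dvd_right _ _)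
    have g2 : Nat.gcd (Nat.gcd (Nat.gcd d (a 1).val) (a 2).val) m ∣ (a 2).val :=
      (Nat.gcd_dvd_left _ _).trans (Nat.gcd_dvd_right _ _)
    have g3 : Nat.gcd (Nat.gcd (Nat.gcd d (a 1).val) (a 2).val) m ∣ m := Nat.gcd_dvd_right _ _
    generalize Nat.gcd (Nat.gcd (Nat.gcd d (a 1).val) (a 2).val) m = g at h1 g0 g1 g2 g3
    have key : ∀ x : ℕ, g ∣ x → ((m / g : ℕ) : ZMod m) * (x : ZMod m) = 0 := by
      rintro x ⟨y, rfl⟩
      rw [← Nat.cast_mul, ← mul_assoc, Nat.div_mul_cancel g3, Nat.cast_mul, ZMod.natCast_self,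
        zero_mul]
    have k0 : ((m / g : ℕ) : ZMod m) * a 0 = 0 := by rw [had]; exact key d g0
    have k1 : ((m / g : ℕ) : ZMod m) * a 1 = 0 := by
      rw [← ZMod.natCast_zmod_val (a 1)]
      exact key _ g1
    have k2 : ((m / g : ℕ) : ZMod m) * a 2 = 0 := by
      rw [← ZMod.natCast_zmod_val (a 2)]
      exact key _ g2
    have k3 : ((m / g : ℕ) : ZMod m) * a 3 = 0 := by
      linear_combination ((m / g : ℕ) : ZMod m) * hs - k0 - k1 - k2
    have h2 := ha.gen ((m / g : ℕ) : ZMod m) (by
      intro i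
      fin_cases i
      · exact k0
      · exact k1
      · exact k2
      · exact k3)
    rw [ZMod.natCast_eq_zero_iff] at h2
    have h3 : 0 < m / g := Nat.div_pos (Nat.le_of_dvd hm0 g3) (by omega)
    have h4 := Nat.le_of_dvd h3 h2
    have h5 := Nat.div_lt_self hm0 h1
    omega
  · have h2 := zc_find _ _ h1
    rw [← hv0] at h2
    exact zc_core a h2

theorem chk_spec {m : ℕ} [NeZero m] (hm : Odd m) {d : ℕ} (h0 : 0 < d) (hd : d < m)
    (h : chk m d = true) (a : Fin 4 → ZMod m) (ha : Adm m a) (had : a 0 = (d : ZMod m)) :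
    4 ≤ cnt m a := by
  rcases le_total (a 2).val (a 1).val with h1 | h1
  · exact zc_main hd h a ha had h1
  · rw [← cnt_perm (Equiv.swap 1 2) a]
    have e0 : (Equiv.swap (1 : Fin 4) 2) 0 = 0 := by decide
    have e1 : (Equiv.swap (1 : Fin 4) 2) 1 = 2 := by decide
    have e2 : (Equiv.swap (1 : Fin 4) 2) 2 = 1 := by decide
    refine zc_main hd h (a ∘ Equiv.swap 1 2) (ha.perm _) ?_ ?_
    · rw [Function.comp_apply, e0]
      exact had
    · rw [Function.comp_apply, Function.comp_apply, e1, e2]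
      exact h1

end Pool.Agent.CO75
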