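import Mathlib

/-!
# The distance to zero and its moments

`cov_nonneg`: put `l = (m - 1)/2`, `h` the indicator of `{0, ..., l - 1} ⊆ ZMod m`. Then
`l - dst j = ∑_u h u h (u + j) =: g j` (`m` odd). For `A (u, v) = ∑_k h (u + k a) h (v + k b)` and
`B (u, v) = ∑_j A (u, v + j b)` one has `∑ A ^ 2 = m ∑_k g (k a) g (k b)` and
`∑ B ^ 2 = m ^ 2 (∑_k g (k a)) (∑_k g (k b))`, and `B ^ 2 ≤ m ∑_j A (u, v + j b) ^ 2` by
Cauchy-Schwarz. Replacing `g` by `l - g` does not change the covariance.
-/

namespace Pool.Agent.CO75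

open Finset

variable {m : ℕ} [NeZero m]

/-- The distance to `0` in `ZMod m`. -/
def dst (j : ZMod m) : ℕ := min j.val (m - j.val)

section Conv

variable (h : ZMod m → ℝ) (a b : ZMod m)

private lemma sum_shift (f : ZMod m → ℝ) (c : ZMod m) : ∑ u, f (u + c) = ∑ u, f u :=
  Equiv.sum_comp (Equiv.addRight c) f

private lemma conv_shift (x y : ZMod m) :
    ∑ u, h (u + x) * h (u + y) = ∑ u, h u * h (u + (y - x)) := by
  rw [← sum_shift (fun u => h u * h (u + (y - x))) x]
  refine sum_congr rfl fun u _ => ?_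
  congr 2
  ring

private lemma sum_sub_right (f : ZMod m → ℝ) (c : ZMod m) : ∑ u, f (u - c) = ∑ u, f u := by
  simpa [sub_eq_add_neg] using sum_shift f (-c)

private lemma sumA (g : ZMod m → ℝ) (hg : ∀ j, g j = ∑ u, h u * h (u + j)) :
    ∑ u, ∑ v, (∑ k, h (u + k * a) * h (v + k * b)) ^ 2 =
      (m : ℝ) * ∑ k, g (k * a) * g (k * b) := by
  have h1 : ∀ u v : ZMod m, (∑ k, h (u + k * a) * h (v + k * b)) ^ 2 =
      ∑ k, ∑ k', (h (u + k * a) * h (u + k' * a)) * (h (v + k * b) * h (v + k' * b)) := by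
    intro u v
    rw [sq, sum_mul_sum]
    refine sum_congr rfl fun k _ => sum_congr rfl fun k' _ => ?_
    ring
  have h2 : ∑ u, ∑ v, (∑ k, h (u + k * a) * h (v + k * b)) ^ 2 =
      ∑ k, ∑ k', (∑ u, h (u + k * a) * h (u + k' * a)) *
        (∑ v, h (v + k * b) * h (v + k' * b)) := by
    simp only [h1]
    calc ∑ u, ∑ v, ∑ k, ∑ k', (h (u + k * a) * h (u + k' * a)) * (h (v + k * b) * h (v + k' * b))
        = ∑ u, ∑ k, ∑ v, ∑ k',
          (h (u + k * a) * h (u + k' * a)) * (h (v + k * b) * h (v + k' * b)) :=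
          sum_congr rfl fun u _ => sum_comm
      _ = ∑ k, ∑ u, ∑ v, ∑ k',
          (h (u + k * a) * h (u + k' * a)) * (h (v + k * b) * h (v + k' * b)) := sum_comm
      _ = ∑ k, ∑ u, ∑ k', ∑ v,
          (h (u + k * a) * h (u + k' * a)) * (h (v + k * b) * h (v + k' * b)) :=
          sum_congr rfl fun k _ => sum_congr rfl fun u _ => sum_comm
      _ = ∑ k, ∑ k', ∑ u, ∑ v,
          (h (u + k * a) * h (u + k' * a)) * (h (v + k * b) * h (v + k' * b)) :=
          sum_congr rfl fun k _ => sum_comm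
      _ = _ := by
          refine sum_congr rfl fun k _ => sum_congr rfl fun k' _ => ?_
          rw [sum_mul_sum]
  rw [h2]
  have h3 : ∀ k k' : ZMod m, (∑ u, h (u + k * a) * h (u + k' * a)) *
      (∑ v, h (v + k * b) * h (v + k' * b)) = g ((k' - k) * a) * g ((k' - k) * b) := by
    intro k k'
    rw [conv_shift, conv_shift, hg, hg]
    congr 2
    · funext u; congr 2; ring
    · funext u; congr 2; ring
  simp only [h3]
  have h4 : ∀ k : ZMod m, ∑ k', g ((k' - k) * a) * g ((k' - k) * b) =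
      ∑ k, g (k * a) * g (k * b) := fun k =>
    sum_sub_right (fun k => g (k * a) * g (k * b)) k
  simp only [h4]
  rw [sum_const, card_univ, ZMod.card, nsmul_eq_mul]

private lemma sumB1 (g : ZMod m → ℝ) (hg : ∀ j, g j = ∑ u, h u * h (u + j)) (c : ZMod m) :
    ∑ u, (∑ k, h (u + k * c)) ^ 2 = (m : ℝ) * ∑ k, g (k * c) := by
  have h1 : ∀ u : ZMod m, (∑ k, h (u + k * c)) ^ 2 = ∑ k, ∑ k', h (u + k * c) * h (u + k' * c) := by
    intro u
    rw [sq, sum_mul_sum]
  simp only [h1]
  have h2 : ∑ u, ∑ k, ∑ k', h (u + k * c) * h (u + k' * c) =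
      ∑ k, ∑ k', ∑ u, h (u + k * c) * h (u + k' * c) := by
    rw [sum_comm]
    exact sum_congr rfl fun k _ => sum_comm
  rw [h2]
  have h3 : ∀ k k' : ZMod m, ∑ u, h (u + k * c) * h (u + k' * c) = g ((k' - k) * c) := by
    intro k k'
    rw [conv_shift, hg]
    congr 1
    funext u; congr 2; ring
  simp only [h3]
  have h4 : ∀ k : ZMod m, ∑ k', g ((k' - k) * c) = ∑ k, g (k * c) := fun k =>
    sum_sub_right (fun k => g (k * c)) k
  simp only [h4]
  rw [sum_const, card_univ, ZMod.card, nsmul_eq_mul]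

private lemma conv_cov (g : ZMod m → ℝ) (hg : ∀ j, g j = ∑ u, h u * h (u + j)) :
    (∑ k, g (k * a)) * (∑ k, g (k * b)) ≤ (m : ℝ) * ∑ k, g (k * a) * g (k * b) := by
  have hm : (0 : ℝ) < m := by exact_mod_cast NeZero.pos m
  set A : ZMod m → ZMod m → ℝ := fun u v => ∑ k, h (u + k * a) * h (v + k * b) with hA
  have hB : ∀ u v : ZMod m, ∑ j, A u (v + j * b) =
      (∑ k, h (u + k * a)) * (∑ k, h (v + k * b)) := by
    intro u v
    simp only [hA]
    rw [sum_comm, sum_mul]
    refine sum_congr rfl fun k _ => ?_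
    rw [← mul_sum]
    congr 1
    rw [← sum_shift (fun j => h (v + j * b)) k]
    refine sum_congr rfl fun j _ => ?_
    congr 1
    ring
  have hCS : ∀ u v : ZMod m, ((∑ k, h (u + k * a)) * (∑ k, h (v + k * b))) ^ 2 ≤
      (m : ℝ) * ∑ j, A u (v + j * b) ^ 2 := by
    intro u v
    rw [← hB]
    have := sq_sum_le_card_mul_sum_sq (s := (univ : Finset (ZMod m))) (f := fun j => A u (v + j * b))
    rwa [card_univ, ZMod.card] at this
  have hsum : ∑ u, ∑ v, ((∑ k, h (u + k * a)) * (∑ k, h (v + k * b))) ^ 2 ≤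
      ∑ u, ∑ v, (m : ℝ) * ∑ j, A u (v + j * b) ^ 2 :=
    sum_le_sum fun u _ => sum_le_sum fun v _ => hCS u v
  have hL : ∑ u, ∑ v, ((∑ k, h (u + k * a)) * (∑ k, h (v + k * b))) ^ 2 =
      ((m : ℝ) * ∑ k, g (k * a)) * ((m : ℝ) * ∑ k, g (k * b)) := by
    rw [← sumB1 h g hg a, ← sumB1 h g hg b, sum_mul_sum]
    refine sum_congr rfl fun u _ => sum_congr rfl fun v _ => ?_
    rw [mul_pow]
  have hR : ∑ u, ∑ v, (m : ℝ) * ∑ j, A u (v + j * b) ^ 2 =
      (m : ℝ) * ((m : ℝ) * ((m : ℝ) * ∑ k, g (k * a) * g (k * b))) := by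
    rw [← sumA h a b g hg]
    simp only [← mul_sum]
    congr 1
    rw [mul_sum]
    refine sum_congr rfl fun u _ => ?_
    rw [sum_comm]
    have : ∀ j : ZMod m, ∑ v, A u (v + j * b) ^ 2 = ∑ v, A u v ^ 2 := fun j =>
      sum_shift (fun v => A u v ^ 2) (j * b)
    simp only [this]
    rw [sum_const, card_univ, ZMod.card, nsmul_eq_mul]
  rw [hL, hR] at hsum
  have h5 : (m : ℝ) * m * ((∑ k, g (k * a)) * (∑ k, g (k * b))) ≤
      (m : ℝ) * m * ((m : ℝ) * ∑ k, g (k * a) * g (k * b)) := by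
    calc _ = ((m : ℝ) * ∑ k, g (k * a)) * ((m : ℝ) * ∑ k, g (k * b)) := by ring
      _ ≤ _ := hsum
      _ = _ := by ring
  exact le_of_mul_le_mul_left h5 (by positivity)

end Conv

private lemma count_overlap {l : ℕ} (hm : m = 2 * l + 1) (j : ZMod m) :
    (univ.filter fun u : ZMod m => u.val < l ∧ (u + j).val < l).card = l - dst j := by
  have hj : j.val < m := ZMod.val_lt j
  rcases Nat.lt_or_ge l j.val with hc | hc
  · have hd : dst j = m - j.val := by unfold dst; omega
    have hcard : (Finset.Ico (m - j.val) l).card = l - dst j := by rw [Nat.card_Ico, hd]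
    rw [← hcard]
    refine Finset.card_nbij' (fun u => u.val) (fun x => (x : ZMod m)) ?_ ?_ ?_ ?_
    · intro u hu
      simp only [coe_filter, mem_univ, true_and, Set.mem_ofPred_eq] at hu
      have hu' : u.val < m := ZMod.val_lt u
      rw [ZMod.val_add] at hu
      simp only [coe_Ico, Set.mem_Ico]
      rcases Nat.lt_or_ge (u.val + j.val) m with h1 | h1
      · rw [Nat.mod_eq_of_lt h1] at hu; omega
      · omega
    · intro x hx
      simp only [coe_Ico, Set.mem_Ico] at hx
      simp only [coe_filter, mem_univ, true_and, Set.mem_ofPred_eq]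
      have hx' : ((x : ZMod m)).val = x := ZMod.val_natCast_of_lt (by omega)
      rw [ZMod.val_add, hx']
      refine ⟨hx.2, ?_⟩
      rw [Nat.mod_eq_sub_mod (by omega), Nat.mod_eq_of_lt (by omega)]
      omega
    · intro u _
      exact ZMod.natCast_zmod_val u
    · intro x hx
      simp only [coe_Ico, Set.mem_Ico] at hx
      exact ZMod.val_natCast_of_lt (by omega)
  · have hd : dst j = j.val := by unfold dst; omega
    have hcard : (Finset.range (l - j.val)).card = l - dst j := by rw [card_range, hd]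
    rw [← hcard]
    refine Finset.card_nbij' (fun u => u.val) (fun x => (x : ZMod m)) ?_ ?_ ?_ ?_
    · intro u hu
      simp only [coe_filter, mem_univ, true_and, Set.mem_ofPred_eq] at hu
      rw [ZMod.val_add, Nat.mod_eq_of_lt (by omega)] at hu
      simp only [coe_range, Set.mem_Iio]
      omega
    · intro x hx
      simp only [coe_range, Set.mem_Iio] at hx
      simp only [coe_filter, mem_univ, true_and, Set.mem_ofPred_eq]
      have hx' : ((x : ZMod m)).val = x := ZMod.val_natCast_of_lt (by omega)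
      rw [ZMod.val_add, hx', Nat.mod_eq_of_lt (by omega)]
      omega
    · intro u _
      exact ZMod.natCast_zmod_val u
    · intro x hx
      simp only [coe_range, Set.mem_Iio] at hx
      exact ZMod.val_natCast_of_lt (by omega)

theorem cov_nonneg (hm : Odd m) (a b : ZMod m) :
    (∑ k : ZMod m, (dst (k * a) : ℝ)) * (∑ k : ZMod m, (dst (k * b) : ℝ)) ≤
      (m : ℝ) * ∑ k : ZMod m, (dst (k * a) : ℝ) * (dst (k * b) : ℝ) := by
  obtain ⟨l, hl⟩ := hm
  set h : ZMod m → ℝ := fun u => if u.val < l then 1 else 0 with hh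
  set g : ZMod m → ℝ := fun j => ∑ u, h u * h (u + j) with hg
  have hdst : ∀ j : ZMod m, (dst j : ℝ) = l - g j := by
    intro j
    have h1 : g j = ((univ.filter fun u : ZMod m => u.val < l ∧ (u + j).val < l).card : ℝ) := by
      simp only [hg, hh]
      rw [card_filter]
      push_cast
      refine sum_congr rfl fun u _ => ?_
      by_cases h1 : u.val < l <;> by_cases h2 : (u + j).val < l <;> simp [h1, h2]
    have h2 : dst j ≤ l := by
      have := ZMod.val_lt j
      unfold dst; omega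
    rw [h1, count_overlap hl j, Nat.cast_sub h2]
    ring
  have key := conv_cov h a b g fun j => rfl
  have hc : ∑ _k : ZMod m, (l : ℝ) = m * l := by
    rw [sum_const, card_univ, ZMod.card, nsmul_eq_mul]
  have hS : ∀ c : ZMod m, ∑ k : ZMod m, (dst (k * c) : ℝ) = m * l - ∑ k, g (k * c) := by
    intro c
    simp only [hdst]
    rw [sum_sub_distrib, hc]
  have hP : ∑ k : ZMod m, (dst (k * a) : ℝ) * (dst (k * b) : ℝ) =
      m * l * l - l * ∑ k, g (k * a) - l * ∑ k, g (k * b) + ∑ k, g (k * a) * g (k * b) := by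
    have h1 : ∀ k : ZMod m, (dst (k * a) : ℝ) * (dst (k * b) : ℝ) =
        (l : ℝ) * l - l * g (k * a) - l * g (k * b) + g (k * a) * g (k * b) := by
      intro k
      rw [hdst, hdst]
      ring
    simp only [h1]
    rw [sum_add_distrib, sum_sub_distrib, sum_sub_distrib, sum_const, card_univ, ZMod.card,
      nsmul_eq_mul, ← mul_sum, ← mul_sum]
    ring
  rw [hS, hS, hP]
  nlinarith [key]

end Pool.Agent.CO75
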